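import Mathlib

/-!
# Averages over pairs of a function of the divisibility by finitely many primes
-/

set_option autoImplicit false

namespace Pool.Agent.K4H50.TM

open Finset

/-- the sum of `f a / a` over `1 ≤ a ≤ A` -/
noncomputable def S1 (f : ℕ → ℝ) (A : ℕ) : ℝ := ∑ a ∈ Icc 1 A, f a / a

/-- the sum of `f a b / (a b)` -/
noncomputable def S2 (f : ℕ → ℕ → ℝ) (A B : ℕ) : ℝ := ∑ a ∈ Icc 1 A, ∑ b ∈ Icc 1 B, f a b / (a * b)

theorem sum_dvd (F : ℕ → ℝ) (l A : ℕ) (hl : 0 < l) :
    ∑ a ∈ (Icc 1 A).filter (fun a => l ∣ a), F a = ∑ a ∈ Icc 1 (A / l), F (l * a) := by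
  symm
  refine sum_bij' (fun a _ => l * a) (fun a _ => a / l) ?_ ?_ ?_ ?_ ?_
  · intro a ha
    rw [mem_Icc] at ha
    rw [mem_filter, mem_Icc]
    refine ⟨⟨Nat.mul_pos hl (by omega), ?_⟩, dvd_mul_right _ _⟩
    calc l * a ≤ l * (A / l) := Nat.mul_le_mul_left _ ha.2
      _ ≤ A := Nat.mul_div_le _ _
  · intro a ha
    rw [mem_filter, mem_Icc] at ha
    obtain ⟨⟨h1, h2⟩, k, rfl⟩ := ha
    rw [mem_Icc, Nat.mul_div_cancel_left _ hl]
    refine ⟨?_, ?_⟩
    · rcases Nat.eq_zero_or_pos k with h | h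
      · subst h; simp at h1
      · exact h
    · exact (Nat.le_div_iff_mul_le hl).2 (by rw [mul_comm]; exact h2)
  · intro a _
    exact Nat.mul_div_cancel_left _ hl
  · intro a ha
    rw [mem_filter] at ha
    exact Nat.mul_div_cancel' ha.2
  · intro a _
    rfl

theorem S1_dvd (f : ℕ → ℝ) (l A : ℕ) (hl : 0 < l) (hf : ∀ a, f (l * a) = f a) :
    S1 (fun a => if l ∣ a then f a else 0) A = 1 / (l : ℝ) * S1 f (A / l) := by
  unfold S1
  have e : ∀ a ∈ Icc 1 A, (if l ∣ a then f a else 0) / (a : ℝ) = if l ∣ a then f a / a else 0 := by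
    intro a _
    split_ifs <;> simp
  rw [sum_congr rfl e, ← sum_filter, sum_dvd (fun a => f a / a) l A hl, mul_sum]
  apply sum_congr rfl
  intro a _
  rw [hf]
  push_cast
  rw [one_div, mul_comm (l : ℝ) a, div_mul_eq_div_div]
  rw [div_eq_inv_mul (f a / a)]

theorem S1_mono (f : ℕ → ℝ) (hf : ∀ a, 0 ≤ f a) {A B : ℕ} (h : A ≤ B) : S1 f A ≤ S1 f B := by
  unfold S1
  apply sum_le_sum_of_subset_of_nonneg (Icc_subset_Icc_right h)
  intro a _ _
  exact div_nonneg (hf a) (Nat.cast_nonneg _)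

/-- one more prime, upper bound -/
theorem S1_step (f : ℕ → ℝ) (hf : ∀ a, 0 ≤ f a) (l : ℕ) (hl : 0 < l) (hl1 : ∀ a, f (l * a) = f a) (u : ℝ)
    (hu : 0 ≤ u) (A : ℕ) :
    S1 (fun a => f a * (if l ∣ a then 1 + u else 1)) A ≤ (1 + u / l) * S1 f A := by
  have e : S1 (fun a => f a * (if l ∣ a then 1 + u else 1)) A =
      S1 f A + u * S1 (fun a => if l ∣ a then f a else 0) A := by
    unfold S1
    rw [mul_sum, ← sum_add_distrib]
    apply sum_congr rfl
    intro a _
    show f a * (if l ∣ a then 1 + u else 1) / (a : ℝ) = f a / a + u * ((if l ∣ a then f a else 0) / (a : ℝ))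
    split_ifs <;> ring
  rw [e, S1_dvd f l A hl hl1]
  have h1 := S1_mono f hf (Nat.div_le_self A l)
  have h2 : u * (1 / (l : ℝ) * S1 f (A / l)) ≤ u * (1 / (l : ℝ) * S1 f A) := by
    apply mul_le_mul_of_nonneg_left _ hu
    exact mul_le_mul_of_nonneg_left h1 (by positivity)
  calc S1 f A + u * (1 / (l : ℝ) * S1 f (A / l)) ≤ S1 f A + u * (1 / (l : ℝ) * S1 f A) := by linarith
    _ = (1 + u / l) * S1 f A := by ring

theorem S1_prod (f : ℕ → ℝ) (hf : ∀ a, 0 ≤ f a) (u : ℕ → ℝ) (hu : ∀ l, 0 ≤ u l) (S : Finset ℕ) :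
    (∀ l ∈ S, l.Prime) → (∀ l ∈ S, ∀ a, f (l * a) = f a) → ∀ A : ℕ,
    S1 (fun a => f a * ∏ l ∈ S, (if l ∣ a then 1 + u l else 1)) A ≤ (∏ l ∈ S, (1 + u l / l)) * S1 f A := by
  induction S using Finset.induction_on with
  | empty => intro _ _ A; simp
  | insert l S hl ih =>
    intro hS hinv A
    have hlp := hS l (mem_insert_self _ _)
    have h1 := ih (fun q hq => hS q (mem_insert_of_mem hq)) (fun q hq => hinv q (mem_insert_of_mem hq)) A
    have h2 := S1_step (fun a => f a * ∏ q ∈ S, (if q ∣ a then 1 + u q else 1))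
      (fun a => mul_nonneg (hf a) (prod_nonneg fun q _ => by
        have := hu q
        split_ifs <;> linarith)) l hlp.pos (by
        intro a
        show f (l * a) * _ = f a * _
        rw [hinv l (mem_insert_self _ _)]
        congr 1
        apply prod_congr rfl
        intro q hq
        have hqp := hS q (mem_insert_of_mem hq)
        have hne : q ≠ l := fun h => hl (h ▸ hq)
        have : q ∣ l * a ↔ q ∣ a := by
          rw [hqp.dvd_mul]
          constructor
          · rintro (h | h)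
            · exact absurd ((Nat.prime_dvd_prime_iff_eq hqp hlp).1 h) hne
            · exact h
          · exact Or.inr
        simp only [this]) (u l) (hu l) A
    have e : S1 (fun a => f a * ∏ q ∈ insert l S, (if q ∣ a then 1 + u q else 1)) A =
        S1 (fun a => (f a * ∏ q ∈ S, (if q ∣ a then 1 + u q else 1)) * (if l ∣ a then 1 + u l else 1)) A := by
      unfold S1
      apply sum_congr rfl
      intro a _
      show f a * (∏ q ∈ insert l S, (if q ∣ a then 1 + u q else 1)) / a = _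
      rw [prod_insert hl]
      ring
    rw [e, prod_insert hl]
    refine h2.trans ?_
    rw [mul_assoc]
    apply mul_le_mul_of_nonneg_left h1
    have := hu l
    positivity

theorem harm_bound (y : ℕ) (hy : 1 ≤ y) : |∑ e ∈ Icc 1 y, (1 / (e : ℝ)) - Real.log y| ≤ 1 := by
  have h1 := log_add_one_le_harmonic y
  have h2 := harmonic_le_one_add_log y
  have e : ((harmonic y : ℚ) : ℝ) = ∑ e ∈ Icc 1 y, (1 / (e : ℝ)) := by
    rw [harmonic_eq_sum_Icc]
    push_cast
    apply sum_congr rfl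
    intro i _
    rw [one_div]
  rw [e] at h1 h2
  have h3 : Real.log y ≤ Real.log ((y : ℝ) + 1) := Real.log_le_log (by exact_mod_cast hy) (by linarith)
  rw [abs_le]
  constructor <;> [push_cast at h1; skip] <;> linarith

/-- `f` has mean `m` -/
def Mean (f : ℕ → ℕ → ℝ) (m : ℝ) : Prop := ∃ C : ℝ, 0 ≤ C ∧ ∀ A B : ℕ,
  |S2 f A B - m * (Real.log A * Real.log B)| ≤ C * (1 + Real.log A + Real.log B)

theorem harm_bound0 (y : ℕ) : |∑ e ∈ Icc 1 y, (1 / (e : ℝ)) - Real.log y| ≤ 1 := by
  rcases Nat.eq_zero_or_pos y with rfl | h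
  · simp
  · exact harm_bound y h

theorem Mean_one : Mean (fun _ _ => 1) 1 := by
  refine ⟨1, by norm_num, fun A B => ?_⟩
  have e : S2 (fun _ _ => (1 : ℝ)) A B = (∑ a ∈ Icc 1 A, (1 / (a : ℝ))) * ∑ b ∈ Icc 1 B, (1 / (b : ℝ)) := by
    unfold S2
    rw [sum_mul_sum]
    apply sum_congr rfl; intro a _
    apply sum_congr rfl; intro b _
    rw [one_div_mul_one_div]
  rw [e]
  have h1 := harm_bound0 A
  have h2 := harm_bound0 B
  have h3 : 0 ≤ Real.log A := Real.log_natCast_nonneg A
  have h4 : 0 ≤ Real.log B := Real.log_natCast_nonneg B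
  obtain ⟨s, hs⟩ : ∃ s, s = ∑ a ∈ Icc 1 A, (1 / (a : ℝ)) := ⟨_, rfl⟩
  obtain ⟨t, ht⟩ : ∃ t, t = ∑ b ∈ Icc 1 B, (1 / (b : ℝ)) := ⟨_, rfl⟩
  rw [← hs] at h1 ⊢
  rw [← ht] at h2 ⊢
  obtain ⟨u, hu⟩ : ∃ u, u = s - Real.log A := ⟨_, rfl⟩
  obtain ⟨v, hv⟩ : ∃ v, v = t - Real.log B := ⟨_, rfl⟩
  rw [← hu] at h1
  rw [← hv] at h2
  have es : s * t - 1 * (Real.log A * Real.log B) = u * Real.log B + v * Real.log A + u * v := by
    rw [show s = u + Real.log A by linarith, show t = v + Real.log B by linarith]; ring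
  rw [es]
  have h5 : |u * Real.log B| ≤ Real.log B := by
    rw [abs_mul, abs_of_nonneg h4]; exact mul_le_of_le_one_left h4 h1
  have h6 : |v * Real.log A| ≤ Real.log A := by
    rw [abs_mul, abs_of_nonneg h3]; exact mul_le_of_le_one_left h3 h2
  have h7 : |u * v| ≤ 1 := by
    rw [abs_mul]
    calc |u| * |v| ≤ 1 * 1 := mul_le_mul h1 h2 (abs_nonneg _) (by norm_num)
      _ = 1 := by norm_num
  have h8 := abs_add_le (u * Real.log B + v * Real.log A) (u * v)
  have h9 := abs_add_le (u * Real.log B) (v * Real.log A)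
  linarith

theorem log_div_bound (A l : ℕ) (hl : 0 < l) : |Real.log ((A / l : ℕ) : ℝ) - Real.log A| ≤ Real.log (2 * l) ∧
    Real.log ((A / l : ℕ) : ℝ) ≤ Real.log A := by
  have hl0 : (1 : ℝ) ≤ l := by exact_mod_cast hl
  have hll : 0 ≤ Real.log (2 * l) := Real.log_nonneg (by linarith)
  rcases Nat.lt_or_ge A l with h | h
  · rw [Nat.div_eq_of_lt h]
    simp only [Nat.cast_zero, Real.log_zero, zero_sub, abs_neg]
    rw [abs_of_nonneg (Real.log_natCast_nonneg A)]
    refine ⟨?_, Real.log_natCast_nonneg A⟩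
    rcases Nat.eq_zero_or_pos A with rfl | hA
    · simp only [Nat.cast_zero, Real.log_zero]; exact hll
    · apply Real.log_le_log (by exact_mod_cast hA)
      have : (A : ℝ) ≤ l := by exact_mod_cast h.le
      linarith
  · have h1 : 1 ≤ A / l := (Nat.le_div_iff_mul_le hl).2 (by omega)
    have h2 : A < 2 * l * (A / l) := by
      have h3 : l * (A / l) + A % l = A := Nat.div_add_mod A l
      have h4 := Nat.mod_lt A hl
      nlinarith [Nat.mul_le_mul_left l h1]
    have h1' : (1 : ℝ) ≤ ((A / l : ℕ) : ℝ) := by exact_mod_cast h1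
    have h2' : (A : ℝ) ≤ 2 * l * ((A / l : ℕ) : ℝ) := by exact_mod_cast h2.le
    have hA : (0 : ℝ) < A := by exact_mod_cast (by omega : 0 < A)
    have h5 : Real.log ((A / l : ℕ) : ℝ) ≤ Real.log A := by
      apply Real.log_le_log (by linarith)
      exact_mod_cast Nat.div_le_self A l
    have h6 : Real.log A ≤ Real.log (2 * l) + Real.log ((A / l : ℕ) : ℝ) := by
      rw [← Real.log_mul (by positivity) (by positivity)]
      exact Real.log_le_log hA h2'
    refine ⟨?_, h5⟩
    rw [abs_le]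
    constructor <;> linarith

theorem S2_dvd_left (f : ℕ → ℕ → ℝ) (l A B : ℕ) (hl : 0 < l) (hf : ∀ a b, f (l * a) b = f a b) :
    S2 (fun a b => if l ∣ a then f a b else 0) A B = 1 / (l : ℝ) * S2 f (A / l) B := by
  have e1 : ∀ (g : ℕ → ℕ → ℝ) (A : ℕ), S2 g A B = S1 (fun a => ∑ b ∈ Icc 1 B, g a b / b) A := by
    intro g A
    unfold S2 S1
    apply sum_congr rfl; intro a _
    rw [sum_div]
    apply sum_congr rfl; intro b _
    rw [div_div, mul_comm]
  rw [e1, e1, ← S1_dvd _ l A hl (fun a => by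
    show ∑ b ∈ Icc 1 B, f (l * a) b / b = ∑ b ∈ Icc 1 B, f a b / b
    apply sum_congr rfl; intro b _; rw [hf])]
  unfold S1
  apply sum_congr rfl; intro a _
  congr 1
  show ∑ b ∈ Icc 1 B, (if l ∣ a then f a b else 0) / (b : ℝ) = if l ∣ a then ∑ b ∈ Icc 1 B, f a b / (b : ℝ) else 0
  split_ifs with h
  · rfl
  · simp

theorem S2_comm (f : ℕ → ℕ → ℝ) (A B : ℕ) : S2 f A B = S2 (fun a b => f b a) B A := by
  unfold S2
  rw [sum_comm]
  apply sum_congr rfl; intro b _
  apply sum_congr rfl; intro a _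
  rw [mul_comm]

theorem S2_dvd_right (f : ℕ → ℕ → ℝ) (l A B : ℕ) (hl : 0 < l) (hf : ∀ a b, f a (l * b) = f a b) :
    S2 (fun a b => if l ∣ b then f a b else 0) A B = 1 / (l : ℝ) * S2 f A (B / l) := by
  rw [S2_comm, S2_dvd_left (fun a b => f b a) l B A hl (fun a b => hf b a), S2_comm f A]

theorem Mean_left (f : ℕ → ℕ → ℝ) (m : ℝ) (h : Mean f m) (l : ℕ) (hl : 0 < l)
    (hf : ∀ a b, f (l * a) b = f a b) : Mean (fun a b => if l ∣ a then f a b else 0) (m / l) := by
  obtain ⟨C, hC, h⟩ := h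
  have hl1 : (1 : ℝ) ≤ l := by exact_mod_cast hl
  refine ⟨C + |m| * Real.log (2 * l), by
    have := Real.log_nonneg (show (1 : ℝ) ≤ 2 * l by linarith); positivity, fun A B => ?_⟩
  rw [S2_dvd_left f l A B hl hf]
  have h1 := h (A / l) B
  obtain ⟨h2, h3⟩ := log_div_bound A l hl
  have h4 : 0 ≤ Real.log B := Real.log_natCast_nonneg B
  have h5 : 0 ≤ Real.log A := Real.log_natCast_nonneg A
  have hl2 := Real.log_nonneg (show (1 : ℝ) ≤ 2 * l by linarith)
  obtain ⟨s, hs⟩ : ∃ s, s = S2 f (A / l) B := ⟨_, rfl⟩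
  rw [← hs] at h1 ⊢
  obtain ⟨g, hg⟩ : ∃ g, g = Real.log ((A / l : ℕ) : ℝ) := ⟨_, rfl⟩
  rw [← hg] at h1 h2 h3
  have e : 1 / (l : ℝ) * s - m / l * (Real.log A * Real.log B) =
      1 / (l : ℝ) * ((s - m * (g * Real.log B)) + m * ((g - Real.log A) * Real.log B)) := by ring
  rw [e, abs_mul]
  have h6 : |1 / (l : ℝ)| ≤ 1 := by
    rw [abs_of_nonneg (by positivity), div_le_one (by linarith)]; exact hl1
  have h7 : |m * ((g - Real.log A) * Real.log B)| ≤ |m| * Real.log (2 * l) * Real.log B := by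
    rw [abs_mul, abs_mul, abs_of_nonneg h4, mul_assoc]
    apply mul_le_mul_of_nonneg_left _ (abs_nonneg _)
    exact mul_le_mul_of_nonneg_right h2 h4
  have h8 : |(s - m * (g * Real.log B)) + m * ((g - Real.log A) * Real.log B)| ≤
      (C + |m| * Real.log (2 * l)) * (1 + Real.log A + Real.log B) := by
    refine (abs_add_le _ _).trans ?_
    have h9 : C * (1 + g + Real.log B) ≤ C * (1 + Real.log A + Real.log B) :=
      mul_le_mul_of_nonneg_left (by linarith) hC
    have h10 : 0 ≤ |m| * Real.log (2 * l) := by positivity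
    nlinarith
  calc |1 / (l : ℝ)| * _ ≤ 1 * ((C + |m| * Real.log (2 * l)) * (1 + Real.log A + Real.log B)) :=
        mul_le_mul h6 h8 (abs_nonneg _) (by norm_num)
    _ = _ := one_mul _

theorem Mean_comm (f : ℕ → ℕ → ℝ) (m : ℝ) (h : Mean f m) : Mean (fun a b => f b a) m := by
  obtain ⟨C, hC, h⟩ := h
  refine ⟨C, hC, fun A B => ?_⟩
  have := h B A
  rw [S2_comm f B A] at this
  rw [mul_comm (Real.log A)]
  refine this.trans (le_of_eq ?_)
  ring

theorem Mean_right (f : ℕ → ℕ → ℝ) (m : ℝ) (h : Mean f m) (l : ℕ) (hl : 0 < l)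
    (hf : ∀ a b, f a (l * b) = f a b) : Mean (fun a b => if l ∣ b then f a b else 0) (m / l) :=
  Mean_comm _ _ (Mean_left (fun a b => f b a) m (Mean_comm f m h) l hl (fun a b => hf b a))

theorem Mean_add (f g : ℕ → ℕ → ℝ) (m n : ℝ) (h : Mean f m) (h' : Mean g n) :
    Mean (fun a b => f a b + g a b) (m + n) := by
  obtain ⟨C, hC, h⟩ := h
  obtain ⟨D, hD, h'⟩ := h'
  refine ⟨C + D, by positivity, fun A B => ?_⟩
  have e : S2 (fun a b => f a b + g a b) A B = S2 f A B + S2 g A B := by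
    unfold S2
    rw [← sum_add_distrib]
    apply sum_congr rfl; intro a _
    rw [← sum_add_distrib]
    apply sum_congr rfl; intro b _
    rw [add_div]
  rw [e]
  have h1 := h A B
  have h2 := h' A B
  have e2 : S2 f A B + S2 g A B - (m + n) * (Real.log A * Real.log B) =
      (S2 f A B - m * (Real.log A * Real.log B)) + (S2 g A B - n * (Real.log A * Real.log B)) := by ring
  rw [e2]
  refine (abs_add_le _ _).trans ?_
  linarith

theorem Mean_smul (f : ℕ → ℕ → ℝ) (m c : ℝ) (h : Mean f m) : Mean (fun a b => c * f a b) (c * m) := by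
  obtain ⟨C, hC, h⟩ := h
  refine ⟨|c| * C, by positivity, fun A B => ?_⟩
  have e : S2 (fun a b => c * f a b) A B = c * S2 f A B := by
    unfold S2
    rw [mul_sum]
    apply sum_congr rfl; intro a _
    rw [mul_sum]
    apply sum_congr rfl; intro b _
    rw [mul_div_assoc]
  rw [e, show c * S2 f A B - c * m * (Real.log A * Real.log B) =
    c * (S2 f A B - m * (Real.log A * Real.log B)) by ring, abs_mul, mul_assoc]
  exact mul_le_mul_of_nonneg_left (h A B) (abs_nonneg _)

theorem Mean_congr (f g : ℕ → ℕ → ℝ) (m : ℝ) (h : Mean f m) (e : ∀ a b, f a b = g a b) : Mean g m := by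
  have : f = g := by funext a b; exact e a b
  rwa [← this]

/-- one more prime -/
theorem Mean_step (f : ℕ → ℕ → ℝ) (m : ℝ) (h : Mean f m) (l : ℕ) (hl : 0 < l)
    (hf1 : ∀ a b, f (l * a) b = f a b) (hf2 : ∀ a b, f a (l * b) = f a b) (v : Bool → Bool → ℝ) :
    Mean (fun a b => f a b * v (decide (l ∣ a)) (decide (l ∣ b)))
      (m * ((1 - 1 / (l : ℝ)) ^ 2 * v false false + 1 / (l : ℝ) * (1 - 1 / l) * (v true false + v false true) +
        1 / (l : ℝ) ^ 2 * v true true)) := by
  have h1 := Mean_left f m h l hl hf1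
  have h2 := Mean_right f m h l hl hf2
  have h3 := Mean_right _ _ h1 l hl (fun a b => by
    show (if l ∣ a then f a (l * b) else 0) = if l ∣ a then f a b else 0
    rw [hf2])
  have h4 := Mean_add _ _ _ _ (Mean_add _ _ _ _ (Mean_smul f m (v false false) h)
    (Mean_smul _ _ (v true false - v false false) h1))
    (Mean_add _ _ _ _ (Mean_smul _ _ (v false true - v false false) h2)
      (Mean_smul _ _ (v true true - v true false - v false true + v false false) h3))
  have e : v false false * m + (v true false - v false false) * (m / l) +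
      ((v false true - v false false) * (m / l) +
        (v true true - v true false - v false true + v false false) * (m / l / l)) =
      m * ((1 - 1 / (l : ℝ)) ^ 2 * v false false + 1 / (l : ℝ) * (1 - 1 / l) * (v true false + v false true) +
        1 / (l : ℝ) ^ 2 * v true true) := by
    have hl0 : (l : ℝ) ≠ 0 := by positivity
    field_simp
    ring
  rw [e] at h4
  refine Mean_congr _ _ _ h4 ?_
  intro a b
  by_cases ha : l ∣ a <;> by_cases hb : l ∣ b <;> simp [ha, hb] <;> ring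

/-- functions of the divisibility by the primes of a finite set, with local means 1 -/
theorem Mean_prod (v : ℕ → Bool → Bool → ℝ) (S : Finset ℕ) : (∀ l ∈ S, l.Prime) →
    (∀ l ∈ S, (1 - 1 / (l : ℝ)) ^ 2 * v l false false + 1 / (l : ℝ) * (1 - 1 / l) * (v l true false + v l false true) +
        1 / (l : ℝ) ^ 2 * v l true true = 1) →
    Mean (fun a b => ∏ l ∈ S, v l (decide (l ∣ a)) (decide (l ∣ b))) 1 := by
  induction S using Finset.induction_on with
  | empty => intro _ _; simpa using Mean_one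
  | insert l S hl ih =>
    intro hS hm
    have hlp := hS l (mem_insert_self _ _)
    have h1 := ih (fun q hq => hS q (mem_insert_of_mem hq)) (fun q hq => hm q (mem_insert_of_mem hq))
    have hinv : ∀ q ∈ S, ∀ a, decide (q ∣ l * a) = decide (q ∣ a) := by
      intro q hq a
      have hqp := hS q (mem_insert_of_mem hq)
      have hne : q ≠ l := fun h => hl (h ▸ hq)
      rw [decide_eq_decide, hqp.dvd_mul]
      constructor
      · rintro (h | h)
        · exact absurd ((Nat.prime_dvd_prime_iff_eq hqp hlp).1 h) hne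
        · exact h
      · exact Or.inr
    have h2 := Mean_step _ _ h1 l hlp.pos (fun a b => by
        apply prod_congr rfl; intro q hq; rw [hinv q hq]) (fun a b => by
        apply prod_congr rfl; intro q hq; rw [hinv q hq]) (v l)
    rw [hm l (mem_insert_self _ _), mul_one] at h2
    refine Mean_congr _ _ _ h2 ?_
    intro a b
    rw [prod_insert hl, mul_comm]

end Pool.Agent.K4H50.TM
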