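import Pool.Agent.K4H50.TM.A1

/-!
# The local factors
-/

set_option autoImplicit false

namespace Pool.Agent.K4H50.TM

open Finset

/-- the number of residue classes modulo `l` met by `0, h₁, h₂` -/
def nu (h1 h2 l : ℕ) : ℕ := (({0, h1, h2} : Finset ℕ).image (· % l)).card

/-- the local factors -/
noncomputable def vv (h1 h2 l : ℕ) : Bool → Bool → ℝ
  | false, false => (1 - (nu h1 h2 l : ℝ) / l) / (1 - 1 / (l : ℝ)) ^ 3
  | true, false => if l ∣ h1 then 0 else 1 / (1 - 1 / (l : ℝ)) ^ 2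
  | false, true => if l ∣ h2 then 0 else 1 / (1 - 1 / (l : ℝ)) ^ 2
  | true, true => 0

/-- the local factor at `l` -/
noncomputable def loc (h1 h2 l a b : ℕ) : ℝ := vv h1 h2 l (decide (l ∣ a)) (decide (l ∣ b))

theorem nu_one {h1 h2 l : ℕ} (a : l ∣ h1) (b : l ∣ h2) : nu h1 h2 l = 1 := by
  unfold nu
  rw [image_insert, image_insert, image_singleton, Nat.mod_eq_zero_of_dvd a, Nat.mod_eq_zero_of_dvd b, Nat.zero_mod]
  simp

theorem nu_two {h1 h2 l : ℕ} (a : l ∣ h1) (b : ¬ l ∣ h2) : nu h1 h2 l = 2 := by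
  unfold nu
  rw [image_insert, image_insert, image_singleton, Nat.mod_eq_zero_of_dvd a, Nat.zero_mod]
  have : h2 % l ≠ 0 := fun h => b (Nat.dvd_of_mod_eq_zero h)
  rw [insert_idem, card_pair this.symm]

theorem nu_two' {h1 h2 l : ℕ} (a : ¬ l ∣ h1) (b : l ∣ h2) : nu h1 h2 l = 2 := by
  unfold nu
  rw [image_insert, image_insert, image_singleton, Nat.mod_eq_zero_of_dvd b, Nat.zero_mod]
  have : h1 % l ≠ 0 := fun h => a (Nat.dvd_of_mod_eq_zero h)
  rw [pair_comm, insert_idem, card_pair this.symm]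

theorem nu_three {h1 h2 l : ℕ} (a : ¬ l ∣ h1) (b : ¬ l ∣ h2) (c : ¬ l ∣ h2 - h1) (h : h1 ≤ h2) : nu h1 h2 l = 3 := by
  unfold nu
  rw [image_insert, image_insert, image_singleton, Nat.zero_mod]
  have h3 : h1 % l ≠ 0 := fun h => a (Nat.dvd_of_mod_eq_zero h)
  have h4 : h2 % l ≠ 0 := fun h => b (Nat.dvd_of_mod_eq_zero h)
  have h5 : h1 % l ≠ h2 % l := by
    intro h'
    exact c ((Nat.modEq_iff_dvd' h).1 h')
  rw [card_insert_of_notMem, card_pair h5]
  rw [mem_insert, mem_singleton]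
  rintro (h | h)
  · exact h3 h.symm
  · exact h4 h.symm

theorem mean_loc {h1 h2 l : ℕ} (hl : l.Prime) (h : h1 ≤ h2) (hr : l ∣ h2 - h1 → l ∣ h1) :
    (1 - 1 / (l : ℝ)) ^ 2 * vv h1 h2 l false false +
      1 / (l : ℝ) * (1 - 1 / l) * (vv h1 h2 l true false + vv h1 h2 l false true) +
        1 / (l : ℝ) ^ 2 * vv h1 h2 l true true = 1 := by
  have hl2 : (2 : ℝ) ≤ l := by exact_mod_cast hl.two_le
  have e0 : (l : ℝ) ≠ 0 := by linarith
  have e1 : (l : ℝ) - 1 ≠ 0 := by linarith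
  have e2 : (1 - 1 / (l : ℝ)) = ((l : ℝ) - 1) / l := by field_simp
  unfold vv
  by_cases a : l ∣ h1
  · by_cases b : l ∣ h2
    · rw [nu_one a b, if_pos a, if_pos b, e2]
      push_cast
      field_simp
      ring
    · rw [nu_two a b, if_pos a, if_neg b, e2]
      push_cast
      field_simp
      ring
  · by_cases b : l ∣ h2
    · rw [nu_two' a b, if_neg a, if_pos b, e2]
      push_cast
      field_simp
      ring
    · rw [nu_three a b (fun c => a (hr c)) h, if_neg a, if_neg b, e2]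
      push_cast
      field_simp
      ring

theorem nu_le (h1 h2 l : ℕ) (hl : 0 < l) : nu h1 h2 l ≤ l := by
  unfold nu
  have h : (({0, h1, h2} : Finset ℕ).image (· % l)) ⊆ range l := by
    intro x hx
    rw [mem_image] at hx
    obtain ⟨y, -, rfl⟩ := hx
    exact mem_range.2 (Nat.mod_lt _ hl)
  calc _ ≤ (range l).card := card_le_card h
    _ = l := card_range l

theorem vv_nonneg {h1 h2 l : ℕ} (hl : l.Prime) (i j : Bool) : 0 ≤ vv h1 h2 l i j := by
  have hl2 : (2 : ℝ) ≤ l := by exact_mod_cast hl.two_le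
  have e2 : 0 < (1 - 1 / (l : ℝ)) := by
    have : 1 / (l : ℝ) < 1 := by rw [div_lt_one (by linarith)]; linarith
    linarith
  have h : (nu h1 h2 l : ℝ) / l ≤ 1 := by
    rw [div_le_one (by linarith)]
    exact_mod_cast nu_le h1 h2 l hl.pos
  cases i <;> cases j <;> unfold vv <;> simp only
  · exact div_nonneg (by linarith) (by positivity)
  · split_ifs <;> positivity
  · split_ifs <;> positivity
  · exact le_rfl

theorem loc_nonneg {h1 h2 l : ℕ} (hl : l.Prime) (a b : ℕ) : 0 ≤ loc h1 h2 l a b := vv_nonneg hl _ _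

theorem big_notdvd {h l : ℕ} (h0 : 0 < h) (hl : h < l) : ¬ l ∣ h := fun h' => by
  have := Nat.le_of_dvd h0 h'
  omega

theorem sq_inv_le (x : ℝ) (hx0 : 0 ≤ x) (hx : x ≤ 1 / 2) : 1 / (1 - x) ^ 2 ≤ 1 + 6 * x := by
  rw [div_le_iff₀ (by have : 0 < 1 - x := by linarith
                      positivity)]
  nlinarith [mul_nonneg hx0 hx0, mul_nonneg (mul_nonneg hx0 hx0) (by linarith : 0 ≤ 1 / 2 - x)]

/-- large primes that do not divide `a b` -/
theorem loc_ff {h1 h2 l : ℕ} (hl : l.Prime) (h0 : 0 < h1) (h : h1 < h2) (hlh : h2 < l) (hr : l ∣ h2 - h1 → l ∣ h1) :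
    vv h1 h2 l false false ≤ 1 ∧ |vv h1 h2 l false false - 1| ≤ 24 / (l : ℝ) ^ 2 := by
  have a : ¬ l ∣ h1 := big_notdvd h0 (by omega)
  have b : ¬ l ∣ h2 := big_notdvd (by omega) hlh
  have hl3 : (3 : ℝ) ≤ l := by exact_mod_cast (by omega : 3 ≤ l)
  obtain ⟨x, hx⟩ : ∃ x : ℝ, x = 1 / (l : ℝ) := ⟨_, rfl⟩
  have hx0 : 0 < x := by rw [hx]; positivity
  have hx3 : x ≤ 1 / 3 := by rw [hx]; exact one_div_le_one_div_of_le (by norm_num) hl3
  have e : vv h1 h2 l false false = (1 - 3 * x) / (1 - x) ^ 3 := by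
    unfold vv
    rw [nu_three a b (fun c => a (hr c)) h.le, hx]
    push_cast
    rw [mul_one_div]
  have hp : (8 : ℝ) / 27 ≤ (1 - x) ^ 3 := by
    have : (2 : ℝ) / 3 ≤ 1 - x := by linarith
    calc (8 : ℝ) / 27 = (2 / 3) ^ 3 := by norm_num
      _ ≤ (1 - x) ^ 3 := pow_le_pow_left₀ (by norm_num) this 3
  have e2 : (1 - 3 * x) / (1 - x) ^ 3 - 1 = -((3 * x ^ 2 - x ^ 3) / (1 - x) ^ 3) := by
    have hne : (1 - x) ^ 3 ≠ 0 := by linarith
    rw [div_sub_one hne, ← neg_div]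
    congr 1
    ring
  have hnn : 0 ≤ 3 * x ^ 2 - x ^ 3 := by nlinarith [mul_nonneg hx0.le hx0.le]
  rw [e]
  constructor
  · have : 0 ≤ (3 * x ^ 2 - x ^ 3) / (1 - x) ^ 3 := div_nonneg hnn (by linarith)
    linarith
  · rw [e2, abs_neg, abs_of_nonneg (div_nonneg hnn (by linarith)), div_le_iff₀ (by linarith)]
    have e3 : 24 / (l : ℝ) ^ 2 = 24 * x ^ 2 := by rw [hx]; ring
    rw [e3]
    nlinarith [mul_nonneg hx0.le hx0.le, mul_nonneg (mul_nonneg hx0.le hx0.le) (by linarith : 0 ≤ (1 - x) ^ 3 - 8 / 27),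
      pow_nonneg hx0.le 3]

theorem loc_le_big {h1 h2 l : ℕ} (hl : l.Prime) (h0 : 0 < h1) (h : h1 < h2) (hlh : h2 < l)
    (hr : l ∣ h2 - h1 → l ∣ h1) (a b : ℕ) :
    loc h1 h2 l a b ≤ (if l ∣ a then 1 + 6 / (l : ℝ) else 1) * (if l ∣ b then 1 + 6 / (l : ℝ) else 1) := by
  have hl2 : (2 : ℝ) ≤ l := by exact_mod_cast hl.two_le
  have h1' : 1 / (1 - 1 / (l : ℝ)) ^ 2 ≤ 1 + 6 / (l : ℝ) := by
    have := sq_inv_le (1 / (l : ℝ)) (by positivity) (one_div_le_one_div_of_le (by norm_num) hl2)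
    rwa [mul_one_div] at this
  have h6 : 0 ≤ 6 / (l : ℝ) := by positivity
  unfold loc
  by_cases ha : l ∣ a <;> by_cases hb : l ∣ b <;> simp only [ha, hb, decide_true, decide_false, if_true, if_false]
  · unfold vv; simp only; nlinarith
  · unfold vv; simp only; split_ifs <;> linarith
  · unfold vv; simp only; split_ifs <;> linarith
  · rw [mul_one]; exact (loc_ff hl h0 h hlh hr).1

/-- the product up to `z` -/
noncomputable def Fz (h1 h2 z a b : ℕ) : ℝ := ∏ l ∈ (Icc 1 z).filter Nat.Prime, loc h1 h2 l a b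

theorem Fz_nonneg (h1 h2 z a b : ℕ) : 0 ≤ Fz h1 h2 z a b :=
  prod_nonneg fun l hl => loc_nonneg (mem_filter.1 hl).2 _ _

/-- the factor of the primes in `S` -/
noncomputable def Tz (S : Finset ℕ) (a : ℕ) : ℝ := ∏ l ∈ S, (if l ∣ a then 1 + 6 / (l : ℝ) else 1)

theorem Tz_ge (S : Finset ℕ) (a : ℕ) : 1 ≤ Tz S a := by
  unfold Tz
  apply prod_induction (fun l : ℕ => (if l ∣ a then 1 + 6 / (l : ℝ) else 1)) (fun x => 1 ≤ x)
  · intro x y hx hy; nlinarith
  · exact le_rfl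
  · intro l _
    have : 0 ≤ 6 / (l : ℝ) := by positivity
    split_ifs <;> linarith

theorem Tz_mono {S T : Finset ℕ} (h : S ⊆ T) (a : ℕ) : Tz S a ≤ Tz T a := by
  have e : Tz T a = Tz (T \ S) a * Tz S a := by
    unfold Tz
    rw [prod_sdiff h]
  rw [e]
  exact le_mul_of_one_le_left (le_trans zero_le_one (Tz_ge _ _)) (Tz_ge _ _)

theorem Fz_mean (h1 h2 z : ℕ) (h : h1 ≤ h2) (hr : ∀ l : ℕ, l.Prime → l ∣ h2 - h1 → l ∣ h1) :
    Mean (Fz h1 h2 z) 1 :=
  Mean_prod (vv h1 h2) _ (fun l hl => (mem_filter.1 hl).2) (fun l hl =>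
    mean_loc (mem_filter.1 hl).2 h (hr l (mem_filter.1 hl).2))

/-- the singular series -/
noncomputable def Sg (h1 h2 a b : ℕ) : ℝ := ∏' l : Nat.Primes, loc h1 h2 l a b

theorem loc_hasProd (h1 h2 a b : ℕ) (h0 : 0 < h1) (h : h1 < h2) (hr : ∀ l : ℕ, l.Prime → l ∣ h2 - h1 → l ∣ h1)
    (ha : 0 < a) (hb : 0 < b) : HasProd (fun l : Nat.Primes => loc h1 h2 l a b) (Sg h1 h2 a b) := by
  have hs : Summable (fun l : Nat.Primes => loc h1 h2 l a b - 1) := by
    have h24 : Summable (fun l : Nat.Primes => 24 / ((l : ℕ) : ℝ) ^ 2) := by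
      have : Summable (fun n : ℕ => 24 / (n : ℝ) ^ 2) := by
        have := (Real.summable_nat_pow_inv (p := 2)).2 (by norm_num)
        exact (this.mul_left 24).congr fun n => by rw [div_eq_mul_inv]
      exact this.comp_injective Subtype.val_injective
    apply Summable.of_norm_bounded_eventually h24
    have hfin : {l : Nat.Primes | (l : ℕ) ≤ h2 + a + b}.Finite := by
      apply Set.Finite.of_finite_image (f := fun l : Nat.Primes => (l : ℕ))
      · exact (Set.finite_Iic (h2 + a + b)).subset (by rintro _ ⟨l, hl, rfl⟩; exact hl)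
      · exact Subtype.val_injective.injOn
    filter_upwards [hfin.compl_mem_cofinite] with l hl
    have hl' : h2 + a + b < (l : ℕ) := by
      by_contra h'
      exact hl (by simpa using h')
    have e : loc h1 h2 l a b = vv h1 h2 l false false := by
      unfold loc
      rw [decide_eq_false (big_notdvd ha (by omega)), decide_eq_false (big_notdvd hb (by omega))]
    rw [e, Real.norm_eq_abs]
    exact (loc_ff l.2 h0 h (by omega) (hr l l.2)).2
  have hm := Real.multipliable_one_add_of_summable hs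
  have : (fun l : Nat.Primes => 1 + (loc h1 h2 l a b - 1)) = fun l : Nat.Primes => loc h1 h2 l a b := by
    funext l; ring
  rw [this] at hm
  exact hm.hasProd

theorem Sg_nonneg (h1 h2 a b : ℕ) (h0 : 0 < h1) (h : h1 < h2) (hr : ∀ l : ℕ, l.Prime → l ∣ h2 - h1 → l ∣ h1)
    (ha : 0 < a) (hb : 0 < b) : 0 ≤ Sg h1 h2 a b :=
  ge_of_tendsto (loc_hasProd h1 h2 a b h0 h hr ha hb)
    (Filter.Eventually.of_forall fun s => prod_nonneg fun l _ => loc_nonneg l.2 _ _)

/-- the primes as natural numbers -/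
def emb : Nat.Primes ↪ ℕ := ⟨fun l => (l : ℕ), Subtype.val_injective⟩

theorem pm (s : Finset Nat.Primes) (f : ℕ → ℝ) : ∏ l ∈ s, f (l : ℕ) = ∏ l ∈ s.map emb, f l :=
  (prod_map s emb f).symm

/-- the singular series and the product up to `z` -/
theorem Sg_le (h1 h2 a b z N : ℕ) (h0 : 0 < h1) (h : h1 < h2) (hr : ∀ l : ℕ, l.Prime → l ∣ h2 - h1 → l ∣ h1)
    (ha : 0 < a) (hb : 0 < b) (hz : h2 ≤ z) (haN : a ≤ N) (hbN : b ≤ N) :
    Sg h1 h2 a b ≤ Fz h1 h2 z a b * (Tz ((Ioc z N).filter Nat.Prime) a * Tz ((Ioc z N).filter Nat.Prime) b) := by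
  obtain ⟨s0, hs0⟩ : ∃ s0 : Finset Nat.Primes, ∀ l, l ∈ s0 ↔ (l : ℕ) ≤ z := by
    have hfin : {l : Nat.Primes | (l : ℕ) ≤ z}.Finite := by
      apply Set.Finite.of_finite_image (f := fun l : Nat.Primes => (l : ℕ))
      · exact (Set.finite_Iic z).subset (by rintro _ ⟨l, hl, rfl⟩; exact hl)
      · exact Subtype.val_injective.injOn
    exact ⟨hfin.toFinset, fun l => by rw [Set.Finite.mem_toFinset]; rfl⟩
  apply le_of_tendsto (loc_hasProd h1 h2 a b h0 h hr ha hb)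
  filter_upwards [Filter.eventually_ge_atTop s0] with s hs
  have hss : s0 ⊆ s := hs
  rw [← prod_sdiff hss, mul_comm]
  have e1 : ∏ l ∈ s0, loc h1 h2 l a b = Fz h1 h2 z a b := by
    unfold Fz
    rw [pm s0 (fun l : ℕ => loc h1 h2 l a b)]
    congr 1
    ext l
    rw [mem_map, mem_filter, mem_Icc]
    constructor
    · rintro ⟨q, hq, rfl⟩
      exact ⟨⟨q.2.one_lt.le, (hs0 q).1 hq⟩, q.2⟩
    · rintro ⟨⟨_, h5⟩, h6⟩
      exact ⟨⟨l, h6⟩, (hs0 _).2 h5, rfl⟩
  rw [e1]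
  apply mul_le_mul_of_nonneg_left _ (Fz_nonneg _ _ _ _ _)
  have h2' : ∏ l ∈ s \ s0, loc h1 h2 l a b ≤ ∏ l ∈ s \ s0, ((if (l : ℕ) ∣ a then 1 + 6 / ((l : ℕ) : ℝ) else 1) *
      (if (l : ℕ) ∣ b then 1 + 6 / ((l : ℕ) : ℝ) else 1)) := by
    apply Finset.prod_le_prod
    · intro l _; exact loc_nonneg l.2 _ _
    · intro l hl
      have hlz : z < (l : ℕ) := by
        rw [mem_sdiff, hs0] at hl
        omega
      exact loc_le_big l.2 h0 h (by omega) (hr l l.2) a b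
  refine h2'.trans ?_
  rw [prod_mul_distrib]
  have key : ∀ c : ℕ, 0 < c → c ≤ N → ∏ l ∈ s \ s0, (if (l : ℕ) ∣ c then 1 + 6 / ((l : ℕ) : ℝ) else 1) ≤
      Tz ((Ioc z N).filter Nat.Prime) c := by
    intro c hc hcN
    rw [pm (s \ s0) (fun l : ℕ => (if l ∣ c then 1 + 6 / (l : ℝ) else 1))]
    rw [← prod_filter_mul_prod_filter_not ((s \ s0).map emb) (fun l => l ≤ N)]
    have e2 : ∏ l ∈ ((s \ s0).map emb).filter (fun l => ¬ l ≤ N),
        (if l ∣ c then 1 + 6 / (l : ℝ) else 1) = 1 := by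
      apply prod_eq_one
      intro l hl
      rw [mem_filter] at hl
      rw [if_neg (big_notdvd hc (by omega))]
    rw [e2, mul_one]
    apply Tz_mono
    intro l hl
    rw [mem_filter, mem_map] at hl
    obtain ⟨⟨q, hq, rfl⟩, hlN⟩ := hl
    rw [mem_sdiff, hs0] at hq
    rw [mem_filter, mem_Ioc]
    refine ⟨⟨?_, hlN⟩, q.2⟩
    show z < (q : ℕ)
    omega
  apply mul_le_mul (key a ha haN) (key b hb hbN)
  · apply prod_nonneg
    intro l _
    have : 0 ≤ 6 / ((l : ℕ) : ℝ) := by positivity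
    split_ifs <;> linarith
  · exact le_trans zero_le_one (Tz_ge _ _)

end Pool.Agent.K4H50.TM
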