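import Pool.Agent.K4H50.TM.A2

/-!
# The average of the singular series
-/

set_option autoImplicit false

namespace Pool.Agent.K4H50.TM

open Finset

theorem S2_eq_S1 (g : ℕ → ℕ → ℝ) (A B : ℕ) : S2 g A B = S1 (fun a => ∑ b ∈ Icc 1 B, g a b / b) A := by
  unfold S2 S1
  apply sum_congr rfl; intro a _
  rw [sum_div]
  apply sum_congr rfl; intro b _
  rw [div_div, mul_comm]

theorem S2_left (f : ℕ → ℕ → ℝ) (hf : ∀ a b, 0 ≤ f a b) (S : Finset ℕ) (hS : ∀ l ∈ S, l.Prime)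
    (hi : ∀ l ∈ S, ∀ a b, f (l * a) b = f a b) (A B : ℕ) :
    S2 (fun a b => f a b * Tz S a) A B ≤ (∏ l ∈ S, (1 + 6 / (l : ℝ) / l)) * S2 f A B := by
  rw [S2_eq_S1, S2_eq_S1]
  have h := S1_prod (fun a => ∑ b ∈ Icc 1 B, f a b / b)
    (fun a => sum_nonneg fun b _ => div_nonneg (hf a b) (Nat.cast_nonneg _)) (fun l => 6 / (l : ℝ))
    (fun l => by positivity) S hS (fun l hl a => by
      apply sum_congr rfl; intro b _
      rw [hi l hl]) A
  refine le_trans (le_of_eq ?_) h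
  unfold S1
  apply sum_congr rfl; intro a _
  congr 1
  show ∑ b ∈ Icc 1 B, f a b * Tz S a / b = (∑ b ∈ Icc 1 B, f a b / b) * _
  unfold Tz
  rw [sum_mul]
  apply sum_congr rfl; intro b _
  rw [mul_div_right_comm]

theorem S2_prod (f : ℕ → ℕ → ℝ) (hf : ∀ a b, 0 ≤ f a b) (S : Finset ℕ) (hS : ∀ l ∈ S, l.Prime)
    (hi : ∀ l ∈ S, ∀ a b, f (l * a) b = f a b) (hi2 : ∀ l ∈ S, ∀ a b, f a (l * b) = f a b) (A B : ℕ) :
    S2 (fun a b => f a b * (Tz S a * Tz S b)) A B ≤ (∏ l ∈ S, (1 + 6 / (l : ℝ) / l)) ^ 2 * S2 f A B := by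
  have h0 : ∀ a, 0 ≤ Tz S a := fun a => le_trans zero_le_one (Tz_ge S a)
  have h1 := S2_left (fun a b => f a b * Tz S b) (fun a b => mul_nonneg (hf a b) (h0 b)) S hS
    (fun l hl a b => by show f (l * a) b * _ = _; rw [hi l hl]) A B
  have h2 := S2_left (fun b a => f a b) (fun b a => hf a b) S hS (fun l hl b a => hi2 l hl a b) B A
  rw [← S2_comm (fun a b => f a b * Tz S b) A B, ← S2_comm f A B] at h2
  have hp : 0 ≤ ∏ l ∈ S, (1 + 6 / (l : ℝ) / l) := prod_nonneg fun l _ => by positivity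
  have e : S2 (fun a b => f a b * (Tz S a * Tz S b)) A B = S2 (fun a b => f a b * Tz S b * Tz S a) A B := by
    unfold S2
    apply sum_congr rfl; intro a _
    apply sum_congr rfl; intro b _
    congr 1; ring
  rw [e]
  refine h1.trans ?_
  calc _ ≤ (∏ l ∈ S, (1 + 6 / (l : ℝ) / l)) * ((∏ l ∈ S, (1 + 6 / (l : ℝ) / l)) * S2 f A B) :=
        mul_le_mul_of_nonneg_left h2 hp
    _ = _ := by ring

theorem prod_exp (K : ℝ) (hK : 0 ≤ K) (z N : ℕ) (hz : 1 ≤ z) :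
    ∏ l ∈ (Ioc z N).filter Nat.Prime, (1 + K / (l : ℝ) / l) ≤ Real.exp (K / z) := by
  have hz0 : (0 : ℝ) < z := by exact_mod_cast hz
  rcases Nat.lt_or_ge N z with h | h
  · rw [Ioc_eq_empty (by omega), filter_empty, prod_empty]
    exact Real.one_le_exp (by positivity)
  have h1 : ∏ l ∈ (Ioc z N).filter Nat.Prime, (1 + K / (l : ℝ) / l) ≤
      ∏ l ∈ (Ioc z N).filter Nat.Prime, Real.exp (K / (l : ℝ) / l) := by
    apply Finset.prod_le_prod
    · intro l _; positivity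
    · intro l _
      have := Real.add_one_le_exp (K / (l : ℝ) / l)
      linarith
  refine h1.trans ?_
  rw [← Real.exp_sum]
  apply Real.exp_le_exp.2
  calc ∑ l ∈ (Ioc z N).filter Nat.Prime, K / (l : ℝ) / l ≤ ∑ l ∈ Ioc z N, K / (l : ℝ) / l := by
        apply sum_le_sum_of_subset_of_nonneg (filter_subset _ _)
        intro l _ _; positivity
    _ = K * ∑ l ∈ Ioc z N, ((l : ℝ) ^ 2)⁻¹ := by
        rw [mul_sum]
        apply sum_congr rfl; intro l _
        rw [div_div, ← sq, div_eq_mul_inv]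
    _ ≤ K * ((z : ℝ)⁻¹ - (N : ℝ)⁻¹) := mul_le_mul_of_nonneg_left (sum_Ioc_inv_sq_le_sub (by omega) h) hK
    _ ≤ K / z := by
        rw [div_eq_mul_inv]
        apply mul_le_mul_of_nonneg_left _ hK
        have : (0 : ℝ) ≤ (N : ℝ)⁻¹ := by positivity
        linarith

theorem Fz_inv (h1 h2 z l : ℕ) (hl : l.Prime) (hlz : z < l) (a b : ℕ) :
    Fz h1 h2 z (l * a) b = Fz h1 h2 z a b ∧ Fz h1 h2 z a (l * b) = Fz h1 h2 z a b := by
  have key : ∀ q ∈ (Icc 1 z).filter Nat.Prime, ∀ c : ℕ, decide (q ∣ l * c) = decide (q ∣ c) := by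
    intro q hq c
    rw [mem_filter, mem_Icc] at hq
    rw [decide_eq_decide, hq.2.dvd_mul]
    constructor
    · rintro (h | h)
      · have := (Nat.prime_dvd_prime_iff_eq hq.2 hl).1 h
        omega
      · exact h
    · exact Or.inr
  constructor
  · unfold Fz loc
    apply prod_congr rfl
    intro q hq
    rw [key q hq]
  · unfold Fz loc
    apply prod_congr rfl
    intro q hq
    rw [key q hq]

theorem Sg_sum (h1 h2 : ℕ) (h0 : 0 < h1) (h : h1 < h2) (hr : ∀ l : ℕ, l.Prime → l ∣ h2 - h1 → l ∣ h1)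
    (η : ℝ) (hη : 0 < η) : ∃ C : ℝ, 0 ≤ C ∧ ∀ A B : ℕ,
    S2 (Sg h1 h2) A B ≤ (1 + η) * (Real.log A * Real.log B) + C * (1 + Real.log A + Real.log B) := by
  obtain ⟨z, hz1, hz2, hzη⟩ : ∃ z : ℕ, 1 ≤ z ∧ h2 ≤ z ∧ Real.exp (6 / (z : ℝ)) ^ 2 ≤ 1 + η := by
    have hc : Filter.Tendsto (fun z : ℕ => Real.exp (6 / (z : ℝ)) ^ 2) Filter.atTop (nhds 1) := by
      have h1 : Filter.Tendsto (fun z : ℕ => 6 / (z : ℝ)) Filter.atTop (nhds 0) :=
        tendsto_const_div_atTop_nhds_zero_nat 6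
      have h2 := ((Real.continuous_exp.tendsto 0).comp h1).pow 2
      rw [Real.exp_zero, one_pow] at h2
      exact h2
    have := (hc.eventually (gt_mem_nhds (show (1 : ℝ) < 1 + η by linarith))).and
      ((Filter.eventually_ge_atTop 1).and (Filter.eventually_ge_atTop h2))
    obtain ⟨z, hz⟩ := this.exists
    exact ⟨z, hz.2.1, hz.2.2, hz.1.le⟩
  obtain ⟨C, hC, hM⟩ := Fz_mean h1 h2 z h.le hr
  refine ⟨(1 + η) * C, by positivity, fun A B => ?_⟩
  obtain ⟨S, hS⟩ : ∃ S, S = (Ioc z (A + B)).filter Nat.Prime := ⟨_, rfl⟩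
  have h3 : S2 (Sg h1 h2) A B ≤ S2 (fun a b => Fz h1 h2 z a b * (Tz S a * Tz S b)) A B := by
    unfold S2
    apply sum_le_sum; intro a ha
    apply sum_le_sum; intro b hb
    rw [mem_Icc] at ha hb
    apply div_le_div_of_nonneg_right _ (by positivity)
    rw [hS]
    exact Sg_le h1 h2 a b z (A + B) h0 h hr (by omega) (by omega) hz2 (by omega) (by omega)
  have h4 := S2_prod (Fz h1 h2 z) (Fz_nonneg h1 h2 z) S (fun l hl => by rw [hS] at hl; exact (mem_filter.1 hl).2)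
    (fun l hl a b => by
      rw [hS, mem_filter, mem_Ioc] at hl
      exact (Fz_inv h1 h2 z l hl.2 hl.1.1 a b).1)
    (fun l hl a b => by
      rw [hS, mem_filter, mem_Ioc] at hl
      exact (Fz_inv h1 h2 z l hl.2 hl.1.1 a b).2) A B
  have h5 : ∏ l ∈ S, (1 + 6 / (l : ℝ) / l) ≤ Real.exp (6 / (z : ℝ)) := by
    rw [hS]; exact prod_exp 6 (by norm_num) z (A + B) hz1
  have h6 : 0 ≤ ∏ l ∈ S, (1 + 6 / (l : ℝ) / l) := prod_nonneg fun l _ => by positivity
  have h7 : (∏ l ∈ S, (1 + 6 / (l : ℝ) / l)) ^ 2 ≤ 1 + η := (pow_le_pow_left₀ h6 h5 2).trans hzη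
  have h8 : 0 ≤ S2 (Fz h1 h2 z) A B := by
    unfold S2
    exact sum_nonneg fun a _ => sum_nonneg fun b _ => div_nonneg (Fz_nonneg _ _ _ _ _) (by positivity)
  have h9 := (abs_le.1 (hM A B)).2
  calc S2 (Sg h1 h2) A B ≤ (∏ l ∈ S, (1 + 6 / (l : ℝ) / l)) ^ 2 * S2 (Fz h1 h2 z) A B := h3.trans h4
    _ ≤ (1 + η) * S2 (Fz h1 h2 z) A B := mul_le_mul_of_nonneg_right h7 h8
    _ ≤ (1 + η) * (1 * (Real.log A * Real.log B) + C * (1 + Real.log A + Real.log B)) :=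
        mul_le_mul_of_nonneg_left (by linarith) (by linarith)
    _ = _ := by ring

/-- the factor of the primes dividing `a` -/
noncomputable def rho (a : ℕ) : ℝ := ∏ l ∈ a.primeFactors, (1 + 6 / (l : ℝ))

theorem rho_ge (a : ℕ) : 1 ≤ rho a := by
  unfold rho
  apply prod_induction (fun l : ℕ => 1 + 6 / (l : ℝ)) (fun x => 1 ≤ x)
  · intro x y hx hy; nlinarith
  · exact le_rfl
  · intro l _
    have : 0 ≤ 6 / (l : ℝ) := by positivity
    linarith

theorem rho_eq (a N : ℕ) (ha : 0 < a) (haN : a ≤ N) (g : ℕ → ℝ) :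
    ∏ l ∈ a.primeFactors, g l = ∏ l ∈ (Icc 1 N).filter Nat.Prime, (if l ∣ a then g l else 1) := by
  rw [← prod_filter]
  congr 1
  ext l
  rw [Nat.mem_primeFactors, mem_filter, mem_filter, mem_Icc]
  constructor
  · rintro ⟨h1, h2, -⟩
    exact ⟨⟨⟨h1.one_lt.le, (Nat.le_of_dvd ha h2).trans haN⟩, h1⟩, h2⟩
  · rintro ⟨⟨_, h1⟩, h2⟩
    exact ⟨h1, h2, by omega⟩

theorem rho_sum : ∃ C : ℝ, 0 < C ∧ ∀ A : ℕ, ∑ a ∈ Icc 1 A, rho a ^ 2 / a ≤ C * (1 + Real.log A) := by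
  refine ⟨49 * Real.exp 48, by positivity, fun A => ?_⟩
  have h := S1_prod (fun _ => 1) (fun _ => zero_le_one) (fun l => 48 / (l : ℝ)) (fun l => by positivity)
    ((Icc 1 A).filter Nat.Prime) (fun l hl => (mem_filter.1 hl).2) (fun l _ a => rfl) A
  have h1 : ∑ a ∈ Icc 1 A, rho a ^ 2 / a ≤
      S1 (fun a => 1 * ∏ l ∈ (Icc 1 A).filter Nat.Prime, (if l ∣ a then 1 + 48 / (l : ℝ) else 1)) A := by
    unfold S1
    apply sum_le_sum
    intro a ha
    rw [mem_Icc] at ha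
    apply div_le_div_of_nonneg_right _ (Nat.cast_nonneg _)
    show rho a ^ 2 ≤ 1 * ∏ l ∈ (Icc 1 A).filter Nat.Prime, (if l ∣ a then 1 + 48 / (l : ℝ) else 1)
    rw [one_mul, ← rho_eq a A (by omega) ha.2 (fun l => 1 + 48 / (l : ℝ))]
    unfold rho
    rw [← prod_pow]
    apply Finset.prod_le_prod
    · intro l _; positivity
    · intro l hl
      have hlp := Nat.prime_of_mem_primeFactors hl
      have h2 : (1 : ℝ) ≤ l := by exact_mod_cast hlp.one_lt.le
      obtain ⟨x, hx⟩ : ∃ x : ℝ, x = 1 / (l : ℝ) := ⟨_, rfl⟩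
      have hx0 : 0 ≤ x := by rw [hx]; positivity
      have hx1 : x ≤ 1 := by rw [hx, div_le_one (by linarith)]; exact h2
      have e1 : 6 / (l : ℝ) = 6 * x := by rw [hx]; ring
      have e2 : 48 / (l : ℝ) = 48 * x := by rw [hx]; ring
      rw [e1, e2]
      nlinarith
  have h2 : ∏ l ∈ (Icc 1 A).filter Nat.Prime, (1 + 48 / (l : ℝ) / l) ≤ 49 * Real.exp 48 := by
    rcases Nat.eq_zero_or_pos A with rfl | hA
    · simp only [Icc_eq_empty (by norm_num : ¬ (1 : ℕ) ≤ 0), filter_empty, prod_empty]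
      have := Real.one_le_exp (show (0 : ℝ) ≤ 48 by norm_num)
      linarith
    · have e : (Icc 1 A).filter Nat.Prime ⊆ insert 1 ((Ioc 1 A).filter Nat.Prime) := by
        intro l hl
        rw [mem_filter, mem_Icc] at hl
        rw [mem_insert, mem_filter, mem_Ioc]
        have := hl.2.one_lt
        right; exact ⟨⟨by omega, by omega⟩, hl.2⟩
      have h3 := prod_exp 48 (by norm_num) 1 A le_rfl
      have h4 : ∏ l ∈ (Icc 1 A).filter Nat.Prime, (1 + 48 / (l : ℝ) / l) =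
          ∏ l ∈ (Ioc 1 A).filter Nat.Prime, (1 + 48 / (l : ℝ) / l) := by
        congr 1
        ext l
        rw [mem_filter, mem_filter, mem_Icc, mem_Ioc]
        constructor
        · rintro ⟨h5, h6⟩
          exact ⟨⟨h6.one_lt, h5.2⟩, h6⟩
        · rintro ⟨h5, h6⟩
          exact ⟨⟨h5.1.le, h5.2⟩, h6⟩
      rw [h4]
      refine h3.trans ?_
      push_cast
      rw [div_one]
      have := Real.exp_pos 48
      linarith
  have h3 : S1 (fun _ => (1 : ℝ)) A ≤ 1 + Real.log A := by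
    have := (abs_le.1 (harm_bound0 A)).2
    unfold S1
    linarith
  have h4 : 0 ≤ S1 (fun _ => (1 : ℝ)) A := by
    unfold S1; exact sum_nonneg fun a _ => by positivity
  calc ∑ a ∈ Icc 1 A, rho a ^ 2 / a ≤ (∏ l ∈ (Icc 1 A).filter Nat.Prime, (1 + 48 / (l : ℝ) / l)) * S1 (fun _ => (1 : ℝ)) A :=
        h1.trans h
    _ ≤ (49 * Real.exp 48) * S1 (fun _ => (1 : ℝ)) A := mul_le_mul_of_nonneg_right h2 h4
    _ ≤ _ := mul_le_mul_of_nonneg_left h3 (by positivity)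

end Pool.Agent.K4H50.TM
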