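import Pool.Agent.K4H50.HL.B5
import Pool.Agent.K4H50.TM.A3
import Pool.Agent.Helper559.Mertens

/-!
# The upper bound sieve for three linear forms
-/

set_option autoImplicit false

namespace Pool.Agent.K4H50.TM

open Finset Filter
open Pool.Agent.K4H50.HL (range_mod crt_fin prod_dvd_int PZ)

theorem aff_card (l m c : ℕ) (hl : l.Prime) (hm : ¬ l ∣ m) (Q : ℕ → Prop) [DecidablePred Q] :
    ((range l).filter (fun t => Q ((m * t + c) % l))).card = ((range l).filter Q).card := by
  have hinj : ∀ t ∈ range l, ∀ s ∈ range l, (m * t + c) % l = (m * s + c) % l → t = s := by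
    intro t ht s hs h
    rw [mem_range] at ht hs
    have h1 : m * t + c ≡ m * s + c [MOD l] := h
    have h2 : m * t ≡ m * s [MOD l] := Nat.ModEq.add_right_cancel' c h1
    have h3 : t ≡ s [MOD l] := Nat.ModEq.cancel_left_of_coprime ((Nat.Prime.coprime_iff_not_dvd hl).2 hm) h2
    rwa [Nat.ModEq, Nat.mod_eq_of_lt ht, Nat.mod_eq_of_lt hs] at h3
  have himg : (range l).image (fun t => (m * t + c) % l) = range l := by
    apply eq_of_subset_of_card_le
    · intro x hx
      rw [mem_image] at hx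
      obtain ⟨t, -, rfl⟩ := hx
      exact mem_range.2 (Nat.mod_lt _ hl.pos)
    · rw [card_image_of_injOn (fun t ht s hs h => hinj t (mem_coe.1 ht) s (mem_coe.1 hs) h)]
  calc _ = (((range l).filter (fun t => Q ((m * t + c) % l))).image (fun t => (m * t + c) % l)).card := by
        rw [card_image_of_injOn]
        intro t ht s hs h
        exact hinj t (mem_filter.1 (mem_coe.1 ht)).1 s (mem_filter.1 (mem_coe.1 hs)).1 h
    _ = (((range l).image (fun t => (m * t + c) % l)).filter Q).card := by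
        rw [filter_image]
    _ = _ := by rw [himg]

/-- the residues `t` modulo `p` for which `p` divides one of the three numbers -/
def Om3 (h1 h2 m c p : ℕ) : Finset ℕ := if p ∣ m then ∅ else
  (range p).filter (fun t => p ∣ (m * t + c) * (m * t + c + h1) * (m * t + c + h2))

theorem Om3_card {h1 h2 m c p : ℕ} (hp : p.Prime) (h0 : 0 < h1) (h : h1 < h2) (hlt : h2 < p) (hpm : ¬ p ∣ m) :
    (Om3 h1 h2 m c p).card = 3 := by
  unfold Om3
  rw [if_neg hpm]
  have e : (range p).filter (fun t => p ∣ (m * t + c) * (m * t + c + h1) * (m * t + c + h2)) =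
      (range p).filter (fun t => (fun n => p ∣ n * (n + h1) * (n + h2)) ((m * t + c) % p)) := by
    apply filter_congr
    intro t _
    have h3 : (m * t + c) * (m * t + c + h1) * (m * t + c + h2) ≡
        ((m * t + c) % p) * ((m * t + c) % p + h1) * ((m * t + c) % p + h2) [MOD p] := by
      have h4 : (m * t + c) ≡ (m * t + c) % p [MOD p] := (Nat.mod_modEq _ _).symm
      exact (h4.mul (h4.add_right h1)).mul (h4.add_right h2)
    exact h3.dvd_iff (dvd_refl p)
  rw [e, aff_card p m c hp hpm (fun n => p ∣ n * (n + h1) * (n + h2))]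
  have e2 : (range p).filter (fun n => p ∣ n * (n + h1) * (n + h2)) = {0, p - h1, p - h2} := by
    ext n
    rw [mem_filter, mem_range, mem_insert, mem_insert, mem_singleton]
    constructor
    · rintro ⟨h3, h4⟩
      rcases (hp.dvd_mul.1 h4) with h5 | h5
      · rcases (hp.dvd_mul.1 h5) with h6 | h6
        · left; exact Nat.eq_zero_of_dvd_of_lt h6 h3
        · right; left
          obtain ⟨k, hk⟩ := h6
          have : k = 1 := by
            rcases k with _ | _ | k
            · omega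
            · rfl
            · exfalso
              have : p * (k + 1 + 1) = p * k + p + p := by ring
              nlinarith [Nat.zero_le (p * k)]
          subst this; omega
      · right; right
        obtain ⟨k, hk⟩ := h5
        have : k = 1 := by
          rcases k with _ | _ | k
          · omega
          · rfl
          · exfalso
            have : p * (k + 1 + 1) = p * k + p + p := by ring
            nlinarith [Nat.zero_le (p * k)]
        subst this; omega
    · rintro (rfl | rfl | rfl)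
      · exact ⟨hp.pos, by simp⟩
      · refine ⟨by omega, ?_⟩
        have : p - h1 + h1 = p := by omega
        rw [this]
        exact (dvd_mul_left p _).mul_right _
      · refine ⟨by omega, ?_⟩
        have : p - h2 + h2 = p := by omega
        rw [this]
        exact dvd_mul_left p _
  rw [e2, card_insert_of_notMem, card_pair (by omega)]
  rw [mem_insert, mem_singleton]
  omega

theorem Om3_lt {h1 h2 m c p x : ℕ} (hx : x ∈ Om3 h1 h2 m c p) : x < p := by
  unfold Om3 at hx
  split_ifs at hx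
  · exact absurd hx (notMem_empty _)
  · exact mem_range.1 (mem_filter.1 hx).1

/-- the sieve with at most three classes -/
theorem sieve3 : ∃ C0 : ℕ, 1 ≤ C0 ∧ ∀ (b0 J z0 : ℕ) (P : Finset ℕ), C0 * 4 ≤ b0 → C0 * 4 ≤ z0 →
    (∀ p ∈ P, p.Prime ∧ z0 < p ∧ p ≤ 2 ^ 2 ^ J) → ∀ (Om : ℕ → Finset ℕ) (M : ℕ),
    (∀ p ∈ P, (Om p).card ≤ 3 ∧ ∀ x ∈ Om p, x < p) →
    ((((range M).filter (fun t => ∀ p ∈ P, t % p ∉ Om p)).card : ℕ) : ℝ) ≤
      2 * ((M : ℝ) * ∏ p ∈ P, (1 - ((Om p).card : ℝ) * (1 / (p : ℝ)))) +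
      ((J : ℝ) + 2) * ((((2 ^ 2 ^ J) ^ (C0 * b0) : ℕ) : ℝ)) ^ 3 := by
  obtain ⟨C0, hC0, H⟩ := Pool.Agent.TH423.SH.fll
  refine ⟨C0, hC0, ?_⟩
  intro b0 J z0 P hb hz hP Om M hOm
  have hp3 : ∀ p ∈ P, (3 : ℝ) ≤ p := by
    intro p hp
    have := (hP p hp).2.1
    have : 4 < p := by omega
    exact_mod_cast (by omega : 3 ≤ p)
  have hprod0 : 0 ≤ ∏ p ∈ P, (1 - ((Om p).card : ℝ) * (1 / (p : ℝ))) := by
    apply prod_nonneg
    intro p hp
    have h3 : ((Om p).card : ℝ) ≤ 3 := by exact_mod_cast (hOm p hp).1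
    have h4 := hp3 p hp
    have h5 : ((Om p).card : ℝ) * (1 / (p : ℝ)) ≤ 1 := by
      rw [mul_one_div, div_le_one (by linarith)]
      linarith
    linarith
  have hmain := H 3 b0 J z0 P (fun p => 1 / (p : ℝ)) (fun p => Om p) hb hz hP
    (fun p hp => (hOm p hp).1)
    (fun p hp => by
      have h2 : (1 : ℝ) < p := by exact_mod_cast (hP p hp).1.one_lt
      refine ⟨by positivity, ?_⟩
      apply one_div_le_one_div_of_le (by linarith) (by linarith))
    (range M) (fun _ => 1) (M : ℝ) (fun _ => 1)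
    (fun n _ => zero_le_one) (by positivity) (fun _ => zero_le_one) (by
      intro T hTP _ c hc
      have hTp : ∀ p ∈ T, p.Prime := fun p hp => (hP p (hTP hp)).1
      obtain ⟨e, he⟩ : ∃ e, e = ∏ p ∈ T, p := ⟨_, rfl⟩
      have he0 : 0 < e := by rw [he]; exact prod_pos fun p hp => (hTp p hp).pos
      obtain ⟨ρ, hρ⟩ := crt_fin T hTp c
      have hg1 : ∏ p ∈ T, (1 / (p : ℝ)) = 1 / (e : ℝ) := by
        rw [he]
        push_cast
        rw [prod_div_distrib, prod_const_one]
      rw [hg1, sum_const, nsmul_eq_mul, mul_one, mul_one_div]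
      have hfe : (range M).filter (fun n => ∀ p ∈ T, n % p = c p) = (range M).filter (fun t => t ≡ ρ [MOD e]) := by
        apply filter_congr
        intro t _
        have hlt : ∀ p ∈ T, c p < p := fun p hp => (hOm p (hTP hp)).2 _ (hc p hp)
        rw [← Int.natCast_modEq_iff, Int.modEq_iff_dvd, he, prod_dvd_int T hTp]
        constructor
        · intro h p hp
          rw [← Int.modEq_iff_dvd, Int.natCast_modEq_iff]
          have h5 : t ≡ c p [MOD p] := by
            unfold Nat.ModEq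
            rw [h p hp, Nat.mod_eq_of_lt (hlt p hp)]
          exact h5.trans (hρ p hp).symm
        · intro h p hp
          have h6 := h p hp
          rw [← Int.modEq_iff_dvd, Int.natCast_modEq_iff] at h6
          have h7 := h6.trans (hρ p hp)
          unfold Nat.ModEq at h7
          rwa [Nat.mod_eq_of_lt (hlt p hp)] at h7
      rw [hfe]
      exact range_mod M e ρ he0)
  have h2 := (abs_le.1 hmain).2
  obtain ⟨Z, hZ⟩ : ∃ Z : ℕ, Z = (2 ^ 2 ^ J) ^ (C0 * b0) := ⟨_, rfl⟩
  have herrs : ∑ T ∈ P.powerset.filter (fun T : Finset ℕ => ∏ p ∈ T, p ≤ (2 ^ 2 ^ J) ^ (C0 * b0)),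
            ((3 : ℕ) : ℝ) ^ T.card * 1 ≤ (Z : ℝ) ^ 3 := by
    have hterm : ∀ T ∈ P.powerset.filter (fun T : Finset ℕ => ∏ p ∈ T, p ≤ (2 ^ 2 ^ J) ^ (C0 * b0)),
        ((3 : ℕ) : ℝ) ^ T.card * 1 ≤ (Z : ℝ) ^ 2 := by
      intro T hT
      rw [mem_filter, mem_powerset, ← hZ] at hT
      have h3 : 3 ^ T.card ≤ ∏ p ∈ T, p := by
        rw [← prod_const]
        apply prod_le_prod'
        intro p hp
        have := (hP p (hT.1 hp)).2.1
        omega
      have h4 : 3 ^ T.card ≤ Z := h3.trans hT.2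
      have h5 : (3 : ℝ) ^ T.card ≤ Z := by exact_mod_cast h4
      have h6 : (1 : ℝ) ≤ Z := le_trans (one_le_pow₀ (by norm_num)) h5
      rw [mul_one]
      push_cast
      nlinarith
    have hcardT : (P.powerset.filter (fun T : Finset ℕ => ∏ p ∈ T, p ≤ (2 ^ 2 ^ J) ^ (C0 * b0))).card ≤ Z := by
      calc _ ≤ (Icc 1 Z).card := by
            apply card_le_card_of_injOn (fun T => ∏ p ∈ T, p)
            · intro T hT
              rw [mem_coe, mem_filter, mem_powerset, ← hZ] at hT
              rw [mem_coe, mem_Icc]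
              exact ⟨prod_pos fun p hp => (hP p (hT.1 hp)).1.pos, hT.2⟩
            · intro T hT T' hT' h
              rw [mem_coe, mem_filter, mem_powerset] at hT hT'
              have e1 : ∀ U : Finset ℕ, U ⊆ P → (∏ p ∈ U, p).primeFactors = U := by
                intro U hU
                exact Nat.primeFactors_prod fun p hp => (hP p (hU hp)).1
              have h' : ∏ p ∈ T, p = ∏ p ∈ T', p := h
              rw [← e1 T hT.1, ← e1 T' hT'.1, h']
        _ = Z := by simp
    refine (sum_le_sum hterm).trans ?_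
    rw [sum_const, nsmul_eq_mul, show (Z : ℝ) ^ 3 = Z * Z ^ 2 by ring]
    exact mul_le_mul_of_nonneg_right (by exact_mod_cast hcardT) (by positivity)
  rw [← hZ]
  have h6 := mul_le_mul_of_nonneg_left herrs (show (0 : ℝ) ≤ (J : ℝ) + 2 by positivity)
  rw [sum_const, nsmul_eq_mul, mul_one] at h2
  push_cast at h2 h6 ⊢
  have h7 : (1 / 2 : ℝ) ^ b0 ≤ 1 := pow_le_one₀ (by norm_num) (by norm_num)
  have h8 : (1 / 2 : ℝ) ^ b0 * ((M : ℝ) * ∏ p ∈ P, (1 - ((Om p).card : ℝ) * (1 / (p : ℝ)))) ≤
      1 * ((M : ℝ) * ∏ p ∈ P, (1 - ((Om p).card : ℝ) * (1 / (p : ℝ)))) :=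
    mul_le_mul_of_nonneg_right h7 (mul_nonneg (Nat.cast_nonneg _) hprod0)
  linarith

theorem V3_le : ∃ C : ℝ, 0 < C ∧ ∀ z0 J : ℕ, 1 ≤ J → 3 ≤ z0 →
    ∏ p ∈ PZ z0 J, (1 - 3 / (p : ℝ)) ≤ (Real.exp (C + z0) / 2 ^ J) ^ 3 := by
  obtain ⟨C, hC0, hC⟩ := Pool.Agent.Helper559.mertens
  refine ⟨C + 1, by positivity, ?_⟩
  intro z0 J hJ hz0
  obtain ⟨w, hw⟩ : ∃ w : ℕ, w = 2 ^ 2 ^ J := ⟨_, rfl⟩
  have hw4 : 4 ≤ w := by
    rw [hw]
    calc 4 = 2 ^ 2 ^ 1 := by norm_num
      _ ≤ 2 ^ 2 ^ J := Nat.pow_le_pow_right (by norm_num) (Nat.pow_le_pow_right (by norm_num) hJ)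
  have h1 := (abs_le.1 (hC w (by omega))).1
  have hlog : Real.log (w : ℝ) = 2 ^ J * Real.log 2 := by
    rw [hw]; push_cast; rw [Real.log_pow]; push_cast; ring
  have hl2 : 0 < Real.log 2 := Real.log_pos (by norm_num)
  have hl2' : Real.exp (-1) ≤ Real.log 2 := by
    have h2 := Real.exp_neg_one_lt_half
    have h3 := Real.log_two_gt_d9
    linarith
  have hexp : ∏ p ∈ PZ z0 J, (1 - 3 / (p : ℝ)) ≤ (Real.exp (-∑ p ∈ PZ z0 J, 1 / (p : ℝ))) ^ 3 := by
    rw [← sum_neg_distrib, Real.exp_sum, ← prod_pow]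
    apply Finset.prod_le_prod
    · intro p hp
      unfold PZ at hp
      have hpp := (mem_filter.1 hp).2.2
      have h4 : (3 : ℝ) ≤ p := by exact_mod_cast (by omega : 3 ≤ p)
      have : 3 / (p : ℝ) ≤ 1 := by rw [div_le_one (by linarith)]; linarith
      linarith
    · intro p _
      rw [← Real.exp_nat_mul]
      have := Real.add_one_le_exp (((3 : ℕ) : ℝ) * -(1 / (p : ℝ)))
      refine le_trans (le_of_eq ?_) this
      push_cast; ring
  have hsum : Pool.Agent.Helper559.S w ≤ ∑ p ∈ PZ z0 J, 1 / (p : ℝ) + z0 := by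
    unfold Pool.Agent.Helper559.S
    rw [← sum_filter_add_sum_filter_not ((Icc 1 w).filter Nat.Prime) (fun p => z0 < p)]
    apply add_le_add
    · apply le_of_eq
      rw [filter_filter]
      unfold PZ
      rw [hw]
    · calc ∑ p ∈ ((Icc 1 w).filter Nat.Prime).filter (fun p => ¬ z0 < p), 1 / (p : ℝ) ≤
          ∑ p ∈ ((Icc 1 w).filter Nat.Prime).filter (fun p => ¬ z0 < p), (1 : ℝ) := by
            apply sum_le_sum
            intro p hp
            have hpp := (mem_filter.1 (mem_filter.1 hp).1).2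
            have h4 : (1 : ℝ) ≤ p := by exact_mod_cast hpp.one_lt.le
            rw [div_le_one (by linarith)]; exact h4
        _ = ((((Icc 1 w).filter Nat.Prime).filter (fun p => ¬ z0 < p)).card : ℝ) := by
            rw [sum_const, nsmul_eq_mul, mul_one]
        _ ≤ ((Icc 1 z0).card : ℝ) := by
            have hsub : ((Icc 1 w).filter Nat.Prime).filter (fun p => ¬ z0 < p) ⊆ Icc 1 z0 := by
              intro p hp
              rw [mem_filter, mem_filter, mem_Icc] at hp
              rw [mem_Icc]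
              exact ⟨hp.1.1.1, by omega⟩
            exact_mod_cast card_le_card hsub
        _ = z0 := by simp
  refine hexp.trans ?_
  apply pow_le_pow_left₀ (Real.exp_pos _).le
  have h9 : Real.log (Real.log w) = J * Real.log 2 + Real.log (Real.log 2) := by
    rw [hlog, Real.log_mul (by positivity) hl2.ne', Real.log_pow]
  have h10 : -1 ≤ Real.log (Real.log 2) := by
    rw [Real.le_log_iff_exp_le hl2]; exact hl2'
  have h11 : -∑ p ∈ PZ z0 J, 1 / (p : ℝ) ≤ (C + 1 + z0) - J * Real.log 2 := by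
    linarith
  calc Real.exp (-∑ p ∈ PZ z0 J, 1 / (p : ℝ)) ≤ Real.exp ((C + 1 + z0) - J * Real.log 2) := Real.exp_le_exp.2 h11
    _ = Real.exp (C + 1 + z0) / 2 ^ J := by
        rw [Real.exp_sub, ← Real.log_pow, Real.exp_log (by positivity)]

end Pool.Agent.K4H50.TM
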