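import Pool.Agent.K4H50.TM.B1

/-!
# The upper bound for the number of prime triples with multipliers
-/

set_option autoImplicit false

namespace Pool.Agent.K4H50.TM

open Finset Filter
open Pool.Agent.K4H50.HL (PZ)

/-- the primes `p ≤ X` with `(p + h₁) / a` and `(p + h₂) / b` prime -/
def Np (h1 h2 X a b : ℕ) : Finset ℕ := (Icc 1 X).filter (fun p => p.Prime ∧ a ∣ p + h1 ∧ b ∣ p + h2 ∧
  ((p + h1) / a).Prime ∧ ((p + h2) / b).Prime)

theorem mem_Np {h1 h2 X a b p : ℕ} : p ∈ Np h1 h2 X a b ↔ (1 ≤ p ∧ p ≤ X) ∧ p.Prime ∧ a ∣ p + h1 ∧ b ∣ p + h2 ∧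
    ((p + h1) / a).Prime ∧ ((p + h2) / b).Prime := by
  unfold Np
  rw [mem_filter, mem_Icc]

theorem Np_small (h1 h2 X a b z : ℕ) (f : ℕ → ℕ) (hf : ∀ p ∈ Np h1 h2 X a b, ∀ q ∈ Np h1 h2 X a b, f p = f q → p = q) :
    ((Np h1 h2 X a b).filter (fun p => f p ≤ z)).card ≤ z + 1 := by
  calc _ ≤ (range (z + 1)).card := by
        apply card_le_card_of_injOn f
        · intro p hp
          rw [mem_coe, mem_filter] at hp
          rw [mem_coe, mem_range]
          omega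
        · intro p hp q hq h
          exact hf p (mem_filter.1 (mem_coe.1 hp)).1 q (mem_filter.1 (mem_coe.1 hq)).1 h
    _ = z + 1 := card_range _

theorem Np_sieve (h1 h2 X a b p0 z : ℕ) (P : Finset ℕ) (ha : 0 < a) (hb : 0 < b) (hab : a.Coprime b)
    (hp0 : p0 ∈ Np h1 h2 X a b) (hP : ∀ p ∈ P, p.Prime ∧ p ≤ z) :
    (Np h1 h2 X a b).card ≤ 3 * (z + 1) +
      ((range (X / (a * b) + 1)).filter (fun t => ∀ p ∈ P, t % p ∉ Om3 h1 h2 (a * b) (p0 % (a * b)) p)).card := by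
  have hm : 0 < a * b := Nat.mul_pos ha hb
  have hq : ∀ p ∈ Np h1 h2 X a b, ∀ q ∈ Np h1 h2 X a b, (p + h1) / a = (q + h1) / a → p = q := by
    intro p hp q hq h
    rw [mem_Np] at hp hq
    have e1 := Nat.div_mul_cancel hp.2.2.1
    have e2 := Nat.div_mul_cancel hq.2.2.1
    rw [h] at e1
    omega
  have hr : ∀ p ∈ Np h1 h2 X a b, ∀ q ∈ Np h1 h2 X a b, (p + h2) / b = (q + h2) / b → p = q := by
    intro p hp q hq h
    rw [mem_Np] at hp hq
    have e1 := Nat.div_mul_cancel hp.2.2.2.1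
    have e2 := Nat.div_mul_cancel hq.2.2.2.1
    rw [h] at e1
    omega
  have c1 := Np_small h1 h2 X a b z (fun p => p) (fun p _ q _ h => h)
  have c2 := Np_small h1 h2 X a b z (fun p => (p + h1) / a) hq
  have c3 := Np_small h1 h2 X a b z (fun p => (p + h2) / b) hr
  have c4 : ((Np h1 h2 X a b).filter (fun p => ¬ p ≤ z ∧ ¬ (p + h1) / a ≤ z ∧ ¬ (p + h2) / b ≤ z)).card ≤
      ((range (X / (a * b) + 1)).filter (fun t => ∀ p ∈ P, t % p ∉ Om3 h1 h2 (a * b) (p0 % (a * b)) p)).card := by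
    have hmod : ∀ p ∈ Np h1 h2 X a b, p % (a * b) = p0 % (a * b) := by
      intro p hp
      rw [mem_Np] at hp hp0
      have m1 : p ≡ p0 [MOD a] := by
        have : p + h1 ≡ p0 + h1 [MOD a] :=
          ((Nat.modEq_zero_iff_dvd.2 hp.2.2.1).trans (Nat.modEq_zero_iff_dvd.2 hp0.2.2.1).symm)
        exact Nat.ModEq.add_right_cancel' h1 this
      have m2 : p ≡ p0 [MOD b] := by
        have : p + h2 ≡ p0 + h2 [MOD b] :=
          ((Nat.modEq_zero_iff_dvd.2 hp.2.2.2.1).trans (Nat.modEq_zero_iff_dvd.2 hp0.2.2.2.1).symm)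
        exact Nat.ModEq.add_right_cancel' h2 this
      exact (Nat.modEq_and_modEq_iff_modEq_mul hab).1 ⟨m1, m2⟩
    apply card_le_card_of_injOn (fun p => p / (a * b))
    · intro p hp
      rw [mem_coe, mem_filter] at hp
      obtain ⟨hpN, hz1, hz2, hz3⟩ := hp
      have hpm := hmod p hpN
      have hpN' := mem_Np.1 hpN
      rw [mem_coe, mem_filter, mem_range]
      refine ⟨Nat.lt_succ_of_le (Nat.div_le_div_right (c := a * b) hpN'.1.2), ?_⟩
      intro l hl hmem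
      obtain ⟨hlp, hlz⟩ := hP l hl
      unfold Om3 at hmem
      split_ifs at hmem with hlm
      · exact absurd hmem (notMem_empty _)
      · rw [mem_filter] at hmem
        obtain ⟨c, hc⟩ : ∃ c, c = p0 % (a * b) := ⟨_, rfl⟩
        rw [← hc] at hmem hpm
        have hpe : a * b * (p / (a * b)) + c = p := by
          have := Nat.div_add_mod p (a * b)
          rw [hpm] at this
          exact this
        have e1 : a * b * (p / (a * b) % l) + c ≡ p [MOD l] := by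
          have := ((Nat.mod_modEq (p / (a * b)) l).mul_left (a * b)).add_right c
          rwa [hpe] at this
        have e2 : l ∣ p * (p + h1) * (p + h2) := by
          have := (e1.mul (e1.add_right h1)).mul (e1.add_right h2)
          exact (this.dvd_iff (dvd_refl l)).1 hmem.2
        have hla : ¬ l ∣ a := fun h => hlm (h.mul_right b)
        have hlb : ¬ l ∣ b := fun h => hlm (h.mul_left a)
        rcases hlp.dvd_mul.1 e2 with h3 | h3
        · rcases hlp.dvd_mul.1 h3 with h4 | h4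
          · have := (Nat.prime_dvd_prime_iff_eq hlp hpN'.2.1).1 h4
            omega
          · rw [← Nat.mul_div_cancel' hpN'.2.2.1] at h4
            have h5 := (hlp.dvd_mul.1 h4).resolve_left hla
            have := (Nat.prime_dvd_prime_iff_eq hlp hpN'.2.2.2.2.1).1 h5
            omega
        · rw [← Nat.mul_div_cancel' hpN'.2.2.2.1] at h3
          have h5 := (hlp.dvd_mul.1 h3).resolve_left hlb
          have := (Nat.prime_dvd_prime_iff_eq hlp hpN'.2.2.2.2.2).1 h5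
          omega
    · intro p hp q hq h
      have e1 := hmod p (mem_filter.1 (mem_coe.1 hp)).1
      have e2 := hmod q (mem_filter.1 (mem_coe.1 hq)).1
      have e3 := Nat.div_add_mod p (a * b)
      have e4 := Nat.div_add_mod q (a * b)
      have h' : p / (a * b) = q / (a * b) := h
      rw [e1] at e3
      rw [e2, ← h'] at e4
      omega
  have hsub : Np h1 h2 X a b ⊆ (((Np h1 h2 X a b).filter (fun p => p ≤ z)) ∪
      ((Np h1 h2 X a b).filter (fun p => (p + h1) / a ≤ z))) ∪ (((Np h1 h2 X a b).filter (fun p => (p + h2) / b ≤ z)) ∪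
      ((Np h1 h2 X a b).filter (fun p => ¬ p ≤ z ∧ ¬ (p + h1) / a ≤ z ∧ ¬ (p + h2) / b ≤ z))) := by
    intro p hp
    simp only [mem_union, mem_filter]
    tauto
  have hc := card_le_card hsub
  have u1 := card_union_le (((Np h1 h2 X a b).filter (fun p => p ≤ z)) ∪
      ((Np h1 h2 X a b).filter (fun p => (p + h1) / a ≤ z))) (((Np h1 h2 X a b).filter (fun p => (p + h2) / b ≤ z)) ∪
      ((Np h1 h2 X a b).filter (fun p => ¬ p ≤ z ∧ ¬ (p + h1) / a ≤ z ∧ ¬ (p + h2) / b ≤ z)))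
  have u2 := card_union_le ((Np h1 h2 X a b).filter (fun p => p ≤ z)) ((Np h1 h2 X a b).filter (fun p => (p + h1) / a ≤ z))
  have u3 := card_union_le ((Np h1 h2 X a b).filter (fun p => (p + h2) / b ≤ z))
    ((Np h1 h2 X a b).filter (fun p => ¬ p ≤ z ∧ ¬ (p + h1) / a ≤ z ∧ ¬ (p + h2) / b ≤ z))
  omega

theorem Np_noncop (h1 h2 X a b : ℕ) (h0 : 0 < h1) (h : h1 < h2) (hr : ∀ l : ℕ, l.Prime → l ∣ h2 - h1 → l ∣ h1)
    (hab : ¬ a.Coprime b) : (Np h1 h2 X a b).card ≤ 1 := by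
  obtain ⟨l, hl, hla, hlb⟩ := Nat.Prime.not_coprime_iff_dvd.1 hab
  rw [card_le_one_iff]
  have key : ∀ p ∈ Np h1 h2 X a b, p = l := by
    intro p hp
    rw [mem_Np] at hp
    have d1 : l ∣ p + h1 := hla.trans hp.2.2.1
    have d2 : l ∣ p + h2 := hlb.trans hp.2.2.2.1
    have d3 : l ∣ h2 - h1 := by
      have e : h2 - h1 = (p + h2) - (p + h1) := by omega
      rw [e]
      exact Nat.dvd_sub d2 d1
    have d4 := hr l hl d3
    have d5 : l ∣ p := (Nat.dvd_add_left d4).1 d1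
    exact ((Nat.prime_dvd_prime_iff_eq hl hp.2.1).1 d5).symm
  intro p q hp hq
  rw [key p hp, key q hq]

theorem rho_mul {a b : ℕ} (hab : a.Coprime b) : rho (a * b) = rho a * rho b := by
  unfold rho
  rw [Nat.Coprime.primeFactors_mul hab, prod_union (Nat.Coprime.disjoint_primeFactors hab)]

theorem prod_Om3 (h1 h2 m c z0 J : ℕ) (h0 : 0 < h1) (h : h1 < h2) (hm : 0 < m) (hz : h2 ≤ z0) (hz0 : 6 ≤ z0) :
    ∏ p ∈ PZ z0 J, (1 - ((Om3 h1 h2 m c p).card : ℝ) * (1 / (p : ℝ))) ≤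
      (∏ p ∈ PZ z0 J, (1 - 3 / (p : ℝ))) * rho m := by
  have h1' : ∏ p ∈ (PZ z0 J).filter (fun p => p ∣ m), (1 + 6 / (p : ℝ)) ≤ rho m := by
    unfold rho
    have hsub : (PZ z0 J).filter (fun p => p ∣ m) ⊆ m.primeFactors := by
      intro p hp
      unfold PZ at hp
      rw [mem_filter, mem_filter] at hp
      rw [Nat.mem_primeFactors]
      exact ⟨hp.1.2.1, hp.2, hm.ne'⟩
    rw [← prod_sdiff hsub]
    have hge : ∀ T : Finset ℕ, 1 ≤ ∏ p ∈ T, (1 + 6 / (p : ℝ)) := by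
      intro T
      apply prod_induction (fun p : ℕ => 1 + 6 / (p : ℝ)) (fun x => 1 ≤ x)
      · intro x y hx hy
        nlinarith
      · exact le_rfl
      · intro p _
        have : 0 ≤ 6 / (p : ℝ) := by positivity
        linarith
    exact le_mul_of_one_le_left (by linarith [hge ((PZ z0 J).filter (fun p => p ∣ m))]) (hge _)
  have hp6 : ∀ p ∈ PZ z0 J, (7 : ℝ) ≤ p := by
    intro p hp
    unfold PZ at hp
    have := (mem_filter.1 hp).2.2
    exact_mod_cast (by omega : 7 ≤ p)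
  have hpos : ∀ p ∈ PZ z0 J, 0 ≤ 1 - 3 / (p : ℝ) := by
    intro p hp
    have := hp6 p hp
    have : 3 / (p : ℝ) ≤ 1 := by rw [div_le_one (by linarith)]; linarith
    linarith
  refine le_trans ?_ (mul_le_mul_of_nonneg_left h1' (prod_nonneg hpos))
  rw [prod_filter, ← prod_mul_distrib]
  apply Finset.prod_le_prod
  · intro p hp
    have hp7 := hp6 p hp
    unfold PZ at hp
    have hpp := (mem_filter.1 hp).2.1
    have h3 : ((Om3 h1 h2 m c p).card : ℝ) ≤ 3 := by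
      by_cases hpm : p ∣ m
      · unfold Om3; rw [if_pos hpm]; norm_num
      · rw [Om3_card hpp h0 h (by have := (mem_filter.1 hp).2.2; omega) hpm]; norm_num
    have : ((Om3 h1 h2 m c p).card : ℝ) * (1 / p) ≤ 1 := by
      rw [mul_one_div, div_le_one (by linarith)]; linarith
    linarith
  · intro p hp
    have hp7 := hp6 p hp
    unfold PZ at hp
    have hpp := (mem_filter.1 hp).2.1
    by_cases hpm : p ∣ m
    · rw [if_pos hpm]
      have h5 : Om3 h1 h2 m c p = ∅ := by unfold Om3; rw [if_pos hpm]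
      rw [h5, card_empty, Nat.cast_zero, zero_mul, sub_zero]
      have h8 : (1 - 3 / (p : ℝ)) * (1 + 6 / p) = 1 + 3 * ((p : ℝ) - 6) / p ^ 2 := by
        field_simp
        ring
      rw [h8]
      have : 0 ≤ 3 * ((p : ℝ) - 6) / p ^ 2 := by
        apply div_nonneg _ (by positivity)
        linarith
      linarith
    · rw [if_neg hpm, mul_one, Om3_card hpp h0 h (by have := (mem_filter.1 hp).2.2; omega) hpm, mul_one_div]
      norm_num

theorem log_small4 (s : ℝ) (hs : 0 < s) (M : ℝ) : ∀ᶠ X : ℕ in atTop, M ≤ Real.log X ∧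
    10 * Real.log X ^ 4 ≤ (X : ℝ) ^ s := by
  have h1 : ∀ᶠ X : ℕ in atTop, M ≤ Real.log X :=
    (Real.tendsto_log_atTop.comp tendsto_natCast_atTop_atTop).eventually_ge_atTop M
  have h2 := (isLittleO_log_rpow_rpow_atTop (s := s) (4 : ℝ) hs).bound
    (show (0 : ℝ) < 1 / 10 by norm_num)
  have h3 := tendsto_natCast_atTop_atTop.eventually (h2.and (eventually_ge_atTop (1 : ℝ)))
  filter_upwards [h1, h3] with X hX hX3
  refine ⟨hX, ?_⟩
  obtain ⟨h4, h5⟩ := hX3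
  have h6 : 0 ≤ Real.log (X : ℝ) := Real.log_nonneg h5
  rw [Real.norm_of_nonneg (by positivity), Real.norm_of_nonneg (by positivity)] at h4
  have h7 : Real.log (X : ℝ) ^ (4 : ℝ) = Real.log X ^ 4 := by
    rw [← Real.rpow_natCast]; norm_num
  rw [h7] at h4
  linarith

theorem Np_upper (h1 h2 : ℕ) (h0 : 0 < h1) (h : h1 < h2) (hr : ∀ l : ℕ, l.Prime → l ∣ h2 - h1 → l ∣ h1) :
    ∀ δ : ℝ, 0 < δ → δ ≤ 1 → ∃ C : ℝ, 0 < C ∧ ∀ᶠ X : ℕ in atTop, ∀ a b : ℕ, 1 ≤ a → 1 ≤ b →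
    ((a * b : ℕ) : ℝ) ≤ (X : ℝ) ^ (1 - δ) →
    ((Np h1 h2 X a b).card : ℝ) ≤ C * (rho a * rho b) * (X / ((a * b : ℕ) * Real.log X ^ 3)) := by
  intro δ hδ hδ1
  obtain ⟨C0, hC0, hsieve⟩ := sieve3
  obtain ⟨C1, hC1, hV⟩ := V3_le
  obtain ⟨b0, hb0⟩ : ∃ b0, b0 = C0 * 4 + h2 + 6 := ⟨_, rfl⟩
  have hb1 : 1 ≤ b0 := by omega
  have hC0r : (1 : ℝ) ≤ C0 := by exact_mod_cast hC0
  have hbr : (1 : ℝ) ≤ b0 := by exact_mod_cast hb1
  obtain ⟨D, hD⟩ : ∃ D : ℝ, D = 8 * (C0 * b0) / δ := ⟨_, rfl⟩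
  have hCb : (1 : ℝ) ≤ (C0 : ℝ) * b0 := by nlinarith
  have hD1 : 8 ≤ D := by
    rw [hD, le_div_iff₀ hδ]
    nlinarith
  refine ⟨4 * (4 * D * Real.exp (C1 + b0)) ^ 3 + 1, by positivity, ?_⟩
  filter_upwards [log_small4 (δ / 8) (by positivity) (4 * D), eventually_ge_atTop 3] with X hX hX3
  obtain ⟨hL, hXL⟩ := hX
  have hXr : (3 : ℝ) ≤ X := by exact_mod_cast hX3
  have hX0 : (0 : ℝ) < X := by linarith
  obtain ⟨L, hLdef⟩ : ∃ L : ℝ, L = Real.log X := ⟨_, rfl⟩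
  obtain ⟨t, ht⟩ : ∃ t : ℝ, t = (X : ℝ) ^ (δ / 8) := ⟨_, rfl⟩
  rw [← hLdef] at hL hXL ⊢
  rw [← ht] at hXL
  have hL7 : 32 ≤ L := by linarith
  have hL0 : 0 < L := by linarith
  have ht1 : 1 ≤ t := by rw [ht]; exact Real.one_le_rpow (by linarith) (by positivity)
  -- the parameter `J`
  obtain ⟨m, hm⟩ : ∃ m : ℕ, m = ⌊L / D⌋₊ := ⟨_, rfl⟩
  have hmle : (m : ℝ) ≤ L / D := by rw [hm]; exact Nat.floor_le (by positivity)
  have hmge : L / D - 1 < m := by
    have := Nat.lt_floor_add_one (L / D)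
    rw [← hm] at this
    linarith
  have hLD : 4 ≤ L / D := by rw [le_div_iff₀ (by linarith)]; linarith
  have hm2 : 2 ≤ m := by
    have : (2 : ℝ) < m := by linarith
    exact_mod_cast this.le
  obtain ⟨J, hJ⟩ : ∃ J : ℕ, J = Nat.log 2 m := ⟨_, rfl⟩
  have hJ1 : 1 ≤ J := by
    rw [hJ]
    exact (Nat.le_log_iff_pow_le (by norm_num) (by omega)).2 (by omega)
  have hJm : 2 ^ J ≤ m := by rw [hJ]; exact Nat.pow_log_le_self 2 (by omega)
  have hJm2 : m < 2 ^ (J + 1) := by rw [hJ]; exact Nat.lt_pow_succ_log_self (by norm_num) m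
  have hJmr : (2 : ℝ) ^ J ≤ m := by exact_mod_cast hJm
  have h2J : L / (4 * D) ≤ (2 : ℝ) ^ J := by
    have h1 : (m : ℝ) < 2 ^ (J + 1) := by exact_mod_cast hJm2
    have h2 : L / (4 * D) = (L / D) / 4 := by field_simp
    rw [h2]
    rw [pow_succ] at h1
    linarith
  have hJL : (J : ℝ) + 2 ≤ L := by
    have h1 : J < 2 ^ J := Nat.lt_two_pow_self
    have h2 : (J : ℝ) < 2 ^ J := by exact_mod_cast h1
    have h3 : L / D ≤ L / 8 := by gcongr
    linarith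
  -- `Z ≤ t`
  obtain ⟨Z, hZ⟩ : ∃ Z : ℕ, Z = (2 ^ 2 ^ J) ^ (C0 * b0) := ⟨_, rfl⟩
  have hZ1 : 1 ≤ Z := by rw [hZ]; exact Nat.one_le_pow _ _ (by positivity)
  have hZr : (1 : ℝ) ≤ Z := by exact_mod_cast hZ1
  have hZt : (Z : ℝ) ≤ t := by
    have h1 : Real.log Z ≤ Real.log t := by
      have e1 : Real.log Z = (C0 * b0) * (2 ^ J * Real.log 2) := by
        rw [hZ]; push_cast; rw [Real.log_pow, Real.log_pow]; push_cast; ring
      have e2 : Real.log t = δ * L / 8 := by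
        rw [ht, Real.log_rpow hX0, ← hLdef]; ring
      rw [e1, e2]
      have h2 : Real.log 2 ≤ 1 := by have := Real.log_two_lt_d9; linarith
      have h3 : (2 : ℝ) ^ J * Real.log 2 ≤ L / D := by
        calc (2 : ℝ) ^ J * Real.log 2 ≤ (2 : ℝ) ^ J * 1 := mul_le_mul_of_nonneg_left h2 (by positivity)
          _ ≤ L / D := by linarith
      calc ((C0 : ℝ) * b0) * (2 ^ J * Real.log 2) ≤ ((C0 : ℝ) * b0) * (L / D) :=
            mul_le_mul_of_nonneg_left h3 (by positivity)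
        _ = δ * L / 8 := by rw [hD]; field_simp
    exact (Real.log_le_log_iff (by linarith) (by linarith)).1 h1
  have hz : 2 ^ 2 ^ J ≤ Z := by
    rw [hZ]
    exact Nat.le_self_pow (by have : 0 < C0 * b0 := Nat.mul_pos (by omega) (by omega)
                              omega) _
  have hzr : (((2 ^ 2 ^ J : ℕ)) : ℝ) ≤ t := by
    have : (((2 ^ 2 ^ J : ℕ)) : ℝ) ≤ Z := by exact_mod_cast hz
    linarith
  intro a b ha hb haX
  obtain ⟨M, hM⟩ : ∃ M, M = a * b := ⟨_, rfl⟩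
  rw [← hM] at haX ⊢
  have hM1 : 1 ≤ M := by rw [hM]; exact Nat.mul_pos ha hb
  have hMr : (1 : ℝ) ≤ M := by exact_mod_cast hM1
  -- `X / M ≥ t ^ 8`
  have hXa : t ^ 8 ≤ X / M := by
    rw [le_div_iff₀ (by linarith)]
    have e1 : t ^ 8 = (X : ℝ) ^ δ := by
      rw [ht, ← Real.rpow_natCast, ← Real.rpow_mul hX0.le]
      congr 1
      push_cast; ring
    have e2 : (X : ℝ) = (X : ℝ) ^ δ * (X : ℝ) ^ (1 - δ) := by
      rw [← Real.rpow_add hX0]
      have : δ + (1 - δ) = 1 := by ring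
      rw [this, Real.rpow_one]
    calc t ^ 8 * M ≤ (X : ℝ) ^ δ * (X : ℝ) ^ (1 - δ) := by
          rw [e1]; exact mul_le_mul_of_nonneg_left haX (by positivity)
      _ = X := e2.symm
  have hXa1 : 1 ≤ (X : ℝ) / M := le_trans (one_le_pow₀ ht1) hXa
  have hrr : 1 ≤ rho a * rho b := by nlinarith [rho_ge a, rho_ge b]
  have hsm : 10 * L * t ^ 3 ≤ rho a * rho b * (X / (M * L ^ 3)) := by
    have h11 : 10 * L * t ^ 3 ≤ t ^ 4 / L ^ 3 := by
      rw [le_div_iff₀ (by positivity)]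
      calc 10 * L * t ^ 3 * L ^ 3 = (10 * L ^ 4) * t ^ 3 := by ring
        _ ≤ t * t ^ 3 := mul_le_mul_of_nonneg_right hXL (by positivity)
        _ = t ^ 4 := by ring
    have h12 : t ^ 4 / L ^ 3 ≤ (X / M) / L ^ 3 := by
      apply div_le_div_of_nonneg_right _ (by positivity)
      exact (pow_le_pow_right₀ ht1 (by norm_num)).trans hXa
    have h13 : (X : ℝ) / M / L ^ 3 = X / (M * L ^ 3) := by rw [div_div]
    have h14 : (X : ℝ) / (M * L ^ 3) ≤ rho a * rho b * (X / (M * L ^ 3)) :=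
      le_mul_of_one_le_left (by positivity) hrr
    linarith
  by_cases hab : a.Coprime b
  swap
  · have h3 : ((Np h1 h2 X a b).card : ℝ) ≤ 1 := by exact_mod_cast Np_noncop h1 h2 X a b h0 h hr hab
    have h4 : (1 : ℝ) ≤ 10 * L * t ^ 3 := by
      have : (1 : ℝ) ≤ t ^ 3 := one_le_pow₀ ht1
      nlinarith
    have h5 : rho a * rho b * (X / (M * L ^ 3)) ≤
        (4 * (4 * D * Real.exp (C1 + b0)) ^ 3 + 1) * (rho a * rho b) * (X / (M * L ^ 3)) := by
      rw [mul_assoc (4 * (4 * D * Real.exp (C1 + b0)) ^ 3 + 1)]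
      apply le_mul_of_one_le_left (by positivity)
      have : 0 ≤ 4 * (4 * D * Real.exp (C1 + b0)) ^ 3 := by positivity
      linarith
    linarith
  rcases (Np h1 h2 X a b).eq_empty_or_nonempty with he | ⟨p0, hp0⟩
  · rw [he, card_empty, Nat.cast_zero]; positivity
  have hPZ : ∀ p ∈ PZ b0 J, p.Prime ∧ b0 < p ∧ p ≤ 2 ^ 2 ^ J := by
    intro p hp
    unfold PZ at hp
    rw [mem_filter, mem_Icc] at hp
    exact ⟨hp.2.1, hp.2.2, hp.1.2⟩
  have hs1 := Np_sieve h1 h2 X a b p0 (2 ^ 2 ^ J) (PZ b0 J) ha hb hab hp0 (fun p hp => ⟨(hPZ p hp).1, (hPZ p hp).2.2⟩)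
  rw [← hM] at hs1
  obtain ⟨c, hc⟩ : ∃ c, c = p0 % M := ⟨_, rfl⟩
  rw [← hc] at hs1
  have hcard3 : ∀ p ∈ PZ b0 J, (Om3 h1 h2 M c p).card ≤ 3 ∧ ∀ x ∈ Om3 h1 h2 M c p, x < p := by
    intro p hp
    obtain ⟨q1, q2, q3⟩ := hPZ p hp
    refine ⟨?_, fun x hx => Om3_lt hx⟩
    by_cases hpm : p ∣ M
    · unfold Om3; rw [if_pos hpm]; simp
    · rw [Om3_card q1 h0 h (by omega) hpm]
  have hs2 := hsieve b0 J b0 (PZ b0 J) (by omega) (by omega) hPZ (Om3 h1 h2 M c) (X / M + 1) hcard3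
  rw [← hZ] at hs2
  have h3 : ∏ p ∈ PZ b0 J, (1 - ((Om3 h1 h2 M c p).card : ℝ) * (1 / (p : ℝ))) ≤
      (4 * D * Real.exp (C1 + b0) / L) ^ 3 * (rho a * rho b) := by
    refine (prod_Om3 h1 h2 M c b0 J h0 h hM1 (by omega) (by omega)).trans ?_
    rw [hM, rho_mul hab]
    apply mul_le_mul_of_nonneg_right _ (by linarith)
    refine (hV b0 J hJ1 (by omega)).trans ?_
    apply pow_le_pow_left₀ (by positivity)
    have hpos : (0 : ℝ) < L / (4 * D) := by positivity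
    calc Real.exp (C1 + b0) / 2 ^ J ≤ Real.exp (C1 + b0) / (L / (4 * D)) := by gcongr
      _ = _ := by field_simp
  have hM2 : (((X / M + 1 : ℕ)) : ℝ) ≤ 2 * (X / M) := by
    push_cast
    have : ((X / M : ℕ) : ℝ) ≤ (X : ℝ) / M := Nat.cast_div_le
    linarith
  have h5 : ((Np h1 h2 X a b).card : ℝ) ≤ 3 * ((2 ^ 2 ^ J : ℕ) + 1) +
      (2 * ((((X / M + 1 : ℕ)) : ℝ) * ∏ p ∈ PZ b0 J, (1 - ((Om3 h1 h2 M c p).card : ℝ) * (1 / (p : ℝ)))) +
      ((J : ℝ) + 2) * (Z : ℝ) ^ 3) := by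
    have h6 : ((Np h1 h2 X a b).card : ℝ) ≤ (3 * ((2 ^ 2 ^ J : ℕ) + 1) : ℝ) +
      ((((range (X / M + 1)).filter (fun t => ∀ p ∈ PZ b0 J, t % p ∉ Om3 h1 h2 M c p)).card : ℕ) : ℝ) := by
      exact_mod_cast hs1
    linarith
  have hprod0 : 0 ≤ ∏ p ∈ PZ b0 J, (1 - ((Om3 h1 h2 M c p).card : ℝ) * (1 / (p : ℝ))) := by
    apply prod_nonneg
    intro p hp
    have h3 : ((Om3 h1 h2 M c p).card : ℝ) ≤ 3 := by exact_mod_cast (hcard3 p hp).1
    have h4 : (3 : ℝ) ≤ p := by exact_mod_cast (by have := (hPZ p hp).2.1; omega : 3 ≤ p)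
    have h5 : ((Om3 h1 h2 M c p).card : ℝ) * (1 / (p : ℝ)) ≤ 1 := by
      rw [mul_one_div, div_le_one (by linarith)]
      linarith
    linarith
  have h7 : 2 * ((((X / M + 1 : ℕ)) : ℝ) * ∏ p ∈ PZ b0 J, (1 - ((Om3 h1 h2 M c p).card : ℝ) * (1 / (p : ℝ)))) ≤
      4 * (4 * D * Real.exp (C1 + b0)) ^ 3 * (rho a * rho b) * (X / (M * L ^ 3)) := by
    calc 2 * ((((X / M + 1 : ℕ)) : ℝ) * ∏ p ∈ PZ b0 J, (1 - ((Om3 h1 h2 M c p).card : ℝ) * (1 / (p : ℝ)))) ≤
          2 * ((2 * (X / M)) * ((4 * D * Real.exp (C1 + b0) / L) ^ 3 * (rho a * rho b))) := by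
            apply mul_le_mul_of_nonneg_left _ (by norm_num)
            exact mul_le_mul hM2 h3 hprod0 (by positivity)
      _ = _ := by field_simp; ring
  have h8 : 3 * (((2 ^ 2 ^ J : ℕ) : ℝ) + 1) + ((J : ℝ) + 2) * (Z : ℝ) ^ 3 ≤ rho a * rho b * (X / (M * L ^ 3)) := by
    have h9 : 3 * (((2 ^ 2 ^ J : ℕ) : ℝ) + 1) + ((J : ℝ) + 2) * (Z : ℝ) ^ 3 ≤ 3 * (t + t) + L * t ^ 3 := by
      gcongr
    have ht3 : t ≤ t ^ 3 := le_self_pow₀ ht1 (by norm_num)
    have h10 : 3 * (t + t) + L * t ^ 3 ≤ 10 * L * t ^ 3 := by nlinarith [pow_nonneg (by linarith : (0 : ℝ) ≤ t) 3]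
    linarith
  have h15 : (4 * (4 * D * Real.exp (C1 + b0)) ^ 3 + 1) * (rho a * rho b) * (X / (M * L ^ 3)) =
      4 * (4 * D * Real.exp (C1 + b0)) ^ 3 * (rho a * rho b) * (X / (M * L ^ 3)) + rho a * rho b * (X / (M * L ^ 3)) := by ring
  rw [h15]
  linarith

end Pool.Agent.K4H50.TM
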