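import Pool.Agent.H442R2.KF.BvY
import Pool.Agent.TH915.UC.BT
import Pool.Agent.Helper923.PNT
import Pool.Agent.K4H50.HL.B3
import Pool.Agent.Helper559.Mertens

/-!
# Small prime factors of `p + h`
-/

set_option autoImplicit false

namespace Pool.Agent.K4H50.TM

open Finset Filter
open Pool.Agent.H442R2.KF (piN piAP Er bvY)
open ArithmeticFunction (vonMangoldt)

/-- the number of the primes `p ≤ X` with `d ∣ p + h` -/
def cnt (X h d : ℕ) : ℕ := ((Icc 1 X).filter (fun p => p.Prime ∧ d ∣ p + h)).card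

/-- the class of `-h` modulo `d` -/
def bb (h d : ℕ) : ℕ := if Nat.Coprime h d then (d - 1) * h else 1

theorem bb_cop (h d : ℕ) (hd : 1 ≤ d) : Nat.Coprime (bb h d) d := by
  unfold bb
  split_ifs with h1
  · apply Nat.Coprime.mul_left _ h1
    have : Nat.Coprime (d - 1) (d - 1 + 1) := by simp
    rwa [Nat.sub_add_cancel hd] at this
  · exact Nat.coprime_one_left d

theorem modEq_iff (h d p : ℕ) (hd : 1 ≤ d) : p ≡ (d - 1) * h [MOD d] ↔ d ∣ p + h := by
  have e : (d - 1) * h + h = d * h := by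
    conv_lhs => rw [← Nat.succ_mul]
    rw [Nat.succ_eq_add_one, Nat.sub_add_cancel hd]
  constructor
  · intro h1
    have h2 := h1.add_right h
    rw [e] at h2
    exact (Nat.modEq_zero_iff_dvd).1 (h2.trans (Nat.modEq_zero_iff_dvd.2 (dvd_mul_right d h)))
  · intro h1
    have h2 : p + h ≡ (d - 1) * h + h [MOD d] := by
      rw [e]
      exact (Nat.modEq_zero_iff_dvd.2 h1).trans (Nat.modEq_zero_iff_dvd.2 (dvd_mul_right d h)).symm
    exact Nat.ModEq.add_right_cancel' h h2

theorem cnt_eq (X h d : ℕ) (hd : 1 ≤ d) : cnt X h d = piAP X d ((d - 1) * h) := by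
  unfold cnt piAP
  congr 1
  apply filter_congr
  intro p _
  rw [modEq_iff h d p hd]

theorem cnt_cop (X h d : ℕ) (hd : 1 ≤ d) (hc : Nat.Coprime h d) :
    (cnt X h d : ℝ) = (piN X : ℝ) / (Nat.totient d : ℝ) + Er X d (bb h d) := by
  have : bb h d = (d - 1) * h := by unfold bb; rw [if_pos hc]
  rw [this, cnt_eq X h d hd]
  unfold Er
  ring

theorem cnt_noncop (X h d : ℕ) (hd : IsPrimePow d) (hc : ¬ Nat.Coprime h d) : cnt X h d ≤ 1 := by
  obtain ⟨l, k, hl, hk, rfl⟩ := hd
  have hlp : l.Prime := hl.nat_prime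
  have hlh : l ∣ h := by
    by_contra h'
    exact hc (((Nat.Prime.coprime_iff_not_dvd hlp).2 h').symm.pow_right k)
  unfold cnt
  rw [card_le_one_iff]
  have key : ∀ p ∈ (Icc 1 X).filter (fun p => p.Prime ∧ l ^ k ∣ p + h), p = l := by
    intro p hp
    rw [mem_filter] at hp
    have d1 : l ∣ p + h := (dvd_pow_self l hk.ne').trans hp.2.2
    have d2 : l ∣ p := (Nat.dvd_add_left hlh).1 d1
    exact ((Nat.prime_dvd_prime_iff_eq hlp hp.2.1).1 d2).symm
  intro p q hp hq
  rw [key p hp, key q hq]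

theorem cnt_div (X h d : ℕ) (hd : 1 ≤ d) : (cnt X h d : ℝ) ≤ (X + h : ℝ) / d := by
  have h1 : cnt X h d ≤ (X + h) / d := by
    unfold cnt
    calc _ ≤ (Icc 1 ((X + h) / d)).card := by
          apply card_le_card_of_injOn (fun p => (p + h) / d)
          · intro p hp
            rw [mem_coe, mem_filter, mem_Icc] at hp
            rw [mem_coe, mem_Icc]
            refine ⟨?_, Nat.div_le_div_right (by omega)⟩
            exact Nat.div_pos (Nat.le_of_dvd (by omega) hp.2.2) hd
          · intro p hp q hq hpq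
            rw [mem_coe, mem_filter] at hp hq
            have e1 := Nat.div_mul_cancel hp.2.2
            have e2 := Nat.div_mul_cancel hq.2.2
            have hpq' : (p + h) / d = (q + h) / d := hpq
            rw [hpq'] at e1
            omega
      _ = _ := by simp
  have h2 : ((((X + h) / d : ℕ)) : ℝ) ≤ ((X + h : ℕ) : ℝ) / d := Nat.cast_div_le
  push_cast at h2
  have h3 : (cnt X h d : ℝ) ≤ ((((X + h) / d : ℕ)) : ℝ) := by exact_mod_cast h1
  linarith

theorem cnt_bt (X h q : ℕ) (hq : q.Prime) (hqX : q ≤ X) (hlog : 1 / 4 * Real.log X ≤ Real.log ((X : ℝ) / q))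
    (hX : 2 ≤ X) : (cnt X h q : ℝ) ≤ 352 * (X / (q * Real.log X)) := by
  have hq0 : (0 : ℝ) < q := by exact_mod_cast hq.pos
  have hq2 : (2 : ℝ) ≤ q := by exact_mod_cast hq.two_le
  have hX2 : (2 : ℝ) ≤ X := by exact_mod_cast hX
  have hqXr : (q : ℝ) ≤ X := by exact_mod_cast hqX
  obtain ⟨N, hN⟩ : ∃ N, N = X / q + 1 := ⟨_, rfl⟩
  have hN2 : 2 ≤ N := by
    have : 1 ≤ X / q := (Nat.le_div_iff_mul_le hq.pos).2 (by omega)
    omega
  obtain ⟨c, hc⟩ : ∃ c, c = ((q - 1) * h) % q := ⟨_, rfl⟩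
  have h1 : cnt X h q ≤ ((range N).filter (fun k => (c + k * q).Prime)).card := by
    unfold cnt
    apply card_le_card_of_injOn (fun p => p / q)
    · intro p hp
      rw [mem_coe, mem_filter, mem_Icc] at hp
      rw [mem_coe, mem_filter, mem_range]
      have e : c + (p / q) * q = p := by
        have h3 := (modEq_iff h q p hq.one_lt.le).2 hp.2.2
        have h4 : p % q = c := by rw [hc]; exact h3
        have h5 := Nat.div_add_mod p q
        rw [h4, mul_comm] at h5
        omega
      refine ⟨?_, by show (c + (p / q) * q).Prime; rw [e]; exact hp.2.1⟩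
      show p / q < N
      rw [hN]
      exact Nat.lt_succ_of_le (Nat.div_le_div_right hp.1.2)
    · intro p hp r hr hpr
      rw [mem_coe, mem_filter] at hp hr
      have h3 := (modEq_iff h q p hq.one_lt.le).2 hp.2.2
      have h4 := (modEq_iff h q r hq.one_lt.le).2 hr.2.2
      have h5 : p % q = r % q := h3.trans h4.symm
      have h6 : p / q = r / q := hpr
      rw [← Nat.div_add_mod p q, ← Nat.div_add_mod r q, h5, h6]
  have h2 := Pool.Agent.TH915.UC.bt_gen c q N hq.pos hN2
  have h3 : (cnt X h q : ℝ) ≤ (((range N).filter (fun k => (c + k * q).Prime)).card : ℝ) := by exact_mod_cast h1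
  have hφ : (q : ℝ) / q.totient ≤ 2 := by
    rw [Nat.totient_prime hq, Nat.cast_sub hq.one_lt.le]
    push_cast
    rw [div_le_iff₀ (by linarith)]
    linarith
  have hXq : (X : ℝ) / q < N := by
    rw [hN]
    push_cast
    rw [div_lt_iff₀ hq0]
    have h5 := Nat.div_add_mod X q
    have h6 := Nat.mod_lt X hq.pos
    have : X < (X / q + 1) * q := by nlinarith
    exact_mod_cast this
  have hN1 : (N : ℝ) ≤ 2 * (X / q) := by
    rw [hN]
    push_cast
    have h5 : ((X / q : ℕ) : ℝ) ≤ (X : ℝ) / q := Nat.cast_div_le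
    have h6 : 1 ≤ (X : ℝ) / q := by rw [le_div_iff₀ hq0]; linarith
    linarith
  have hlX : 0 < Real.log X := Real.log_pos (by linarith)
  have hlN : 1 / 4 * Real.log X ≤ Real.log N := by
    refine hlog.trans (Real.log_le_log (by positivity) hXq.le)
  have hN0 : (0 : ℝ) < N := by exact_mod_cast (by omega : 0 < N)
  calc (cnt X h q : ℝ) ≤ 22 * ((q : ℝ) / q.totient) * N / Real.log N := h3.trans h2
    _ ≤ 22 * 2 * (2 * (X / q)) / (1 / 4 * Real.log X) := by
        gcongr
    _ = 352 * (X / (q * Real.log X)) := by field_simp; ring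

/-- the sum of `Λ(d) / φ(d)` -/
theorem sum_phi : ∃ C : ℝ, 0 < C ∧ ∀ D : ℕ, 1 ≤ D →
    ∑ d ∈ Icc 1 D, vonMangoldt d / (Nat.totient d : ℝ) ≤ Real.log D + C := by
  obtain ⟨C2, hC2, h2⟩ := Pool.Agent.K4H50.HL.npr_le
  refine ⟨Real.log 4 + 6 + 2 * C2, by have := Real.log_pos (show (1 : ℝ) < 4 by norm_num); positivity, fun D hD => ?_⟩
  have h1 : ∀ d ∈ Icc 1 D, vonMangoldt d / (Nat.totient d : ℝ) ≤
      ((if d.Prime then Real.log d / d else 0) + (if d.Prime then Real.log d / (d * (d - 1)) else 0)) +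
        2 * (if d.Prime then 0 else vonMangoldt d / (d : ℝ)) := by
    intro d hd
    rw [mem_Icc] at hd
    by_cases hp : d.Prime
    · rw [if_pos hp, if_pos hp, if_pos hp, ArithmeticFunction.vonMangoldt_apply_prime hp, Nat.totient_prime hp,
        Nat.cast_sub hp.one_lt.le]
      have h2 : (2 : ℝ) ≤ d := by exact_mod_cast hp.two_le
      push_cast
      have h3 : (d : ℝ) - 1 ≠ 0 := by linarith
      have h4 : (d : ℝ) ≠ 0 := by linarith
      apply le_of_eq
      field_simp
      ring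
    · rw [if_neg hp, if_neg hp, if_neg hp, zero_add, zero_add]
      by_cases hpp : IsPrimePow d
      · obtain ⟨l, k, hl, hk, rfl⟩ := hpp
        have hlp : l.Prime := hl.nat_prime
        have ht : (l ^ k : ℝ) ≤ 2 * (Nat.totient (l ^ k) : ℝ) := by
          rw [Nat.totient_prime_pow hlp hk]
          have h5 : l ^ k ≤ 2 * (l ^ (k - 1) * (l - 1)) := by
            obtain ⟨j, rfl⟩ : ∃ j, k = j + 1 := ⟨k - 1, by omega⟩
            rw [Nat.add_sub_cancel, pow_succ]
            have h6 : l ≤ 2 * (l - 1) := by have := hlp.two_le; omega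
            calc l ^ j * l ≤ l ^ j * (2 * (l - 1)) := Nat.mul_le_mul_left _ h6
              _ = _ := by ring
          exact_mod_cast h5
        have hpos : (0 : ℝ) < ((l ^ k : ℕ) : ℝ) := by exact_mod_cast pow_pos hlp.pos k
        have hpos2 : (0 : ℝ) < (Nat.totient (l ^ k) : ℝ) := by exact_mod_cast Nat.totient_pos.2 (pow_pos hlp.pos k)
        have hv : 0 ≤ vonMangoldt (l ^ k) := ArithmeticFunction.vonMangoldt_nonneg
        rw [div_le_iff₀ hpos2]
        have e : 2 * (vonMangoldt (l ^ k) / ((l ^ k : ℕ) : ℝ)) * (Nat.totient (l ^ k) : ℝ) =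
            vonMangoldt (l ^ k) * ((2 * (Nat.totient (l ^ k) : ℝ)) / ((l ^ k : ℕ) : ℝ)) := by ring
        rw [e]
        apply le_mul_of_one_le_right hv
        rw [le_div_iff₀ hpos, one_mul]
        push_cast
        exact ht
      · rw [ArithmeticFunction.vonMangoldt_eq_zero_iff.2 hpp]
        simp
  refine (sum_le_sum h1).trans ?_
  rw [sum_add_distrib, sum_add_distrib, ← mul_sum, ← sum_filter, ← sum_filter]
  have h3 : ∑ p ∈ (Icc 1 D).filter Nat.Prime, Real.log p / p ≤ Real.log D + Real.log 4 :=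
    Pool.Agent.Helper559.A1_le D hD
  have h4 : ∑ p ∈ (Icc 1 D).filter Nat.Prime, Real.log p / ((p : ℝ) * (p - 1)) ≤ 6 := by
    have h5 := Pool.Agent.Helper559.sum_aux D hD
    have h6 : ∑ p ∈ (Icc 1 D).filter Nat.Prime, Real.log p / ((p : ℝ) * (p - 1)) ≤
        ∑ m ∈ Icc 2 D, Real.log m / ((m : ℝ) * (m - 1)) := by
      apply sum_le_sum_of_subset_of_nonneg
      · intro p hp
        rw [mem_filter, mem_Icc] at hp
        rw [mem_Icc]
        exact ⟨hp.2.two_le, hp.1.2⟩
      · intro m hm _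
        rw [mem_Icc] at hm
        have : (2 : ℝ) ≤ m := by exact_mod_cast hm.1
        have h7 : 0 ≤ Real.log m := Real.log_natCast_nonneg m
        have h8 : 0 ≤ (m : ℝ) - 1 := by linarith
        positivity
    have h7 : 0 ≤ 6 / Real.sqrt D := by positivity
    linarith
  have h5 := h2 (Icc 1 D)
  linarith

theorem npr_tail (ε : ℝ) (hε : 0 < ε) : ∃ D0 : ℕ, ∀ s : Finset ℕ, (∀ d ∈ s, D0 < d) →
    ∑ d ∈ s, (if d.Prime then 0 else vonMangoldt d / (d : ℝ)) ≤ ε := by
  have h := Pool.Agent.K4H50.HL.npr_summable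
  rw [summable_iff_vanishing_norm] at h
  obtain ⟨s0, hs0⟩ := h ε hε
  refine ⟨s0.sup id, fun s hs => ?_⟩
  have hd : Disjoint s s0 := by
    rw [disjoint_left]
    intro d hd hd0
    have h1 := hs d hd
    have h2 : d ≤ s0.sup id := le_sup (f := id) hd0
    omega
  have h3 := hs0 s hd
  rw [Real.norm_eq_abs] at h3
  exact (le_abs_self _).trans h3.le

end Pool.Agent.K4H50.TM
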