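import Pool.Agent.K4H50.TM.C1

/-!
# The contribution of the small prime factors, upper bound
-/

set_option autoImplicit false

namespace Pool.Agent.K4H50.TM

open Finset Filter
open Pool.Agent.H442R2.KF (piN piAP Er bvY)
open ArithmeticFunction (vonMangoldt)

/-- the contribution of the prime factors `q > B` of `p + h` to `log (p + h)` -/
noncomputable def Xl (X h B p : ℕ) : ℝ := ∑ q ∈ (Icc 1 (X + h)).filter (fun q => B < q ∧ q.Prime ∧ q ∣ p + h), Real.log q

theorem Xl_nonneg (X h B p : ℕ) : 0 ≤ Xl X h B p := sum_nonneg fun _ _ => Real.log_natCast_nonneg _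

theorem log_eq (X h p : ℕ) (hp : 1 ≤ p) (hpX : p ≤ X) : Real.log ((p + h : ℕ) : ℝ) =
    ∑ d ∈ (Icc 1 (X + h)).filter (fun d => d ∣ p + h), vonMangoldt d := by
  rw [← ArithmeticFunction.vonMangoldt_sum]
  apply sum_congr _ (fun _ _ => rfl)
  ext d
  rw [Nat.mem_divisors, mem_filter, mem_Icc]
  constructor
  · rintro ⟨h1, h2⟩
    refine ⟨⟨Nat.pos_of_dvd_of_pos h1 (by omega), ?_⟩, h1⟩
    have := Nat.le_of_dvd (by omega) h1
    omega
  · rintro ⟨_, h2⟩
    exact ⟨h2, by omega⟩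

theorem Xl_le (X h B p : ℕ) (hp : 1 ≤ p) (hpX : p ≤ X) : Xl X h B p ≤ Real.log ((p + h : ℕ) : ℝ) := by
  rw [log_eq X h p hp hpX]
  unfold Xl
  calc _ = ∑ q ∈ (Icc 1 (X + h)).filter (fun q => B < q ∧ q.Prime ∧ q ∣ p + h), vonMangoldt q := by
        apply sum_congr rfl
        intro q hq
        rw [ArithmeticFunction.vonMangoldt_apply_prime (mem_filter.1 hq).2.2.1]
    _ ≤ _ := by
        apply sum_le_sum_of_subset_of_nonneg
        · intro q hq
          rw [mem_filter] at hq ⊢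
          exact ⟨hq.1, hq.2.2.2⟩
        · intro q _ _
          exact ArithmeticFunction.vonMangoldt_nonneg

/-- pointwise decomposition -/
theorem Y_point (X h D B p : ℕ) (hp : 1 ≤ p) (hpX : p ≤ X) :
    Real.log ((p + h : ℕ) : ℝ) - Xl X h B p ≤
      ∑ d ∈ (Icc 1 D).filter (fun d => d ∣ p + h), vonMangoldt d +
      ∑ q ∈ ((Ioc D B).filter Nat.Prime).filter (fun q => q ∣ p + h), Real.log q +
      ∑ d ∈ ((Ioc D (X + h)).filter (fun d => ¬ d.Prime)).filter (fun d => d ∣ p + h), vonMangoldt d := by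
  rw [log_eq X h p hp hpX]
  have e1 : Xl X h B p = ∑ d ∈ (Icc 1 (X + h)).filter (fun d => d ∣ p + h), (if B < d ∧ d.Prime then vonMangoldt d else 0) := by
    unfold Xl
    rw [← sum_filter, filter_filter]
    apply sum_congr
    · ext q; rw [mem_filter, mem_filter]; tauto
    · intro q hq
      rw [ArithmeticFunction.vonMangoldt_apply_prime (mem_filter.1 hq).2.2.2]
  have hmono : ∀ (s : Finset ℕ) (P : ℕ → Prop) [DecidablePred P],
      (∀ d ∈ (Icc 1 (X + h)).filter (fun d => d ∣ p + h), P d → d ∈ s) →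
      ∑ d ∈ (Icc 1 (X + h)).filter (fun d => d ∣ p + h), (if P d then vonMangoldt d else 0) ≤ ∑ d ∈ s, vonMangoldt d := by
    intro s P _ hs
    rw [← sum_filter]
    apply sum_le_sum_of_subset_of_nonneg
    · intro d hd
      rw [mem_filter] at hd
      exact hs d hd.1 hd.2
    · intro d _ _
      exact ArithmeticFunction.vonMangoldt_nonneg
  have a1 := hmono ((Icc 1 D).filter (fun d => d ∣ p + h)) (fun d => d ≤ D) (by
    intro d hd hP
    rw [mem_filter, mem_Icc] at hd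
    rw [mem_filter, mem_Icc]
    exact ⟨⟨hd.1.1, hP⟩, hd.2⟩)
  have a2 := hmono (((Ioc D B).filter Nat.Prime).filter (fun q => q ∣ p + h)) (fun d => D < d ∧ d ≤ B ∧ d.Prime) (by
    intro d hd hP
    rw [mem_filter, mem_Icc] at hd
    rw [mem_filter, mem_filter, mem_Ioc]
    exact ⟨⟨⟨hP.1, hP.2.1⟩, hP.2.2⟩, hd.2⟩)
  have a3 := hmono (((Ioc D (X + h)).filter (fun d => ¬ d.Prime)).filter (fun d => d ∣ p + h)) (fun d => D < d ∧ ¬ d.Prime) (by
    intro d hd hP
    rw [mem_filter, mem_Icc] at hd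
    rw [mem_filter, mem_filter, mem_Ioc]
    exact ⟨⟨⟨hP.1, hd.1.2⟩, hP.2⟩, hd.2⟩)
  have e2 : ∑ q ∈ ((Ioc D B).filter Nat.Prime).filter (fun q => q ∣ p + h), vonMangoldt q =
      ∑ q ∈ ((Ioc D B).filter Nat.Prime).filter (fun q => q ∣ p + h), Real.log q := by
    apply sum_congr rfl
    intro q hq
    rw [ArithmeticFunction.vonMangoldt_apply_prime (mem_filter.1 (mem_filter.1 hq).1).2]
  rw [e1, ← e2, ← sum_sub_distrib]
  refine le_trans ?_ (add_le_add (add_le_add a1 a2) a3)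
  rw [← sum_add_distrib, ← sum_add_distrib]
  apply sum_le_sum
  intro d _
  have h0 : 0 ≤ vonMangoldt d := ArithmeticFunction.vonMangoldt_nonneg
  by_cases c1 : d ≤ D <;> by_cases c2 : d.Prime <;> by_cases c3 : d ≤ B <;>
    simp [c1, c2, c3, not_lt.2 (show d ≤ d from le_rfl), Nat.lt_of_not_le, not_le.1] <;> 
    first | linarith | (split_ifs <;> linarith) | skip

theorem swap_cnt (X h : ℕ) (s : Finset ℕ) (f : ℕ → ℝ) :
    ∑ p ∈ (Icc 1 X).filter Nat.Prime, ∑ d ∈ s.filter (fun d => d ∣ p + h), f d = ∑ d ∈ s, f d * (cnt X h d : ℝ) := by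
  have e : ∀ p ∈ (Icc 1 X).filter Nat.Prime, ∑ d ∈ s.filter (fun d => d ∣ p + h), f d =
      ∑ d ∈ s, if d ∣ p + h then f d else 0 := fun p _ => by rw [sum_filter]
  rw [sum_congr rfl e, sum_comm]
  apply sum_congr rfl
  intro d _
  unfold cnt
  rw [← sum_filter, sum_const, nsmul_eq_mul, mul_comm, filter_filter]

end Pool.Agent.K4H50.TM
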