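import Pool.Agent.K4H50.TM.C2

/-!
# The contribution of the small prime factors, upper bound, continued
-/

set_option autoImplicit false

namespace Pool.Agent.K4H50.TM

open Finset Filter Topology
open Pool.Agent.H442R2.KF (piN piAP Er bvY)
open ArithmeticFunction (vonMangoldt)

theorem piN_eq (X : ℕ) : piN X = Nat.primeCounting X := by
  unfold piN Nat.primeCounting Nat.primeCounting'
  rw [Nat.count_eq_card_filter_range]
  congr 1
  ext p
  rw [mem_filter, mem_filter, mem_Icc, mem_range]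
  constructor
  · rintro ⟨h1, h2⟩; exact ⟨by omega, h2⟩
  · rintro ⟨h1, h2⟩; exact ⟨⟨h2.one_lt.le, by omega⟩, h2⟩

theorem pnt_nat : Tendsto (fun X : ℕ => (piN X : ℝ) * Real.log X / X) atTop (𝓝 1) := by
  have h := (Pool.Agent.Helper923.PNT.pi_tendsto).comp (tendsto_natCast_atTop_atTop (R := ℝ))
  refine h.congr fun X => ?_
  simp only [Function.comp_apply, Nat.floor_natCast]
  rw [piN_eq]

theorem pi_upper (ε : ℝ) (hε : 0 < ε) : ∀ᶠ X : ℕ in atTop, (piN X : ℝ) * Real.log X ≤ (1 + ε) * X := by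
  have h := pnt_nat.eventually (gt_mem_nhds (show (1 : ℝ) < 1 + ε by linarith))
  filter_upwards [h, eventually_ge_atTop 1] with X hX h1
  have hX0 : (0 : ℝ) < X := by exact_mod_cast h1
  rw [div_lt_iff₀ hX0] at hX
  exact hX.le

theorem pi_lower (ε : ℝ) (hε : 0 < ε) : ∀ᶠ X : ℕ in atTop, (1 - ε) * X ≤ (piN X : ℝ) * Real.log X := by
  have h := pnt_nat.eventually (lt_mem_nhds (show 1 - ε < (1 : ℝ) by linarith))
  filter_upwards [h, eventually_ge_atTop 1] with X hX h1
  have hX0 : (0 : ℝ) < X := by exact_mod_cast h1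
  rw [lt_div_iff₀ hX0] at hX
  exact hX.le

theorem log_inf (K : ℝ) : ∀ᶠ X : ℕ in atTop, K ≤ Real.log X :=
  (Real.tendsto_log_atTop.comp tendsto_natCast_atTop_atTop).eventually_ge_atTop K

theorem rpow_inf (s : ℝ) (hs : 0 < s) (K : ℝ) : ∀ᶠ X : ℕ in atTop, K ≤ (X : ℝ) ^ s :=
  ((tendsto_rpow_atTop hs).comp tendsto_natCast_atTop_atTop).eventually_ge_atTop K

theorem Y_upper (h : ℕ) : ∀ δ : ℝ, 0 < δ → δ ≤ 1 / 8 → ∀ ε : ℝ, 0 < ε → ∀ᶠ X : ℕ in atTop,
    ∑ p ∈ (Icc 1 X).filter Nat.Prime, (Real.log ((p + h : ℕ) : ℝ) - Xl X h ⌊2 * (X : ℝ) ^ (1 / 2 + δ)⌋₊ p) ≤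
      (1 / 2 + 704 * δ + ε) * X := by
  intro δ hδ hδ8 ε hε
  obtain ⟨C1, hC1, hphi⟩ := sum_phi
  obtain ⟨C2, hC2, hbv⟩ := bvY (1 / 2 - δ) (by linarith) 2
  obtain ⟨C3, hC3, hpsi⟩ := Pool.Agent.K4H50.HL.psi_bound
  obtain ⟨η, hη⟩ : ∃ η : ℝ, η = min 1 (ε / 8) := ⟨_, rfl⟩
  have hη0 : 0 < η := by rw [hη]; positivity
  have hη1 : η ≤ 1 := by rw [hη]; exact min_le_left _ _
  have hηε : 8 * η ≤ ε := by have : η ≤ ε / 8 := by rw [hη]; exact min_le_right _ _
                             linarith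
  obtain ⟨D0, hD0⟩ := npr_tail η hη0
  filter_upwards [pi_upper η hη0, log_inf ((2 * C1 + C2 + 3872) / η), log_inf 1, rpow_inf (1 / 2 - δ) (by linarith) (D0 + 2),
    rpow_inf (1 / 8) (by norm_num) 2, rpow_inf (1 / 2) (by norm_num) (C3 / η), eventually_ge_atTop h, eventually_ge_atTop 3]
    with X e1 e2 e2' e3 e4 e5 e6 e7
  have hX3 : (3 : ℝ) ≤ X := by exact_mod_cast e7
  have hX0 : (0 : ℝ) < X := by linarith
  have hX1 : (1 : ℝ) ≤ X := by linarith
  obtain ⟨L, hL⟩ : ∃ L, L = Real.log (X : ℝ) := ⟨_, rfl⟩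
  rw [← hL] at e1 e2 e2'
  have hL0 : 0 < L := by linarith
  obtain ⟨D, hD⟩ : ∃ D, D = ⌊(X : ℝ) ^ (1 / 2 - δ)⌋₊ := ⟨_, rfl⟩
  obtain ⟨B, hB⟩ : ∃ B, B = ⌊2 * (X : ℝ) ^ (1 / 2 + δ)⌋₊ := ⟨_, rfl⟩
  rw [← hB]
  have hDle : (D : ℝ) ≤ (X : ℝ) ^ (1 / 2 - δ) := by rw [hD]; exact Nat.floor_le (by positivity)
  have hDge : (X : ℝ) ^ (1 / 2 - δ) < D + 1 := by rw [hD]; exact Nat.lt_floor_add_one _
  have hBle : (B : ℝ) ≤ 2 * (X : ℝ) ^ (1 / 2 + δ) := by rw [hB]; exact Nat.floor_le (by positivity)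
  have hBge : 2 * (X : ℝ) ^ (1 / 2 + δ) < B + 1 := by rw [hB]; exact Nat.lt_floor_add_one _
  have hDD0 : D0 < D := by
    have : (D0 : ℝ) + 2 < D + 1 := by linarith
    have h2 : (D0 : ℝ) < D := by linarith
    exact_mod_cast h2
  have hD1 : 1 ≤ D := by omega
  have hD1r : (1 : ℝ) ≤ D := by exact_mod_cast hD1
  have hXhalf : (X : ℝ) ^ (1 / 2 - δ) ≤ (X : ℝ) ^ (1 / 2 : ℝ) := Real.rpow_le_rpow_of_exponent_le hX1 (by linarith)
  have hDX : D ≤ X := by
    have : (D : ℝ) ≤ X := by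
      calc (D : ℝ) ≤ (X : ℝ) ^ (1 / 2 - δ) := hDle
        _ ≤ (X : ℝ) ^ (1 : ℝ) := Real.rpow_le_rpow_of_exponent_le hX1 (by linarith)
        _ = X := Real.rpow_one _
    exact_mod_cast this
  have hlogD : Real.log D ≤ 1 / 2 * L := by
    calc Real.log D ≤ Real.log ((X : ℝ) ^ (1 / 2 : ℝ)) := Real.log_le_log (by linarith) (hDle.trans hXhalf)
      _ = 1 / 2 * L := by rw [Real.log_rpow hX0, hL]
  have hlogD2 : (1 / 2 - δ) * L - 1 ≤ Real.log D := by
    have h1 : (X : ℝ) ^ (1 / 2 - δ) ≤ 2 * D := by linarith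
    have h2 := Real.log_le_log (by positivity) h1
    rw [Real.log_rpow hX0, Real.log_mul (by norm_num) (by linarith), ← hL] at h2
    have := Real.log_two_lt_d9
    linarith
  have hlogB : Real.log B ≤ (1 / 2 + δ) * L + 1 := by
    have hB1 : (1 : ℝ) ≤ (X : ℝ) ^ (1 / 2 + δ) := Real.one_le_rpow hX1 (by linarith)
    have hB0 : (0 : ℝ) < B := by linarith
    have h2 := Real.log_le_log hB0 hBle
    rw [Real.log_mul (by norm_num) (by positivity), Real.log_rpow hX0, ← hL] at h2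
    have := Real.log_two_lt_d9
    linarith
  have hB1 : 1 ≤ B := by
    have hB1 : (1 : ℝ) ≤ (X : ℝ) ^ (1 / 2 + δ) := Real.one_le_rpow hX1 (by linarith)
    have hB0 : (0 : ℝ) < B := by linarith
    exact_mod_cast hB0
  have hB34 : (B : ℝ) ≤ (X : ℝ) ^ (3 / 4 : ℝ) := by
    calc (B : ℝ) ≤ 2 * (X : ℝ) ^ (1 / 2 + δ) := hBle
      _ ≤ (X : ℝ) ^ (1 / 8 : ℝ) * (X : ℝ) ^ (5 / 8 : ℝ) := by
          apply mul_le_mul e4 _ (by positivity) (by positivity)
          exact Real.rpow_le_rpow_of_exponent_le hX1 (by linarith)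
      _ = (X : ℝ) ^ (3 / 4 : ℝ) := by rw [← Real.rpow_add hX0]; norm_num
  -- the decomposition
  have hsum : ∑ p ∈ (Icc 1 X).filter Nat.Prime, (Real.log ((p + h : ℕ) : ℝ) - Xl X h B p) ≤
      ∑ d ∈ Icc 1 D, vonMangoldt d * (cnt X h d : ℝ) +
      ∑ q ∈ (Ioc D B).filter Nat.Prime, Real.log q * (cnt X h q : ℝ) +
      ∑ d ∈ (Ioc D (X + h)).filter (fun d => ¬ d.Prime), vonMangoldt d * (cnt X h d : ℝ) := by
    rw [← swap_cnt X h (Icc 1 D), ← swap_cnt X h ((Ioc D B).filter Nat.Prime) (fun q => Real.log (q : ℝ)),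
      ← swap_cnt X h ((Ioc D (X + h)).filter (fun d => ¬ d.Prime)), ← sum_add_distrib, ← sum_add_distrib]
    apply sum_le_sum
    intro p hp
    rw [mem_filter, mem_Icc] at hp
    exact Y_point X h D B p hp.1.1 hp.1.2
  -- the first sum
  have hT1 : ∑ d ∈ Icc 1 D, vonMangoldt d * (cnt X h d : ℝ) ≤ (1 / 2 + 3 * η) * X := by
    have ht : ∀ d ∈ Icc 1 D, vonMangoldt d * (cnt X h d : ℝ) ≤
        (piN X : ℝ) * (vonMangoldt d / (Nat.totient d : ℝ)) + L * |Er X d (bb h d)| + vonMangoldt d := by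
      intro d hd
      rw [mem_Icc] at hd
      have h0 : 0 ≤ vonMangoldt d := ArithmeticFunction.vonMangoldt_nonneg
      have hpos1 : 0 ≤ (piN X : ℝ) * (vonMangoldt d / (Nat.totient d : ℝ)) := by positivity
      have hpos2 : 0 ≤ L * |Er X d (bb h d)| := by positivity
      by_cases hpp : IsPrimePow d
      · by_cases hc : Nat.Coprime h d
        · rw [cnt_cop X h d hd.1 hc, mul_add]
          have hlog : vonMangoldt d ≤ L := by
            refine (ArithmeticFunction.vonMangoldt_le_log).trans ?_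
            rw [hL]
            apply Real.log_le_log (by exact_mod_cast hd.1)
            exact_mod_cast hd.2.trans hDX
          have h1 : vonMangoldt d * Er X d (bb h d) ≤ L * |Er X d (bb h d)| := by
            calc vonMangoldt d * Er X d (bb h d) ≤ vonMangoldt d * |Er X d (bb h d)| :=
                  mul_le_mul_of_nonneg_left (le_abs_self _) h0
              _ ≤ L * |Er X d (bb h d)| := mul_le_mul_of_nonneg_right hlog (abs_nonneg _)
          have h2 : vonMangoldt d * ((piN X : ℝ) / (Nat.totient d : ℝ)) = (piN X : ℝ) * (vonMangoldt d / (Nat.totient d : ℝ)) := by ring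
          linarith
        · have h1 : (cnt X h d : ℝ) ≤ 1 := by exact_mod_cast cnt_noncop X h d hpp hc
          have h2 : vonMangoldt d * (cnt X h d : ℝ) ≤ vonMangoldt d * 1 := mul_le_mul_of_nonneg_left h1 h0
          linarith
      · have : vonMangoldt d = 0 := ArithmeticFunction.vonMangoldt_eq_zero_iff.2 hpp
        rw [this] at hpos1 ⊢
        rw [zero_mul, add_zero]
        linarith
    refine (sum_le_sum ht).trans ?_
    rw [sum_add_distrib, sum_add_distrib, ← mul_sum, ← mul_sum]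
    have h1 := hphi D hD1
    have h2 := hbv X e7 X le_rfl (bb h) (fun d hd => bb_cop h d hd)
    rw [← hD, ← hL] at h2
    have h3 := hpsi D
    have h4 : (piN X : ℝ) * ∑ d ∈ Icc 1 D, vonMangoldt d / (Nat.totient d : ℝ) ≤ (1 + η) * X / 2 + 2 * C1 * X / L := by
      have h5 : (piN X : ℝ) ≤ (1 + η) * X / L := by rw [le_div_iff₀ hL0]; exact e1
      calc (piN X : ℝ) * ∑ d ∈ Icc 1 D, vonMangoldt d / (Nat.totient d : ℝ) ≤ ((1 + η) * X / L) * (1 / 2 * L + C1) := by
            apply mul_le_mul h5 (by linarith) _ (by positivity)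
            exact sum_nonneg fun d _ => div_nonneg ArithmeticFunction.vonMangoldt_nonneg (Nat.cast_nonneg _)
        _ = (1 + η) * X / 2 + (1 + η) * C1 * X / L := by field_simp
        _ ≤ (1 + η) * X / 2 + 2 * C1 * X / L := by gcongr; linarith
    have h5 : L * ∑ d ∈ Icc 1 D, |Er X d (bb h d)| ≤ C2 * X / L := by
      calc L * ∑ d ∈ Icc 1 D, |Er X d (bb h d)| ≤ L * (C2 * (X / L ^ 2)) := mul_le_mul_of_nonneg_left h2 hL0.le
        _ = C2 * X / L := by field_simp
    have h6 : ∑ d ∈ Icc 1 D, vonMangoldt d ≤ η * X := by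
      have h7 : C3 ≤ η * (X : ℝ) ^ (1 / 2 : ℝ) := by rwa [div_le_iff₀ hη0, mul_comm] at e5
      calc ∑ d ∈ Icc 1 D, vonMangoldt d ≤ C3 * D := h3
        _ ≤ (η * (X : ℝ) ^ (1 / 2 : ℝ)) * (X : ℝ) ^ (1 / 2 : ℝ) := by
            apply mul_le_mul h7 (hDle.trans hXhalf) (by positivity) (by positivity)
        _ = η * X := by
            rw [mul_assoc, ← Real.rpow_add hX0]; norm_num
    have h7 : 2 * C1 * X / L + C2 * X / L + 3872 * X / L ≤ η * X := by
      rw [div_le_iff₀ hη0] at e2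
      rw [← add_div, ← add_div, div_le_iff₀ hL0]
      nlinarith
    have h8 : 0 ≤ 3872 * X / L := by positivity
    have h9 : 0 ≤ η * X := by positivity
    have h10 : (1 + η) * (X : ℝ) / 2 = 1 / 2 * X + η * X / 2 := by ring
    have h11 : (1 / 2 + 3 * η) * (X : ℝ) = 1 / 2 * X + 3 * (η * X) := by ring
    rw [h10] at h4
    rw [h11]
    have h12 : η * (X : ℝ) / 2 = 1 / 2 * (η * X) := by ring
    rw [h12] at h4
    linarith
  -- the second sum
  have hT2 : ∑ q ∈ (Ioc D B).filter Nat.Prime, Real.log q * (cnt X h q : ℝ) ≤ 704 * δ * X + η * X := by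
    have ht : ∀ q ∈ (Ioc D B).filter Nat.Prime, Real.log q * (cnt X h q : ℝ) ≤ 352 * (X / L) * (Real.log q / q) := by
      intro q hq
      rw [mem_filter, mem_Ioc] at hq
      have hqB : (q : ℝ) ≤ (X : ℝ) ^ (3 / 4 : ℝ) := le_trans (by exact_mod_cast hq.1.2) hB34
      have hq0 : (0 : ℝ) < q := by exact_mod_cast hq.2.pos
      have hqX : q ≤ X := by
        have : (q : ℝ) ≤ X := by
          calc (q : ℝ) ≤ (X : ℝ) ^ (3 / 4 : ℝ) := hqB
            _ ≤ (X : ℝ) ^ (1 : ℝ) := Real.rpow_le_rpow_of_exponent_le hX1 (by norm_num)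
            _ = X := Real.rpow_one _
        exact_mod_cast this
      have hlog : 1 / 4 * Real.log X ≤ Real.log ((X : ℝ) / q) := by
        rw [Real.log_div (by linarith) (by linarith)]
        have := Real.log_le_log hq0 hqB
        rw [Real.log_rpow hX0] at this
        linarith
      have h1 := cnt_bt X h q hq.2 hqX hlog (by omega)
      rw [← hL] at h1
      calc Real.log q * (cnt X h q : ℝ) ≤ Real.log q * (352 * (X / (q * L))) :=
            mul_le_mul_of_nonneg_left h1 (Real.log_natCast_nonneg q)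
        _ = 352 * (X / L) * (Real.log q / q) := by field_simp
    refine (sum_le_sum ht).trans ?_
    rw [← mul_sum]
    have h1 : ∑ q ∈ (Ioc D B).filter Nat.Prime, Real.log q / (q : ℝ) ≤ 2 * δ * L + 11 := by
      rcases Nat.lt_or_ge B D with hBD | hBD
      · rw [Ioc_eq_empty (by omega), filter_empty, sum_empty]; positivity
      · have h2 : ∑ q ∈ (Ioc D B).filter Nat.Prime, Real.log q / (q : ℝ) =
            Pool.Agent.Helper559.A1 B - Pool.Agent.Helper559.A1 D := by
          unfold Pool.Agent.Helper559.A1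
          have h3 : (Icc 1 B).filter Nat.Prime = (Icc 1 D).filter Nat.Prime ∪ (Ioc D B).filter Nat.Prime := by
            rw [← filter_union]
            congr 1
            ext q; rw [mem_union, mem_Icc, mem_Icc, mem_Ioc]; omega
          rw [h3, sum_union]
          · ring
          · apply disjoint_filter_filter
            rw [disjoint_left]
            intro q hq hq'
            rw [mem_Icc] at hq
            rw [mem_Ioc] at hq'
            omega
        rw [h2]
        have h3 := Pool.Agent.Helper559.A1_le B hB1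
        have h4 := Pool.Agent.Helper559.le_A1 D hD1
        have h5 : Real.log 4 ≤ 2 := by
          have : Real.log 4 = 2 * Real.log 2 := by
            rw [show (4 : ℝ) = 2 ^ 2 by norm_num, Real.log_pow]; norm_num
          have := Real.log_two_lt_d9
          linarith
        linarith
    have h7 : 3872 * X / L ≤ η * X := by
      rw [div_le_iff₀ hη0] at e2
      rw [div_le_iff₀ hL0]
      nlinarith
    calc 352 * (X / L) * ∑ q ∈ (Ioc D B).filter Nat.Prime, Real.log q / (q : ℝ) ≤ 352 * (X / L) * (2 * δ * L + 11) :=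
          mul_le_mul_of_nonneg_left h1 (by positivity)
      _ = 704 * δ * X + 3872 * X / L := by field_simp; ring
      _ ≤ _ := by linarith
  -- the third sum
  have hT3 : ∑ d ∈ (Ioc D (X + h)).filter (fun d => ¬ d.Prime), vonMangoldt d * (cnt X h d : ℝ) ≤ 2 * η * X := by
    have ht : ∀ d ∈ (Ioc D (X + h)).filter (fun d => ¬ d.Prime), vonMangoldt d * (cnt X h d : ℝ) ≤
        (X + h) * (if d.Prime then 0 else vonMangoldt d / (d : ℝ)) := by
      intro d hd
      rw [mem_filter, mem_Ioc] at hd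
      rw [if_neg hd.2]
      calc vonMangoldt d * (cnt X h d : ℝ) ≤ vonMangoldt d * ((X + h : ℝ) / d) :=
            mul_le_mul_of_nonneg_left (cnt_div X h d (by omega)) ArithmeticFunction.vonMangoldt_nonneg
        _ = _ := by ring
    refine (sum_le_sum ht).trans ?_
    rw [← mul_sum]
    have h1 := hD0 ((Ioc D (X + h)).filter (fun d => ¬ d.Prime)) (fun d hd => by
      rw [mem_filter, mem_Ioc] at hd; omega)
    have h2 : (h : ℝ) ≤ X := by exact_mod_cast e6
    calc ((X : ℝ) + h) * _ ≤ ((X : ℝ) + h) * η := mul_le_mul_of_nonneg_left h1 (by positivity)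
      _ ≤ 2 * η * X := by nlinarith
  calc _ ≤ (1 / 2 + 3 * η) * X + (704 * δ * X + η * X) + 2 * η * X := hsum.trans (add_le_add (add_le_add hT1 hT2) hT3)
    _ = (1 / 2 + 704 * δ + 6 * η) * X := by ring
    _ ≤ (1 / 2 + 704 * δ + ε) * X := by
        apply mul_le_mul_of_nonneg_right _ hX0.le
        linarith

end Pool.Agent.K4H50.TM
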