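import Pool.Agent.K4H50.TM.C3

/-!
# Pairs of small prime factors of `p + h₁` and `p + h₂`: the sum of logarithms, the classes
-/

set_option autoImplicit false

namespace Pool.Agent.K4H50.TM

open Finset Filter Topology
open Pool.Agent.H442R2.KF (piN piAP Er bvY)
open ArithmeticFunction (vonMangoldt)
open Pool.Agent.Helper559 (A1 A1_le le_A1)

/-- `∑ (log q / q) log (D / q)` -/
noncomputable def FF (D : ℕ) : ℝ := ∑ q ∈ (Icc 1 D).filter Nat.Prime, Real.log q / q * (Real.log D - Real.log q)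

theorem FF_succ (D : ℕ) : FF (D + 1) = FF D + A1 D * (Real.log ((D + 1 : ℕ) : ℝ) - Real.log D) := by
  unfold FF A1
  rw [sum_filter, sum_filter, sum_filter, sum_Icc_succ_top (by omega), sub_self, mul_zero, ite_self, add_zero,
    sum_mul, ← sum_add_distrib]
  apply sum_congr rfl
  intro q _
  split_ifs
  · ring
  · ring

theorem FF_lower (D : ℕ) (hD : 1 ≤ D) : Real.log D ^ 2 / 2 - 8 * Real.log D ≤ FF D := by
  induction D, hD using Nat.le_induction with
  | base =>
    have : FF 1 = 0 := by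
      unfold FF
      rw [Icc_self, filter_singleton, if_neg Nat.not_prime_one, sum_empty]
    rw [this]
    simp
  | succ D hD ih =>
    rw [FF_succ]
    have h1 := le_A1 D hD
    have hD0 : (1 : ℝ) ≤ D := by exact_mod_cast hD
    obtain ⟨x, hx⟩ : ∃ x, x = Real.log (D : ℝ) := ⟨_, rfl⟩
    obtain ⟨y, hy⟩ : ∃ y, y = Real.log (((D + 1 : ℕ)) : ℝ) := ⟨_, rfl⟩
    have hxy : x ≤ y := by
      rw [hx, hy]
      apply Real.log_le_log (by linarith)
      push_cast
      linarith
    have hyx : y ≤ x + 1 := by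
      have h2 : y ≤ Real.log (2 * (D : ℝ)) := by
        rw [hy]
        apply Real.log_le_log (by positivity)
        push_cast
        linarith
      rw [Real.log_mul (by norm_num) (by linarith), ← hx] at h2
      have := Real.log_two_lt_d9
      linarith
    rw [← hx] at ih h1
    rw [← hx, ← hy]
    have h2 : (x - 7) * (y - x) ≤ A1 D * (y - x) := mul_le_mul_of_nonneg_right h1 (by linarith)
    nlinarith [mul_nonneg (sub_nonneg.2 hxy) (sub_nonneg.2 hyx)]

theorem A1_nonneg (n : ℕ) : 0 ≤ A1 n := sum_nonneg fun p _ => div_nonneg (Real.log_natCast_nonneg _) (Nat.cast_nonneg _)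

theorem sum_union_le {s t : Finset ℕ} (f : ℕ → ℝ) (hf : ∀ x, 0 ≤ f x) :
    ∑ x ∈ s ∪ t, f x ≤ ∑ x ∈ s, f x + ∑ x ∈ t, f x := by
  have h1 := sum_union_inter (s₁ := s) (s₂ := t) (f := f)
  have h2 : 0 ≤ ∑ x ∈ s ∩ t, f x := sum_nonneg fun x _ => hf x
  linarith

/-- the pairs of primes -/
def PP (h D : ℕ) : Finset (ℕ × ℕ) := ((Icc 1 D) ×ˢ (Icc 1 D)).filter
  (fun x => x.1.Prime ∧ x.2.Prime ∧ h < x.1 ∧ h < x.2 ∧ x.1 ≠ x.2 ∧ x.1 * x.2 ≤ D)

theorem log_div_self_le (q : ℕ) : Real.log q / q ≤ 1 := by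
  rcases Nat.eq_zero_or_pos q with rfl | hq
  · simp
  · have : (0 : ℝ) < q := by exact_mod_cast hq
    rw [div_le_one this]
    have := Real.log_le_sub_one_of_pos this
    linarith

theorem PP_inner (h D q : ℕ) (hq : q.Prime) (hqD : q ≤ D) :
    Real.log D - Real.log q - (9 + A1 h) ≤
      ∑ r ∈ (Icc 1 D).filter (fun r => r.Prime ∧ h < r ∧ q ≠ r ∧ q * r ≤ D), Real.log r / r := by
  have hq0 : (0 : ℝ) < q := by exact_mod_cast hq.pos
  have hf : ∀ r : ℕ, 0 ≤ Real.log r / r := fun r => div_nonneg (Real.log_natCast_nonneg _) (Nat.cast_nonneg _)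
  have h1 : A1 (D / q) ≤ ∑ r ∈ ((Icc 1 D).filter (fun r => r.Prime ∧ h < r ∧ q ≠ r ∧ q * r ≤ D)) ∪
      ((Icc 1 h).filter Nat.Prime ∪ {q}), Real.log r / r := by
    unfold A1
    apply sum_le_sum_of_subset_of_nonneg
    · intro r hr
      rw [mem_filter, mem_Icc] at hr
      have h2 : q * r ≤ D := by
        rw [mul_comm]
        exact (Nat.le_div_iff_mul_le hq.pos).1 hr.1.2
      rw [mem_union, mem_union, mem_filter, mem_filter, mem_Icc, mem_Icc, mem_singleton]
      by_cases c1 : r ≤ h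
      · right; left; exact ⟨⟨hr.1.1, c1⟩, hr.2⟩
      · by_cases c2 : r = q
        · right; right; exact c2
        · left
          refine ⟨⟨hr.1.1, hr.1.2.trans (Nat.div_le_self _ _)⟩, hr.2, by omega, fun e => c2 e.symm, h2⟩
    · intro r _ _; exact hf r
  have h2 := sum_union_le (s := (Icc 1 D).filter (fun r => r.Prime ∧ h < r ∧ q ≠ r ∧ q * r ≤ D))
    (t := (Icc 1 h).filter Nat.Prime ∪ {q}) (fun r => Real.log r / r) hf
  have h3 := sum_union_le (s := (Icc 1 h).filter Nat.Prime) (t := {q}) (fun r => Real.log r / r) hf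
  rw [sum_singleton] at h3
  have h4 : ∑ x ∈ (Icc 1 h).filter Nat.Prime, Real.log x / x = A1 h := rfl
  rw [h4] at h3
  have h5 := log_div_self_le q
  have h6 : 1 ≤ D / q := (Nat.le_div_iff_mul_le hq.pos).2 (by omega)
  have h7 := le_A1 (D / q) h6
  have h8 : Real.log D ≤ Real.log 2 + Real.log ((D / q : ℕ) : ℝ) + Real.log q := by
    have h6r : (1 : ℝ) ≤ ((D / q : ℕ) : ℝ) := by exact_mod_cast h6
    rw [← Real.log_mul (by norm_num) (by linarith), ← Real.log_mul (by positivity) (by linarith)]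
    apply Real.log_le_log (by exact_mod_cast (lt_of_lt_of_le hq.pos hqD))
    have h9 := Nat.div_add_mod D q
    have h10 := Nat.mod_lt D hq.pos
    have : D ≤ 2 * (D / q) * q := by nlinarith
    exact_mod_cast this
  have := Real.log_two_lt_d9
  linarith

theorem PP_sum (h : ℕ) : ∃ C : ℝ, 0 < C ∧ ∀ D : ℕ, 1 ≤ D → Real.log D ^ 2 / 2 - C * (1 + Real.log D) ≤
    ∑ x ∈ PP h D, Real.log x.1 / x.1 * (Real.log x.2 / x.2) := by
  have hA := A1_nonneg h
  refine ⟨8 + A1 h + 2 * (9 + A1 h), by positivity, fun D hD => ?_⟩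
  have hlD : 0 ≤ Real.log D := Real.log_natCast_nonneg D
  have e : ∑ x ∈ PP h D, Real.log x.1 / x.1 * (Real.log x.2 / x.2) =
      ∑ q ∈ (Icc 1 D).filter (fun q => q.Prime ∧ h < q), Real.log q / q *
        ∑ r ∈ (Icc 1 D).filter (fun r => r.Prime ∧ h < r ∧ q ≠ r ∧ q * r ≤ D), Real.log r / r := by
    unfold PP
    rw [sum_filter, sum_product, sum_filter]
    apply sum_congr rfl
    intro q _
    split_ifs with hq
    · rw [mul_sum, sum_filter]
      apply sum_congr rfl
      intro r _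
      apply if_congr _ rfl rfl
      simp only [hq.1, hq.2, true_and]
    · apply sum_eq_zero
      intro r _
      rw [if_neg]
      rintro ⟨a1, _, a2, _⟩
      exact hq ⟨a1, a2⟩
  rw [e]
  have h1 : ∑ q ∈ (Icc 1 D).filter (fun q => q.Prime ∧ h < q), Real.log q / q * (Real.log D - Real.log q - (9 + A1 h)) ≤
      ∑ q ∈ (Icc 1 D).filter (fun q => q.Prime ∧ h < q), Real.log q / q *
        ∑ r ∈ (Icc 1 D).filter (fun r => r.Prime ∧ h < r ∧ q ≠ r ∧ q * r ≤ D), Real.log r / r := by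
    apply sum_le_sum
    intro q hq
    rw [mem_filter, mem_Icc] at hq
    exact mul_le_mul_of_nonneg_left (PP_inner h D q hq.2.1 hq.1.2)
      (div_nonneg (Real.log_natCast_nonneg _) (Nat.cast_nonneg _))
  refine le_trans ?_ h1
  have h2 : FF D ≤ ∑ q ∈ (Icc 1 D).filter (fun q => q.Prime ∧ h < q), Real.log q / q * (Real.log D - Real.log q) +
      A1 h * Real.log D := by
    have h3 : FF D = ∑ q ∈ (Icc 1 D).filter (fun q => q.Prime ∧ h < q), Real.log q / q * (Real.log D - Real.log q) +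
        ∑ q ∈ (Icc 1 D).filter (fun q => q.Prime ∧ ¬ h < q), Real.log q / q * (Real.log D - Real.log q) := by
      unfold FF
      rw [← sum_filter_add_sum_filter_not ((Icc 1 D).filter Nat.Prime) (fun q => h < q), filter_filter, filter_filter]
    have h4 : ∑ q ∈ (Icc 1 D).filter (fun q => q.Prime ∧ ¬ h < q), Real.log q / q * (Real.log D - Real.log q) ≤
        A1 h * Real.log D := by
      unfold A1
      rw [sum_mul]
      calc _ ≤ ∑ q ∈ (Icc 1 D).filter (fun q => q.Prime ∧ ¬ h < q), Real.log q / q * Real.log D := by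
            apply sum_le_sum
            intro q _
            apply mul_le_mul_of_nonneg_left _ (div_nonneg (Real.log_natCast_nonneg _) (Nat.cast_nonneg _))
            have := Real.log_natCast_nonneg q
            linarith
        _ ≤ _ := by
            apply sum_le_sum_of_subset_of_nonneg
            · intro q hq
              rw [mem_filter, mem_Icc] at hq ⊢
              exact ⟨⟨hq.1.1, by omega⟩, hq.2.1⟩
            · intro q _ _
              exact mul_nonneg (div_nonneg (Real.log_natCast_nonneg _) (Nat.cast_nonneg _)) hlD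
    linarith
  have h3 : ∑ q ∈ (Icc 1 D).filter (fun q => q.Prime ∧ h < q), Real.log q / q * (Real.log D - Real.log q - (9 + A1 h)) =
      ∑ q ∈ (Icc 1 D).filter (fun q => q.Prime ∧ h < q), Real.log q / q * (Real.log D - Real.log q) -
        (9 + A1 h) * ∑ q ∈ (Icc 1 D).filter (fun q => q.Prime ∧ h < q), Real.log q / q := by
    rw [mul_sum, ← sum_sub_distrib]
    apply sum_congr rfl
    intro q _
    ring
  have h4 : ∑ q ∈ (Icc 1 D).filter (fun q => q.Prime ∧ h < q), Real.log q / q ≤ A1 D := by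
    unfold A1
    apply sum_le_sum_of_subset_of_nonneg
    · intro q hq
      rw [mem_filter] at hq ⊢
      exact ⟨hq.1, hq.2.1⟩
    · intro q _ _
      exact div_nonneg (Real.log_natCast_nonneg _) (Nat.cast_nonneg _)
  have h5 := A1_le D hD
  have h6 : Real.log 4 ≤ 2 := by
    have : Real.log 4 = 2 * Real.log 2 := by
      rw [show (4 : ℝ) = 2 ^ 2 by norm_num, Real.log_pow]; norm_num
    have := Real.log_two_lt_d9
    linarith
  have h7 := FF_lower D hD
  have h8 : (9 + A1 h) * ∑ q ∈ (Icc 1 D).filter (fun q => q.Prime ∧ h < q), Real.log q / q ≤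
      (9 + A1 h) * (Real.log D + 2) := mul_le_mul_of_nonneg_left (by linarith) (by linarith)
  rw [h3]
  nlinarith [mul_nonneg hA hlD]

/-- the number of the primes `p ≤ X` with `q ∣ p + h₁`, `r ∣ p + h₂` -/
def cnt2 (h1 h2 X q r : ℕ) : ℕ := ((Icc 1 X).filter (fun p => p.Prime ∧ q ∣ p + h1 ∧ r ∣ p + h2)).card

/-- the class of `p` modulo `q r` -/
def cls (h1 h2 q r : ℕ) : ℕ := if hc : Nat.Coprime q r then (Nat.chineseRemainder hc ((q - 1) * h1) ((r - 1) * h2) : ℕ)
  else 1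

theorem cls_spec {h1 h2 q r : ℕ} (hc : Nat.Coprime q r) : cls h1 h2 q r ≡ (q - 1) * h1 [MOD q] ∧
    cls h1 h2 q r ≡ (r - 1) * h2 [MOD r] := by
  unfold cls
  rw [dif_pos hc]
  exact (Nat.chineseRemainder hc ((q - 1) * h1) ((r - 1) * h2)).2

theorem cls_cop {h1 h2 q r : ℕ} (hq : q.Prime) (hr : r.Prime) (hqr : q ≠ r) (hq1 : ¬ q ∣ h1) (hr2 : ¬ r ∣ h2) :
    Nat.Coprime (cls h1 h2 q r) (q * r) := by
  have hc : Nat.Coprime q r := (Nat.coprime_primes hq hr).2 hqr
  obtain ⟨a1, a2⟩ := cls_spec (h1 := h1) (h2 := h2) hc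
  apply Nat.Coprime.mul_right
  · unfold Nat.Coprime
    rw [a1.gcd_eq]
    have h3 : Nat.Coprime h1 q := ((Nat.Prime.coprime_iff_not_dvd hq).2 hq1).symm
    have := bb_cop h1 q hq.one_lt.le
    unfold bb at this
    rw [if_pos h3] at this
    exact this
  · unfold Nat.Coprime
    rw [a2.gcd_eq]
    have h3 : Nat.Coprime h2 r := ((Nat.Prime.coprime_iff_not_dvd hr).2 hr2).symm
    have := bb_cop h2 r hr.one_lt.le
    unfold bb at this
    rw [if_pos h3] at this
    exact this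

theorem cnt2_eq {h1 h2 q r : ℕ} (X : ℕ) (hq : q.Prime) (hr : r.Prime) (hqr : q ≠ r) :
    (cnt2 h1 h2 X q r : ℝ) = (piN X : ℝ) / (Nat.totient (q * r) : ℝ) + Er X (q * r) (cls h1 h2 q r) := by
  have hc : Nat.Coprime q r := (Nat.coprime_primes hq hr).2 hqr
  obtain ⟨a1, a2⟩ := cls_spec (h1 := h1) (h2 := h2) hc
  have : cnt2 h1 h2 X q r = piAP X (q * r) (cls h1 h2 q r) := by
    unfold cnt2 piAP
    congr 1
    apply filter_congr
    intro p _
    rw [← Nat.modEq_and_modEq_iff_modEq_mul hc]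
    constructor
    · rintro ⟨c1, c2, c3⟩
      exact ⟨c1, ((modEq_iff h1 q p hq.one_lt.le).2 c2).trans a1.symm, ((modEq_iff h2 r p hr.one_lt.le).2 c3).trans a2.symm⟩
    · rintro ⟨c1, c2, c3⟩
      exact ⟨c1, (modEq_iff h1 q p hq.one_lt.le).1 (c2.trans a1), (modEq_iff h2 r p hr.one_lt.le).1 (c3.trans a2)⟩
  rw [this]
  unfold Er
  ring

theorem minFac_mul {q r : ℕ} (hq : q.Prime) (hr : r.Prime) (hqr : q < r) : (q * r).minFac = q := by
  have h1 : (q * r).minFac.Prime := Nat.minFac_prime (by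
    have := hq.two_le
    have := hr.two_le
    nlinarith)
  have h2 : (q * r).minFac ∣ q * r := Nat.minFac_dvd _
  have h3 : (q * r).minFac ≤ q := Nat.minFac_le_of_dvd hq.two_le (dvd_mul_right q r)
  rcases (Nat.Prime.dvd_mul h1).1 h2 with h4 | h4
  · exact (Nat.prime_dvd_prime_iff_eq h1 hq).1 h4
  · have := (Nat.prime_dvd_prime_iff_eq h1 hr).1 h4
    omega

/-- the classes for the moduli `m = q r`, `q < r` -/
def clsA (h1 h2 m : ℕ) : ℕ := if m.minFac.Prime ∧ (m / m.minFac).Prime ∧ m.minFac ≠ m / m.minFac ∧ ¬ m.minFac ∣ h1 ∧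
  ¬ (m / m.minFac) ∣ h2 then cls h1 h2 m.minFac (m / m.minFac) else 1

/-- the classes for the moduli `m = q r`, `q > r` -/
def clsB (h1 h2 m : ℕ) : ℕ := if m.minFac.Prime ∧ (m / m.minFac).Prime ∧ m.minFac ≠ m / m.minFac ∧
  ¬ (m / m.minFac) ∣ h1 ∧ ¬ m.minFac ∣ h2 then cls h1 h2 (m / m.minFac) m.minFac else 1

theorem clsA_cop (h1 h2 m : ℕ) : Nat.Coprime (clsA h1 h2 m) m := by
  unfold clsA
  split_ifs with hc
  · have := cls_cop hc.1 hc.2.1 hc.2.2.1 hc.2.2.2.1 hc.2.2.2.2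
    rwa [Nat.mul_div_cancel' (Nat.minFac_dvd m)] at this
  · exact Nat.coprime_one_left m

theorem clsB_cop (h1 h2 m : ℕ) : Nat.Coprime (clsB h1 h2 m) m := by
  unfold clsB
  split_ifs with hc
  · have := cls_cop hc.2.1 hc.1 (Ne.symm hc.2.2.1) hc.2.2.2.1 hc.2.2.2.2
    rwa [Nat.div_mul_cancel (Nat.minFac_dvd m)] at this
  · exact Nat.coprime_one_left m

theorem clsA_eq {h1 h2 q r : ℕ} (hq : q.Prime) (hr : r.Prime) (hqr : q < r) (hq1 : ¬ q ∣ h1) (hr2 : ¬ r ∣ h2) :
    clsA h1 h2 (q * r) = cls h1 h2 q r := by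
  unfold clsA
  rw [minFac_mul hq hr hqr, Nat.mul_div_cancel_left r hq.pos, if_pos ⟨hq, hr, hqr.ne, hq1, hr2⟩]

theorem clsB_eq {h1 h2 q r : ℕ} (hq : q.Prime) (hr : r.Prime) (hqr : r < q) (hq1 : ¬ q ∣ h1) (hr2 : ¬ r ∣ h2) :
    clsB h1 h2 (q * r) = cls h1 h2 q r := by
  unfold clsB
  rw [mul_comm q r, minFac_mul hr hq hqr, Nat.mul_div_cancel_left q hr.pos, if_pos ⟨hr, hq, hqr.ne, hq1, hr2⟩]

end Pool.Agent.K4H50.TM
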