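import Pool.Agent.K4H50.TM.C4

/-!
# Pairs of small prime factors of `p + h₁` and `p + h₂`: the lower bound
-/

set_option autoImplicit false

namespace Pool.Agent.K4H50.TM

open Finset Filter Topology
open Pool.Agent.H442R2.KF (piN piAP Er bvY)
open ArithmeticFunction (vonMangoldt)
open Pool.Agent.Helper559 (A1 A1_le le_A1)

theorem mem_PP {h D : ℕ} {x : ℕ × ℕ} (hx : x ∈ PP h D) : 1 ≤ x.1 ∧ x.1 ≤ D ∧ 1 ≤ x.2 ∧ x.2 ≤ D ∧
    x.1.Prime ∧ x.2.Prime ∧ h < x.1 ∧ h < x.2 ∧ x.1 ≠ x.2 ∧ x.1 * x.2 ≤ D := by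
  unfold PP at hx
  rw [mem_filter, mem_product, mem_Icc, mem_Icc] at hx
  exact ⟨hx.1.1.1, hx.1.1.2, hx.1.2.1, hx.1.2.2, hx.2⟩

theorem Er_sum (X D : ℕ) (a : ℕ → ℕ) (c : ℕ → ℕ → ℕ) (s : Finset (ℕ × ℕ))
    (hs : ∀ x ∈ s, 1 ≤ x.1 * x.2 ∧ x.1 * x.2 ≤ D ∧ c x.1 x.2 = a (x.1 * x.2))
    (hi : Set.InjOn (fun x : ℕ × ℕ => x.1 * x.2) s) :
    ∑ x ∈ s, |Er X (x.1 * x.2) (c x.1 x.2)| ≤ ∑ m ∈ Icc 1 D, |Er X m (a m)| := by
  calc _ = ∑ x ∈ s, |Er X (x.1 * x.2) (a (x.1 * x.2))| := by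
        apply sum_congr rfl
        intro x hx
        rw [(hs x hx).2.2]
    _ = ∑ m ∈ s.image (fun x : ℕ × ℕ => x.1 * x.2), |Er X m (a m)| := by
        rw [sum_image hi]
    _ ≤ _ := by
        apply sum_le_sum_of_subset_of_nonneg
        · intro m hm
          rw [mem_image] at hm
          obtain ⟨x, hx, rfl⟩ := hm
          rw [mem_Icc]
          exact ⟨(hs x hx).1, (hs x hx).2.1⟩
        · intro m _ _; exact abs_nonneg _

theorem PP_Er (h1 h2 : ℕ) (h0 : 0 < h1) (h : h1 < h2) (X D : ℕ) :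
    ∑ x ∈ PP h2 D, |Er X (x.1 * x.2) (cls h1 h2 x.1 x.2)| ≤
      ∑ m ∈ Icc 1 D, |Er X m (clsA h1 h2 m)| + ∑ m ∈ Icc 1 D, |Er X m (clsB h1 h2 m)| := by
  have hnd : ∀ x ∈ PP h2 D, ¬ x.1 ∣ h1 ∧ ¬ x.2 ∣ h2 := by
    intro x hx
    obtain ⟨a1, a2, a3, a4, a5, a6, a7, a8, a9, a10⟩ := mem_PP hx
    exact ⟨fun h' => by have := Nat.le_of_dvd h0 h'; omega, fun h' => by have := Nat.le_of_dvd (by omega) h'; omega⟩
  rw [← sum_filter_add_sum_filter_not (PP h2 D) (fun x => x.1 < x.2)]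
  apply add_le_add
  · apply Er_sum
    · intro x hx
      rw [mem_filter] at hx
      obtain ⟨a1, a2, a3, a4, a5, a6, a7, a8, a9, a10⟩ := mem_PP hx.1
      exact ⟨Nat.mul_pos a1 a3, a10, (clsA_eq a5 a6 hx.2 (hnd x hx.1).1 (hnd x hx.1).2).symm⟩
    · intro x hx y hy hxy
      rw [mem_coe, mem_filter] at hx hy
      obtain ⟨a1, a2, a3, a4, a5, a6, a7, a8, a9, a10⟩ := mem_PP hx.1
      obtain ⟨b1, b2, b3, b4, b5, b6, b7, b8, b9, b10⟩ := mem_PP hy.1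
      have e1 := minFac_mul a5 a6 hx.2
      have e2 := minFac_mul b5 b6 hy.2
      have e : x.1 * x.2 = y.1 * y.2 := hxy
      rw [e, e2] at e1
      rw [← e1] at e
      exact Prod.ext e1.symm (Nat.eq_of_mul_eq_mul_left b1 e)
  · apply Er_sum
    · intro x hx
      rw [mem_filter] at hx
      obtain ⟨a1, a2, a3, a4, a5, a6, a7, a8, a9, a10⟩ := mem_PP hx.1
      exact ⟨Nat.mul_pos a1 a3, a10, (clsB_eq a5 a6 (by omega) (hnd x hx.1).1 (hnd x hx.1).2).symm⟩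
    · intro x hx y hy hxy
      rw [mem_coe, mem_filter] at hx hy
      obtain ⟨a1, a2, a3, a4, a5, a6, a7, a8, a9, a10⟩ := mem_PP hx.1
      obtain ⟨b1, b2, b3, b4, b5, b6, b7, b8, b9, b10⟩ := mem_PP hy.1
      have e1 := minFac_mul a6 a5 (by omega)
      have e2 := minFac_mul b6 b5 (by omega)
      have e : x.2 * x.1 = y.2 * y.1 := by rw [mul_comm x.2, mul_comm y.2]; exact hxy
      rw [e, e2] at e1
      rw [← e1] at e
      exact Prod.ext (Nat.eq_of_mul_eq_mul_left b3 e) e1.symm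

theorem Z_lower (h1 h2 : ℕ) (h0 : 0 < h1) (h : h1 < h2) : ∀ δ : ℝ, 0 < δ → δ ≤ 1 / 8 → ∀ ε : ℝ, 0 < ε →
    ∀ᶠ X : ℕ in atTop, (1 / 8 - δ / 2 - ε) * (X * Real.log X) ≤
      ∑ x ∈ PP h2 ⌊(X : ℝ) ^ (1 / 2 - δ)⌋₊, Real.log x.1 * Real.log x.2 * (cnt2 h1 h2 X x.1 x.2 : ℝ) := by
  intro δ hδ hδ8 ε hε
  obtain ⟨C1, hC1, hS⟩ := PP_sum h2
  obtain ⟨C2, hC2, hbv⟩ := bvY (1 / 2 - δ) (by linarith) 4
  filter_upwards [pi_lower ε hε, log_inf ((1 + 2 * C1 + 4 * C2) / ε), log_inf (16 * (1 / 2 + C1)), log_inf 2,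
    rpow_inf (1 / 2 - δ) (by linarith) 2, eventually_ge_atTop 3] with X e1 e2 e3 e4 e5 e6
  have hX3 : (3 : ℝ) ≤ X := by exact_mod_cast e6
  have hX0 : (0 : ℝ) < X := by linarith
  have hX1 : (1 : ℝ) ≤ X := by linarith
  obtain ⟨L, hL⟩ : ∃ L, L = Real.log (X : ℝ) := ⟨_, rfl⟩
  rw [← hL] at e1 e2 e3 e4 ⊢
  have hL0 : 0 < L := by linarith
  obtain ⟨D, hD⟩ : ∃ D, D = ⌊(X : ℝ) ^ (1 / 2 - δ)⌋₊ := ⟨_, rfl⟩
  rw [← hD]
  have hDle : (D : ℝ) ≤ (X : ℝ) ^ (1 / 2 - δ) := by rw [hD]; exact Nat.floor_le (by positivity)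
  have hDge : (X : ℝ) ^ (1 / 2 - δ) < D + 1 := by rw [hD]; exact Nat.lt_floor_add_one _
  have hD1r : (1 : ℝ) < D := by linarith
  have hD1 : 1 ≤ D := by exact_mod_cast hD1r.le
  have hXhalf : (X : ℝ) ^ (1 / 2 - δ) ≤ (X : ℝ) ^ (1 / 2 : ℝ) := Real.rpow_le_rpow_of_exponent_le hX1 (by linarith)
  have hDX : D ≤ X := by
    have : (D : ℝ) ≤ X := by
      calc (D : ℝ) ≤ (X : ℝ) ^ (1 / 2 - δ) := hDle
        _ ≤ (X : ℝ) ^ (1 : ℝ) := Real.rpow_le_rpow_of_exponent_le hX1 (by linarith)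
        _ = X := Real.rpow_one _
    exact_mod_cast this
  have hlogD : Real.log D ≤ 1 / 2 * L := by
    calc Real.log D ≤ Real.log ((X : ℝ) ^ (1 / 2 : ℝ)) := Real.log_le_log (by linarith) (hDle.trans hXhalf)
      _ = 1 / 2 * L := by rw [Real.log_rpow hX0, hL]
  have hlogD2 : (1 / 2 - δ) * L - 1 ≤ Real.log D := by
    have h1 : (X : ℝ) ^ (1 / 2 - δ) ≤ 2 * D := by linarith
    have h2 := Real.log_le_log (by positivity) h1
    rw [Real.log_rpow hX0, Real.log_mul (by norm_num) (by linarith), ← hL] at h2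
    have := Real.log_two_lt_d9
    linarith
  -- pointwise
  have ht : ∀ x ∈ PP h2 D, (piN X : ℝ) * (Real.log x.1 / x.1 * (Real.log x.2 / x.2)) -
      L ^ 2 * |Er X (x.1 * x.2) (cls h1 h2 x.1 x.2)| ≤ Real.log x.1 * Real.log x.2 * (cnt2 h1 h2 X x.1 x.2 : ℝ) := by
    intro x hx
    obtain ⟨a1, a2, a3, a4, a5, a6, a7, a8, a9, a10⟩ := mem_PP hx
    rw [cnt2_eq X a5 a6 a9, mul_add]
    have l1 : 0 ≤ Real.log x.1 := Real.log_natCast_nonneg _
    have l2 : 0 ≤ Real.log x.2 := Real.log_natCast_nonneg _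
    have l3 : Real.log x.1 ≤ L := by
      rw [hL]
      exact Real.log_le_log (by exact_mod_cast a1) (by exact_mod_cast a2.trans hDX)
    have l4 : Real.log x.2 ≤ L := by
      rw [hL]
      exact Real.log_le_log (by exact_mod_cast a3) (by exact_mod_cast a4.trans hDX)
    have b1 : (0 : ℝ) < x.1 := by exact_mod_cast a1
    have b2 : (0 : ℝ) < x.2 := by exact_mod_cast a3
    have b3 : (0 : ℝ) < (Nat.totient (x.1 * x.2) : ℝ) := by exact_mod_cast Nat.totient_pos.2 (Nat.mul_pos a1 a3)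
    have b4 : (Nat.totient (x.1 * x.2) : ℝ) ≤ x.1 * x.2 := by exact_mod_cast Nat.totient_le (x.1 * x.2)
    have c1 : (piN X : ℝ) * (Real.log x.1 / x.1 * (Real.log x.2 / x.2)) ≤
        Real.log x.1 * Real.log x.2 * ((piN X : ℝ) / (Nat.totient (x.1 * x.2) : ℝ)) := by
      calc (piN X : ℝ) * (Real.log x.1 / x.1 * (Real.log x.2 / x.2)) =
            Real.log x.1 * Real.log x.2 * ((piN X : ℝ) / (x.1 * x.2)) := by field_simp
        _ ≤ _ := by gcongr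
    have c2 : - (L ^ 2 * |Er X (x.1 * x.2) (cls h1 h2 x.1 x.2)|) ≤
        Real.log x.1 * Real.log x.2 * Er X (x.1 * x.2) (cls h1 h2 x.1 x.2) := by
      have c3 : Real.log x.1 * Real.log x.2 ≤ L ^ 2 := by
        rw [pow_two]
        exact mul_le_mul l3 l4 l2 hL0.le
      have c4 : Real.log x.1 * Real.log x.2 * |Er X (x.1 * x.2) (cls h1 h2 x.1 x.2)| ≤
          L ^ 2 * |Er X (x.1 * x.2) (cls h1 h2 x.1 x.2)| := mul_le_mul_of_nonneg_right c3 (abs_nonneg _)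
      have c5 : - (Real.log x.1 * Real.log x.2 * |Er X (x.1 * x.2) (cls h1 h2 x.1 x.2)|) ≤
          Real.log x.1 * Real.log x.2 * Er X (x.1 * x.2) (cls h1 h2 x.1 x.2) := by
        rw [← mul_neg]
        exact mul_le_mul_of_nonneg_left (neg_abs_le _) (mul_nonneg l1 l2)
      linarith
    linarith
  refine le_trans ?_ (sum_le_sum ht)
  rw [sum_sub_distrib, ← mul_sum, ← mul_sum]
  have h1' := hS D hD1
  have h2' := PP_Er h1 h2 h0 h X D
  have h3a := hbv X e6 X le_rfl (clsA h1 h2) (fun d _ => clsA_cop h1 h2 d)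
  have h3b := hbv X e6 X le_rfl (clsB h1 h2) (fun d _ => clsB_cop h1 h2 d)
  rw [← hD, ← hL] at h3a h3b
  obtain ⟨T, hT⟩ : ∃ T, T = (1 / 8 - δ / 2) * L ^ 2 - (1 / 2 + C1) * L := ⟨_, rfl⟩
  have hT0 : 0 ≤ T := by
    have t1 : 1 / 16 ≤ 1 / 8 - δ / 2 := by linarith
    have t2 : 1 / 16 * L ^ 2 ≤ (1 / 8 - δ / 2) * L ^ 2 := mul_le_mul_of_nonneg_right t1 (by positivity)
    have t3 : 16 * (1 / 2 + C1) * L ≤ L * L := mul_le_mul_of_nonneg_right e3 hL0.le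
    rw [hT]
    nlinarith
  have hTS : T ≤ ∑ x ∈ PP h2 D, Real.log x.1 / x.1 * (Real.log x.2 / x.2) := by
    refine le_trans ?_ h1'
    have t1 : ((1 / 2 - δ) * L - 1) ^ 2 ≤ Real.log D ^ 2 := by
      apply pow_le_pow_left₀ _ hlogD2
      nlinarith
    have t2 : C1 * (1 + Real.log D) ≤ C1 * L := mul_le_mul_of_nonneg_left (by linarith) hC1.le
    have t3 : ((1 / 2 - δ) * L - 1) ^ 2 = (1 / 4 - δ) * L ^ 2 - L + (δ ^ 2 * L ^ 2 + 2 * δ * L + 1) := by ring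
    have t4 : 0 ≤ δ ^ 2 * L ^ 2 + 2 * δ * L + 1 := by positivity
    rw [hT]
    nlinarith
  have h4 : (1 - ε) * X / L * T ≤ (piN X : ℝ) * ∑ x ∈ PP h2 D, Real.log x.1 / x.1 * (Real.log x.2 / x.2) := by
    have t1 : (1 - ε) * X / L ≤ (piN X : ℝ) := by rw [div_le_iff₀ hL0]; exact e1
    calc (1 - ε) * X / L * T ≤ (piN X : ℝ) * T := mul_le_mul_of_nonneg_right t1 hT0
      _ ≤ _ := mul_le_mul_of_nonneg_left hTS (Nat.cast_nonneg _)
  have h5 : L ^ 2 * ∑ x ∈ PP h2 D, |Er X (x.1 * x.2) (cls h1 h2 x.1 x.2)| ≤ 2 * C2 * X := by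
    calc L ^ 2 * ∑ x ∈ PP h2 D, |Er X (x.1 * x.2) (cls h1 h2 x.1 x.2)| ≤ L ^ 2 * (2 * (C2 * (X / L ^ 4))) := by
          apply mul_le_mul_of_nonneg_left _ (by positivity)
          linarith
      _ = 2 * C2 * X / L ^ 2 := by field_simp
      _ ≤ 2 * C2 * X / 1 := by
          apply div_le_div_of_nonneg_left (by positivity) (by norm_num)
          exact one_le_pow₀ (by linarith)
      _ = _ := by ring
  have h6 : (1 - ε) * X / L * T = (1 - ε) * ((1 / 8 - δ / 2) * (X * L)) - (1 - ε) * ((1 / 2 + C1) * X) := by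
    rw [hT]
    field_simp
  have h7 : (1 + 2 * C1 + 4 * C2) * X ≤ ε * (X * L) := by
    rw [div_le_iff₀ hε] at e2
    nlinarith
  have h8 : (1 / 8 - δ / 2) * (X * L) ≤ 1 / 8 * (X * L) := by
    apply mul_le_mul_of_nonneg_right _ (by positivity)
    linarith
  have h9 : ε * ((1 / 8 - δ / 2) * (X * L)) ≤ ε * (1 / 8 * (X * L)) := mul_le_mul_of_nonneg_left h8 hε.le
  have h10 : 0 ≤ ε * ((1 / 2 + C1) * X) := by positivity
  have h11 : 0 ≤ ε * (X * L) := by positivity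
  have h12 : (1 - ε) * ((1 / 8 - δ / 2) * (X * L)) - (1 - ε) * ((1 / 2 + C1) * X) =
      (1 / 8 - δ / 2) * (X * L) - ε * ((1 / 8 - δ / 2) * (X * L)) - (1 / 2 + C1) * X + ε * ((1 / 2 + C1) * X) := by ring
  have h13 : (1 / 8 - δ / 2 - ε) * (X * L) = (1 / 8 - δ / 2) * (X * L) - ε * (X * L) := by ring
  rw [h13]
  have h14 : ε * (1 / 8 * (X * L)) = 1 / 8 * (ε * (X * L)) := by ring
  have h15 : (1 + 2 * C1 + 4 * C2) * (X : ℝ) = 2 * ((1 / 2 + C1) * X) + 2 * (2 * C2 * X) := by ring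
  linarith

theorem log_rpow_small (η : ℝ) (hη : 0 < η) : ∀ᶠ X : ℕ in atTop, Real.log X ≤ η * (X : ℝ) ^ η := by
  filter_upwards [rpow_inf (η / 2) (by positivity) (2 / η ^ 2), eventually_ge_atTop 1] with X e1 e2
  have hX0 : (0 : ℝ) < X := by exact_mod_cast e2
  have h1 := Real.log_le_rpow_div hX0.le (show 0 < η / 2 by positivity)
  have h2 : (X : ℝ) ^ η = (X : ℝ) ^ (η / 2) * (X : ℝ) ^ (η / 2) := by
    rw [← Real.rpow_add hX0]; congr 1; ring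
  calc Real.log X ≤ (X : ℝ) ^ (η / 2) / (η / 2) := h1
    _ = η * (2 / η ^ 2 * (X : ℝ) ^ (η / 2)) := by field_simp
    _ ≤ η * ((X : ℝ) ^ (η / 2) * (X : ℝ) ^ (η / 2)) := by gcongr
    _ = _ := by rw [h2]

theorem LL_lower (h1 h2 : ℕ) (ε : ℝ) (hε : 0 < ε) : ∀ᶠ X : ℕ in atTop, (1 - ε) * (X * Real.log X) ≤
    ∑ p ∈ (Icc 1 X).filter Nat.Prime, Real.log ((p + h1 : ℕ) : ℝ) * Real.log ((p + h2 : ℕ) : ℝ) := by
  obtain ⟨η, hη⟩ : ∃ η : ℝ, η = min (1 / 4) (ε / 4) := ⟨_, rfl⟩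
  have hη0 : 0 < η := by rw [hη]; positivity
  have hη1 : η ≤ 1 / 4 := by rw [hη]; exact min_le_left _ _
  have hηε : 4 * η ≤ ε := by have : η ≤ ε / 4 := by rw [hη]; exact min_le_right _ _
                             linarith
  filter_upwards [pi_lower η hη0, log_rpow_small η hη0, log_inf 1, eventually_ge_atTop 1] with X e1 e2 e3 e4
  have hX1 : (1 : ℝ) ≤ X := by exact_mod_cast e4
  have hX0 : (0 : ℝ) < X := by linarith
  obtain ⟨L, hL⟩ : ∃ L, L = Real.log (X : ℝ) := ⟨_, rfl⟩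
  rw [← hL] at e1 e2 e3 ⊢
  have hL0 : 0 < L := by linarith
  obtain ⟨M, hM⟩ : ∃ M, M = ⌊(X : ℝ) ^ (1 - η)⌋₊ := ⟨_, rfl⟩
  have hMle : (M : ℝ) ≤ (X : ℝ) ^ (1 - η) := by rw [hM]; exact Nat.floor_le (by positivity)
  have hMge : (X : ℝ) ^ (1 - η) < M + 1 := by rw [hM]; exact Nat.lt_floor_add_one _
  obtain ⟨s, hs⟩ : ∃ s, s = ((Icc 1 X).filter Nat.Prime).filter (fun p => M < p) := ⟨_, rfl⟩
  have hcard : (piN X : ℝ) - M ≤ s.card := by
    have h3 : piN X ≤ s.card + M := by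
      unfold piN
      rw [← card_filter_add_card_filter_not (s := (Icc 1 X).filter Nat.Prime) (fun p => M < p), ← hs]
      apply Nat.add_le_add_left
      calc _ ≤ (Icc 1 M).card := by
            apply card_le_card
            intro p hp
            rw [mem_filter, mem_filter, mem_Icc] at hp
            rw [mem_Icc]
            exact ⟨hp.1.1.1, by omega⟩
        _ = M := by simp
    have h4 : (piN X : ℝ) ≤ s.card + M := by exact_mod_cast h3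
    linarith
  have hMX : (M : ℝ) * L ≤ η * X := by
    calc (M : ℝ) * L ≤ (X : ℝ) ^ (1 - η) * (η * (X : ℝ) ^ η) := mul_le_mul hMle e2 hL0.le (by positivity)
      _ = η * ((X : ℝ) ^ (1 - η) * (X : ℝ) ^ η) := by ring
      _ = η * X := by
          rw [← Real.rpow_add hX0, sub_add_cancel, Real.rpow_one]
  have hcard2 : (1 - 2 * η) * X ≤ s.card * L := by
    have := mul_le_mul_of_nonneg_right hcard hL0.le
    rw [sub_mul] at this
    linarith
  have hterm : ∀ p ∈ s, (1 - η) ^ 2 * L ^ 2 ≤ Real.log ((p + h1 : ℕ) : ℝ) * Real.log ((p + h2 : ℕ) : ℝ) := by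
    intro p hp
    rw [hs, mem_filter, mem_filter, mem_Icc] at hp
    have hp1 : (X : ℝ) ^ (1 - η) ≤ p := by
      have : (M : ℝ) + 1 ≤ p := by exact_mod_cast hp.2
      linarith
    have key : ∀ k : ℕ, (1 - η) * L ≤ Real.log ((p + k : ℕ) : ℝ) := by
      intro k
      calc (1 - η) * L = Real.log ((X : ℝ) ^ (1 - η)) := by rw [Real.log_rpow hX0, hL]
        _ ≤ Real.log ((p + k : ℕ) : ℝ) := by
            apply Real.log_le_log (by positivity)
            push_cast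
            have : (0 : ℝ) ≤ k := Nat.cast_nonneg k
            linarith
    calc (1 - η) ^ 2 * L ^ 2 = ((1 - η) * L) * ((1 - η) * L) := by ring
      _ ≤ _ := by
          apply mul_le_mul (key h1) (key h2)
          · apply mul_nonneg (by linarith) hL0.le
          · exact Real.log_natCast_nonneg _
  have h5 : (s.card : ℝ) * ((1 - η) ^ 2 * L ^ 2) ≤
      ∑ p ∈ (Icc 1 X).filter Nat.Prime, Real.log ((p + h1 : ℕ) : ℝ) * Real.log ((p + h2 : ℕ) : ℝ) := by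
    calc (s.card : ℝ) * ((1 - η) ^ 2 * L ^ 2) = ∑ p ∈ s, (1 - η) ^ 2 * L ^ 2 := by rw [sum_const, nsmul_eq_mul]
      _ ≤ ∑ p ∈ s, Real.log ((p + h1 : ℕ) : ℝ) * Real.log ((p + h2 : ℕ) : ℝ) := sum_le_sum hterm
      _ ≤ _ := by
          apply sum_le_sum_of_subset_of_nonneg
          · rw [hs]; exact filter_subset _ _
          · intro p _ _
            exact mul_nonneg (Real.log_natCast_nonneg _) (Real.log_natCast_nonneg _)
  refine le_trans ?_ h5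
  have h6 : (s.card : ℝ) * ((1 - η) ^ 2 * L ^ 2) = (s.card * L) * ((1 - η) ^ 2 * L) := by ring
  rw [h6]
  calc (1 - ε) * (X * L) ≤ ((1 - 2 * η) * X) * ((1 - η) ^ 2 * L) := by
        have h7 : (1 - ε) ≤ (1 - 2 * η) * (1 - η) ^ 2 := by nlinarith [pow_pos hη0 2, pow_pos hη0 3]
        calc (1 - ε) * (X * L) ≤ ((1 - 2 * η) * (1 - η) ^ 2) * (X * L) := mul_le_mul_of_nonneg_right h7 (by positivity)
          _ = _ := by ring
    _ ≤ _ := mul_le_mul_of_nonneg_right hcard2 (by positivity)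

end Pool.Agent.K4H50.TM
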