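import Pool.Agent.K4H50.TM.C5
import Pool.Agent.K4H50.TM.B2

/-!
# The large prime factors of `p + h₁` and `p + h₂`: the lower bound
-/

set_option autoImplicit false

namespace Pool.Agent.K4H50.TM

open Finset Filter Topology
open Pool.Agent.H442R2.KF (piN piAP Er bvY)
open ArithmeticFunction (vonMangoldt)

/-- the contribution of the small primes -/
noncomputable def yl (h D p : ℕ) : ℝ := ∑ q ∈ (Icc 1 D).filter (fun q => q.Prime ∧ q ∣ p + h), Real.log q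

theorem yl_nonneg (h D p : ℕ) : 0 ≤ yl h D p := sum_nonneg fun _ _ => Real.log_natCast_nonneg _

theorem yl_le (X h D B p : ℕ) (hp : 1 ≤ p) (hpX : p ≤ X) (hDB : D ≤ B) (hDX : D ≤ X) :
    yl h D p ≤ Real.log ((p + h : ℕ) : ℝ) - Xl X h B p := by
  rw [log_eq X h p hp hpX]
  unfold yl Xl
  have e1 : ∑ q ∈ (Icc 1 D).filter (fun q => q.Prime ∧ q ∣ p + h), Real.log q =
      ∑ q ∈ (Icc 1 D).filter (fun q => q.Prime ∧ q ∣ p + h), vonMangoldt q := by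
    apply sum_congr rfl
    intro q hq
    rw [ArithmeticFunction.vonMangoldt_apply_prime (mem_filter.1 hq).2.1]
  have e2 : ∑ q ∈ (Icc 1 (X + h)).filter (fun q => B < q ∧ q.Prime ∧ q ∣ p + h), Real.log q =
      ∑ q ∈ (Icc 1 (X + h)).filter (fun q => B < q ∧ q.Prime ∧ q ∣ p + h), vonMangoldt q := by
    apply sum_congr rfl
    intro q hq
    rw [ArithmeticFunction.vonMangoldt_apply_prime (mem_filter.1 hq).2.2.1]
  rw [e1, e2, le_sub_iff_add_le, ← sum_union]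
  · apply sum_le_sum_of_subset_of_nonneg
    · intro q hq
      rw [mem_union, mem_filter, mem_filter, mem_Icc, mem_Icc] at hq
      rw [mem_filter, mem_Icc]
      rcases hq with ⟨⟨a1, a2⟩, a3, a4⟩ | ⟨⟨a1, a2⟩, a3, a4, a5⟩
      · exact ⟨⟨a1, by omega⟩, a4⟩
      · exact ⟨⟨a1, a2⟩, a5⟩
    · intro q _ _
      exact ArithmeticFunction.vonMangoldt_nonneg
  · rw [disjoint_left]
    intro q hq hq'
    rw [mem_filter, mem_Icc] at hq hq'
    omega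

theorem PP_point (h1 h2 D p : ℕ) :
    ∑ x ∈ (PP h2 D).filter (fun x => x.1 ∣ p + h1 ∧ x.2 ∣ p + h2), Real.log x.1 * Real.log x.2 ≤ yl h1 D p * yl h2 D p := by
  unfold yl
  rw [sum_mul_sum, ← sum_product']
  apply sum_le_sum_of_subset_of_nonneg
  · intro x hx
    rw [mem_filter] at hx
    obtain ⟨a1, a2, a3, a4, a5, a6, a7, a8, a9, a10⟩ := mem_PP hx.1
    rw [mem_product, mem_filter, mem_filter, mem_Icc, mem_Icc]
    exact ⟨⟨⟨a1, a2⟩, a5, hx.2.1⟩, ⟨⟨a3, a4⟩, a6, hx.2.2⟩⟩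
  · intro x _ _
    exact mul_nonneg (Real.log_natCast_nonneg _) (Real.log_natCast_nonneg _)

theorem PP_swap (h1 h2 X D : ℕ) :
    ∑ p ∈ (Icc 1 X).filter Nat.Prime, ∑ x ∈ (PP h2 D).filter (fun x => x.1 ∣ p + h1 ∧ x.2 ∣ p + h2),
      Real.log x.1 * Real.log x.2 = ∑ x ∈ PP h2 D, Real.log x.1 * Real.log x.2 * (cnt2 h1 h2 X x.1 x.2 : ℝ) := by
  have e : ∀ p ∈ (Icc 1 X).filter Nat.Prime, ∑ x ∈ (PP h2 D).filter (fun x => x.1 ∣ p + h1 ∧ x.2 ∣ p + h2),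
      Real.log x.1 * Real.log x.2 = ∑ x ∈ PP h2 D, if x.1 ∣ p + h1 ∧ x.2 ∣ p + h2 then Real.log x.1 * Real.log x.2 else 0 :=
    fun p _ => by rw [sum_filter]
  rw [sum_congr rfl e, sum_comm]
  apply sum_congr rfl
  intro x _
  unfold cnt2
  rw [← sum_filter, sum_const, nsmul_eq_mul, mul_comm, filter_filter]

theorem XX_lower (h1 h2 : ℕ) (h0 : 0 < h1) (h : h1 < h2) : ∀ δ : ℝ, 0 < δ → δ ≤ 1 / 8 →
    ∀ᶠ X : ℕ in atTop, (1 / 8 - 1409 * δ) * (X * Real.log X) ≤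
      ∑ p ∈ (Icc 1 X).filter Nat.Prime, Xl X h1 ⌊2 * (X : ℝ) ^ (1 / 2 + δ)⌋₊ p * Xl X h2 ⌊2 * (X : ℝ) ^ (1 / 2 + δ)⌋₊ p := by
  intro δ hδ hδ8
  obtain ⟨ε, hε⟩ : ∃ ε : ℝ, ε = δ / 16 := ⟨_, rfl⟩
  have hε0 : 0 < ε := by rw [hε]; positivity
  filter_upwards [LL_lower h1 h2 ε hε0, Z_lower h1 h2 h0 h δ hδ hδ8 ε hε0, Y_upper h1 δ hδ hδ8 ε hε0,
    Y_upper h2 δ hδ hδ8 ε hε0, log_inf (712 / δ), eventually_ge_atTop h2, eventually_ge_atTop 3]
    with X e1 e2 e3 e4 e5 e6 e7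
  have hX3 : (3 : ℝ) ≤ X := by exact_mod_cast e7
  have hX0 : (0 : ℝ) < X := by linarith
  have hX1 : (1 : ℝ) ≤ X := by linarith
  obtain ⟨L, hL⟩ : ∃ L, L = Real.log (X : ℝ) := ⟨_, rfl⟩
  obtain ⟨D, hD⟩ : ∃ D, D = ⌊(X : ℝ) ^ (1 / 2 - δ)⌋₊ := ⟨_, rfl⟩
  obtain ⟨B, hB⟩ : ∃ B, B = ⌊2 * (X : ℝ) ^ (1 / 2 + δ)⌋₊ := ⟨_, rfl⟩
  rw [← hL] at e1 e2 e5 ⊢
  rw [← hD] at e2
  rw [← hB] at e3 e4 ⊢
  have hL0 : 0 < L := lt_of_lt_of_le (by positivity) e5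
  have hDB : D ≤ B := by
    rw [hD, hB]
    apply Nat.floor_le_floor
    have h3 : (X : ℝ) ^ (1 / 2 - δ) ≤ (X : ℝ) ^ (1 / 2 + δ) := Real.rpow_le_rpow_of_exponent_le hX1 (by linarith)
    have h4 : 0 < (X : ℝ) ^ (1 / 2 + δ) := by positivity
    linarith
  have hDX : D ≤ X := by
    have : (D : ℝ) ≤ X := by
      calc (D : ℝ) ≤ (X : ℝ) ^ (1 / 2 - δ) := by rw [hD]; exact Nat.floor_le (by positivity)
        _ ≤ (X : ℝ) ^ (1 : ℝ) := Real.rpow_le_rpow_of_exponent_le hX1 (by linarith)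
        _ = X := Real.rpow_one _
    exact_mod_cast this
  have hM : ∀ p : ℕ, 1 ≤ p → p ≤ X → ∀ k : ℕ, k ≤ h2 → Real.log ((p + k : ℕ) : ℝ) ≤ L + 1 := by
    intro p hp hpX k hk
    have h3 : ((p + k : ℕ) : ℝ) ≤ 2 * X := by
      have : p + k ≤ 2 * X := by omega
      exact_mod_cast this
    have h4 : Real.log ((p + k : ℕ) : ℝ) ≤ Real.log (2 * X) :=
      Real.log_le_log (by exact_mod_cast (by omega : 0 < p + k)) h3
    rw [Real.log_mul (by norm_num) (by linarith), ← hL] at h4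
    have := Real.log_two_lt_d9
    linarith
  have hpt : ∀ p ∈ (Icc 1 X).filter Nat.Prime,
      Real.log ((p + h1 : ℕ) : ℝ) * Real.log ((p + h2 : ℕ) : ℝ) -
        (L + 1) * (Real.log ((p + h1 : ℕ) : ℝ) - Xl X h1 B p) - (L + 1) * (Real.log ((p + h2 : ℕ) : ℝ) - Xl X h2 B p) +
        ∑ x ∈ (PP h2 D).filter (fun x => x.1 ∣ p + h1 ∧ x.2 ∣ p + h2), Real.log x.1 * Real.log x.2 ≤
      Xl X h1 B p * Xl X h2 B p := by
    intro p hp
    rw [mem_filter, mem_Icc] at hp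
    have a1 := hM p hp.1.1 hp.1.2 h1 h.le
    have a2 := hM p hp.1.1 hp.1.2 h2 le_rfl
    have a3 := PP_point h1 h2 D p
    have a4 := yl_le X h1 D B p hp.1.1 hp.1.2 hDB hDX
    have a5 := yl_le X h2 D B p hp.1.1 hp.1.2 hDB hDX
    have a6 := yl_nonneg h1 D p
    have a7 := yl_nonneg h2 D p
    obtain ⟨l1, hl1⟩ : ∃ l1, l1 = Real.log ((p + h1 : ℕ) : ℝ) := ⟨_, rfl⟩
    obtain ⟨l2, hl2⟩ : ∃ l2, l2 = Real.log ((p + h2 : ℕ) : ℝ) := ⟨_, rfl⟩
    rw [← hl1] at a1 a4 ⊢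
    rw [← hl2] at a2 a5 ⊢
    obtain ⟨y1, hy1⟩ : ∃ y1, y1 = l1 - Xl X h1 B p := ⟨_, rfl⟩
    obtain ⟨y2, hy2⟩ : ∃ y2, y2 = l2 - Xl X h2 B p := ⟨_, rfl⟩
    have b1 : Xl X h1 B p = l1 - y1 := by rw [hy1]; ring
    have b2 : Xl X h2 B p = l2 - y2 := by rw [hy2]; ring
    rw [b1, b2]
    rw [← hy1] at a4
    rw [← hy2] at a5
    have c1 : yl h1 D p * yl h2 D p ≤ y1 * y2 := mul_le_mul a4 a5 a7 (a6.trans a4)
    have c2 : l2 * y1 ≤ (L + 1) * y1 := mul_le_mul_of_nonneg_right a2 (a6.trans a4)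
    have c3 : l1 * y2 ≤ (L + 1) * y2 := mul_le_mul_of_nonneg_right a1 (a7.trans a5)
    have c4 : (l1 - y1) * (l2 - y2) = l1 * l2 - l1 * y2 - l2 * y1 + y1 * y2 := by ring
    have c5 : l1 - (l1 - y1) = y1 := by ring
    have c6 : l2 - (l2 - y2) = y2 := by ring
    rw [c4, c5, c6]
    linarith
  refine le_trans ?_ (sum_le_sum hpt)
  rw [sum_add_distrib, sum_sub_distrib, sum_sub_distrib, ← mul_sum, ← mul_sum, PP_swap]
  have f1 : (L + 1) * ∑ p ∈ (Icc 1 X).filter Nat.Prime, (Real.log ((p + h1 : ℕ) : ℝ) - Xl X h1 B p) ≤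
      (L + 1) * ((1 / 2 + 704 * δ + ε) * X) := mul_le_mul_of_nonneg_left e3 (by linarith)
  have f2 : (L + 1) * ∑ p ∈ (Icc 1 X).filter Nat.Prime, (Real.log ((p + h2 : ℕ) : ℝ) - Xl X h2 B p) ≤
      (L + 1) * ((1 / 2 + 704 * δ + ε) * X) := mul_le_mul_of_nonneg_left e4 (by linarith)
  have f3 : 712 * X ≤ δ * (X * L) := by
    rw [div_le_iff₀ hδ] at e5
    nlinarith
  have f4 : (1 + 1408 * δ + 2 * ε) * X ≤ 178 * X := by
    apply mul_le_mul_of_nonneg_right _ hX0.le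
    rw [hε]
    linarith
  rw [hε] at e1 e2 f1 f2 f4
  nlinarith

/-- the weighted number of the prime triples with the multipliers `a, b` -/
noncomputable def Wf (h1 h2 X a b : ℕ) : ℝ := ∑ p ∈ Np h1 h2 X a b, Real.log (((p + h1) / a : ℕ) : ℝ) * Real.log (((p + h2) / b : ℕ) : ℝ)

theorem Wf_nonneg (h1 h2 X a b : ℕ) : 0 ≤ Wf h1 h2 X a b :=
  sum_nonneg fun _ _ => mul_nonneg (Real.log_natCast_nonneg _) (Real.log_natCast_nonneg _)

theorem Xl_le_sum (X h B N p : ℕ) (hp : 1 ≤ p) (hpX : p ≤ X) (hN : (X + h) / (B + 1) ≤ N) :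
    Xl X h B p ≤ ∑ a ∈ (Icc 1 N).filter (fun a => a ∣ p + h ∧ ((p + h) / a).Prime), Real.log (((p + h) / a : ℕ) : ℝ) := by
  unfold Xl
  obtain ⟨S, hS⟩ : ∃ S, S = (Icc 1 (X + h)).filter (fun q => B < q ∧ q.Prime ∧ q ∣ p + h) := ⟨_, rfl⟩
  rw [← hS]
  have hne : p + h ≠ 0 := by omega
  have hSm : ∀ q ∈ S, B < q ∧ q.Prime ∧ q ∣ p + h := by
    intro q hq
    rw [hS, mem_filter] at hq
    exact hq.2
  have hinj : Set.InjOn (fun q => (p + h) / q) S := by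
    intro q hq r hr hqr
    have e1 := Nat.div_div_self (hSm q hq).2.2 hne
    have e2 := Nat.div_div_self (hSm r hr).2.2 hne
    have e : (p + h) / q = (p + h) / r := hqr
    rw [← e1, e, e2]
  calc ∑ q ∈ S, Real.log q = ∑ q ∈ S, Real.log (((p + h) / ((p + h) / q) : ℕ) : ℝ) := by
        apply sum_congr rfl
        intro q hq
        rw [Nat.div_div_self (hSm q hq).2.2 hne]
    _ = ∑ a ∈ S.image (fun q => (p + h) / q), Real.log (((p + h) / a : ℕ) : ℝ) := by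
        rw [sum_image hinj]
    _ ≤ _ := by
        apply sum_le_sum_of_subset_of_nonneg
        · intro a ha
          rw [mem_image] at ha
          obtain ⟨q, hq, rfl⟩ := ha
          obtain ⟨c1, c2, c3⟩ := hSm q hq
          rw [mem_filter, mem_Icc]
          refine ⟨⟨Nat.div_pos (Nat.le_of_dvd (by omega) c3) c2.pos, ?_⟩, Nat.div_dvd_of_dvd c3, ?_⟩
          · calc (p + h) / q ≤ (X + h) / q := Nat.div_le_div_right (by omega)
              _ ≤ (X + h) / (B + 1) := Nat.div_le_div_left c1 (by omega)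
              _ ≤ N := hN
          · rw [Nat.div_div_self c3 hne]; exact c2
        · intro a _ _
          exact Real.log_natCast_nonneg _

theorem XX_le_W (h1 h2 X B N : ℕ) (hN1 : (X + h1) / (B + 1) ≤ N) (hN2 : (X + h2) / (B + 1) ≤ N) :
    ∑ p ∈ (Icc 1 X).filter Nat.Prime, Xl X h1 B p * Xl X h2 B p ≤
      ∑ a ∈ Icc 1 N, ∑ b ∈ Icc 1 N, Wf h1 h2 X a b := by
  have e1 : ∑ p ∈ (Icc 1 X).filter Nat.Prime, Xl X h1 B p * Xl X h2 B p ≤
      ∑ p ∈ (Icc 1 X).filter Nat.Prime, ∑ a ∈ Icc 1 N, ∑ b ∈ Icc 1 N,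
        (if (a ∣ p + h1 ∧ ((p + h1) / a).Prime) ∧ (b ∣ p + h2 ∧ ((p + h2) / b).Prime) then
          Real.log (((p + h1) / a : ℕ) : ℝ) * Real.log (((p + h2) / b : ℕ) : ℝ) else 0) := by
    apply sum_le_sum
    intro p hp
    rw [mem_filter, mem_Icc] at hp
    refine (mul_le_mul (Xl_le_sum X h1 B N p hp.1.1 hp.1.2 hN1) (Xl_le_sum X h2 B N p hp.1.1 hp.1.2 hN2)
      (Xl_nonneg _ _ _ _) (sum_nonneg fun _ _ => Real.log_natCast_nonneg _)).trans ?_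
    rw [sum_mul_sum, sum_filter]
    apply le_of_eq
    apply sum_congr rfl
    intro a _
    split_ifs with ha
    · rw [sum_filter]
      apply sum_congr rfl
      intro b _
      simp only [ha, true_and, and_self]
    · rw [eq_comm]
      apply sum_eq_zero
      intro b _
      rw [if_neg]
      exact fun h' => ha h'.1
  refine e1.trans (le_of_eq ?_)
  rw [sum_comm]
  apply sum_congr rfl
  intro a _
  rw [sum_comm]
  apply sum_congr rfl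
  intro b _
  unfold Wf Np
  rw [← sum_filter, filter_filter]
  apply sum_congr _ (fun _ _ => rfl)
  ext p
  rw [mem_filter, mem_filter]
  tauto

end Pool.Agent.K4H50.TM
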