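import Pool.Agent.K4H50.TM.A3
import Pool.Agent.K4H50.TM.B2

/-!
# The singular series vanishes only for the obvious reason
-/

set_option autoImplicit false

namespace Pool.Agent.K4H50.TM

open Finset Filter Topology

theorem loc_summable (h1 h2 a b : ℕ) (h0 : 0 < h1) (h : h1 < h2) (hr : ∀ l : ℕ, l.Prime → l ∣ h2 - h1 → l ∣ h1)
    (ha : 0 < a) (hb : 0 < b) : Summable (fun l : Nat.Primes => ‖loc h1 h2 l a b - 1‖) := by
  have h24 : Summable (fun l : Nat.Primes => 24 / ((l : ℕ) : ℝ) ^ 2) := by
    have : Summable (fun n : ℕ => 24 / (n : ℝ) ^ 2) := by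
      have := (Real.summable_nat_pow_inv (p := 2)).2 (by norm_num)
      exact (this.mul_left 24).congr fun n => by rw [div_eq_mul_inv]
    exact this.comp_injective Subtype.val_injective
  apply Summable.of_norm_bounded_eventually h24
  have hfin : {l : Nat.Primes | (l : ℕ) ≤ h2 + a + b}.Finite := by
    apply Set.Finite.of_finite_image (f := fun l : Nat.Primes => (l : ℕ))
    · exact (Set.finite_Iic (h2 + a + b)).subset (by rintro _ ⟨l, hl, rfl⟩; exact hl)
    · exact Subtype.val_injective.injOn
  filter_upwards [hfin.compl_mem_cofinite] with l hl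
  have hl' : h2 + a + b < (l : ℕ) := by
    by_contra h'
    exact hl (by simpa using h')
  have e : loc h1 h2 l a b = vv h1 h2 l false false := by
    unfold loc
    rw [decide_eq_false (big_notdvd ha (by omega)), decide_eq_false (big_notdvd hb (by omega))]
  rw [e, norm_norm, Real.norm_eq_abs]
  exact (loc_ff l.2 h0 h (by omega) (hr l l.2)).2

theorem Sg_ne_zero (h1 h2 a b : ℕ) (h0 : 0 < h1) (h : h1 < h2) (hr : ∀ l : ℕ, l.Prime → l ∣ h2 - h1 → l ∣ h1)
    (ha : 0 < a) (hb : 0 < b) (hne : ∀ l : ℕ, l.Prime → loc h1 h2 l a b ≠ 0) : Sg h1 h2 a b ≠ 0 := by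
  have h1' := tprod_one_add_ne_zero_of_summable (f := fun l : Nat.Primes => loc h1 h2 l a b - 1)
    (fun l => by rw [add_sub_cancel]; exact hne l l.2) (loc_summable h1 h2 a b h0 h hr ha hb)
  unfold Sg
  have e : (fun l : Nat.Primes => 1 + (loc h1 h2 l a b - 1)) = fun l : Nat.Primes => loc h1 h2 l a b := by
    funext l; ring
  rwa [e] at h1'

theorem nu_full {h1 h2 l : ℕ} (hl : l.Prime) (h : nu h1 h2 l = l) (p : ℕ) : l ∣ p ∨ l ∣ p + h1 ∨ l ∣ p + h2 := by
  have hsub : (({0, h1, h2} : Finset ℕ).image (· % l)) ⊆ range l := by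
    intro x hx
    rw [mem_image] at hx
    obtain ⟨y, _, rfl⟩ := hx
    exact mem_range.2 (Nat.mod_lt _ hl.pos)
  have heq : (({0, h1, h2} : Finset ℕ).image (· % l)) = range l := by
    apply eq_of_subset_of_card_le hsub
    rw [card_range]
    exact h.ge
  obtain ⟨c, hc⟩ : ∃ c, c = (l - p % l) % l := ⟨_, rfl⟩
  have hcm : c ∈ ({0, h1, h2} : Finset ℕ).image (· % l) := by
    rw [heq, mem_range, hc]; exact Nat.mod_lt _ hl.pos
  have key : ∀ y : ℕ, y % l = c → l ∣ p + y := by
    intro y hy
    have h1 : (p + y) % l = 0 := by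
      rw [Nat.add_mod, hy, hc]
      have h2 := Nat.mod_lt p hl.pos
      rcases Nat.eq_zero_or_pos (p % l) with h3 | h3
      · rw [h3]; simp
      · rw [Nat.mod_eq_of_lt (show l - p % l < l by omega)]
        have : p % l + (l - p % l) = l := by omega
        rw [this, Nat.mod_self]
    exact Nat.dvd_of_mod_eq_zero h1
  rw [mem_image] at hcm
  obtain ⟨y, hy, hyc⟩ := hcm
  rw [mem_insert, mem_insert, mem_singleton] at hy
  rcases hy with rfl | rfl | rfl
  · left; simpa using key 0 hyc
  · right; left; exact key _ hyc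
  · right; right; exact key _ hyc

theorem Np_zero (h1 h2 X a b l : ℕ) (h0 : 0 < h1) (h : h1 < h2) (hr : ∀ l : ℕ, l.Prime → l ∣ h2 - h1 → l ∣ h1)
    (hl : l.Prime) (hz : loc h1 h2 l a b = 0) : (Np h1 h2 X a b).card ≤ 3 := by
  have hl2 : (2 : ℝ) ≤ l := by exact_mod_cast hl.two_le
  have hx : (1 : ℝ) - 1 / l ≠ 0 := by
    have : 1 / (l : ℝ) ≤ 1 / 2 := one_div_le_one_div_of_le (by norm_num) hl2
    linarith
  have key : ∀ p ∈ Np h1 h2 X a b, p ∈ ({l, l * a - h1, l * b - h2} : Finset ℕ) := by
    intro p hp
    rw [mem_Np] at hp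
    obtain ⟨_, hpp, d1, d2, q1, q2⟩ := hp
    rw [mem_insert, mem_insert, mem_singleton]
    have hpl : l ∣ p → p = l := fun h' => ((Nat.prime_dvd_prime_iff_eq hl hpp).1 h').symm
    unfold loc at hz
    by_cases ha : l ∣ a
    · left
      apply hpl
      by_cases hb : l ∣ b
      · have d3 : l ∣ h2 - h1 := by
          have e : h2 - h1 = (p + h2) - (p + h1) := by omega
          rw [e]
          exact Nat.dvd_sub (hb.trans d2) (ha.trans d1)
        exact (Nat.dvd_add_left (hr l hl d3)).1 (ha.trans d1)
      · rw [decide_eq_true ha, decide_eq_false hb] at hz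
        unfold vv at hz
        simp only at hz
        split_ifs at hz with hh
        · exact (Nat.dvd_add_left hh).1 (ha.trans d1)
        · exact absurd hz (one_div_ne_zero (pow_ne_zero 2 hx))
    · by_cases hb : l ∣ b
      · left
        apply hpl
        rw [decide_eq_false ha, decide_eq_true hb] at hz
        unfold vv at hz
        simp only at hz
        split_ifs at hz with hh
        · exact (Nat.dvd_add_left hh).1 (hb.trans d2)
        · exact absurd hz (one_div_ne_zero (pow_ne_zero 2 hx))
      · rw [decide_eq_false ha, decide_eq_false hb] at hz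
        unfold vv at hz
        simp only at hz
        have hν : nu h1 h2 l = l := by
          rw [div_eq_zero_iff] at hz
          rcases hz with hz | hz
          · have h3 : (nu h1 h2 l : ℝ) / l = 1 := by linarith
            rw [div_eq_one_iff_eq (by linarith)] at h3
            exact_mod_cast h3
          · exact absurd hz (pow_ne_zero 3 hx)
        rcases nu_full hl hν p with c | c | c
        · left; exact hpl c
        · right; left
          have e1 := Nat.div_mul_cancel d1
          rw [← e1] at c
          rcases (Nat.Prime.dvd_mul hl).1 c with c1 | c1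
          · have := (Nat.prime_dvd_prime_iff_eq hl q1).1 c1
            rw [← this] at e1
            omega
          · exact absurd c1 ha
        · right; right
          have e1 := Nat.div_mul_cancel d2
          rw [← e1] at c
          rcases (Nat.Prime.dvd_mul hl).1 c with c1 | c1
          · have := (Nat.prime_dvd_prime_iff_eq hl q2).1 c1
            rw [← this] at e1
            omega
          · exact absurd c1 hb
  calc (Np h1 h2 X a b).card ≤ ({l, l * a - h1, l * b - h2} : Finset ℕ).card := card_le_card key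
    _ ≤ 3 := card_le_three

theorem Np_Sg_zero (h1 h2 X a b : ℕ) (h0 : 0 < h1) (h : h1 < h2) (hr : ∀ l : ℕ, l.Prime → l ∣ h2 - h1 → l ∣ h1)
    (ha : 0 < a) (hb : 0 < b) (hz : Sg h1 h2 a b = 0) : (Np h1 h2 X a b).card ≤ 3 := by
  by_contra hcon
  apply Sg_ne_zero h1 h2 a b h0 h hr ha hb _ hz
  intro l hl hz'
  exact hcon (Np_zero h1 h2 X a b l h0 h hr hl hz')

end Pool.Agent.K4H50.TM
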