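import Pool.Agent.K4H50.TM.C6
import Pool.Agent.K4H50.TM.E1

/-!
# A positive proportion of the pairs of multipliers
-/

set_option autoImplicit false

namespace Pool.Agent.K4H50.TM

open Finset Filter Topology

theorem Wf_le (h1 h2 X a b : ℕ) (η : ℝ) (hη : 0 < η) (ha : 1 ≤ a) (hb : 1 ≤ b) (hh : h2 ≤ X) (h : h1 < h2)
    (hX : 1 ≤ X) (hla : Real.log a ≤ Real.log X / 2) (hlb : Real.log b ≤ Real.log X / 2) (hL : 2 / η ≤ Real.log X) :
    Wf h1 h2 X a b ≤ (Np h1 h2 X a b).card *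
      ((1 + η) ^ 2 * (Real.log ((X : ℝ) / a) * Real.log ((X : ℝ) / b))) := by
  have hX1 : (1 : ℝ) ≤ X := by exact_mod_cast hX
  rw [div_le_iff₀ hη] at hL
  have key : ∀ (c k p : ℕ), 1 ≤ c → Real.log c ≤ Real.log X / 2 → k ≤ h2 → 1 ≤ p → p ≤ X → c ∣ p + k →
      Real.log (((p + k) / c : ℕ) : ℝ) ≤ (1 + η) * Real.log ((X : ℝ) / c) := by
    intro c k p hc hlc hk hp hpX hd
    have hc0 : (0 : ℝ) < c := by exact_mod_cast hc
    rw [Nat.cast_div hd hc0.ne', Real.log_div (by exact_mod_cast (by omega : p + k ≠ 0)) hc0.ne',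
      Real.log_div (by linarith) hc0.ne']
    have h3 : ((p + k : ℕ) : ℝ) ≤ 2 * X := by
      have : p + k ≤ 2 * X := by omega
      exact_mod_cast this
    have h4 : Real.log ((p + k : ℕ) : ℝ) ≤ Real.log (2 * X) :=
      Real.log_le_log (by exact_mod_cast (by omega : 0 < p + k)) h3
    rw [Real.log_mul (by norm_num) (by linarith)] at h4
    have h5 := Real.log_two_lt_d9
    nlinarith
  unfold Wf
  calc _ ≤ ∑ p ∈ Np h1 h2 X a b, ((1 + η) ^ 2 * (Real.log ((X : ℝ) / a) * Real.log ((X : ℝ) / b))) := by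
        apply sum_le_sum
        intro p hp
        rw [mem_Np] at hp
        have k1 := key a h1 p ha hla h.le hp.1.1 hp.1.2 hp.2.2.1
        have k2 := key b h2 p hb hlb le_rfl hp.1.1 hp.1.2 hp.2.2.2.1
        calc _ ≤ ((1 + η) * Real.log ((X : ℝ) / a)) * ((1 + η) * Real.log ((X : ℝ) / b)) :=
              mul_le_mul k1 k2 (Real.log_natCast_nonneg _) ((Real.log_natCast_nonneg _).trans k1)
          _ = _ := by ring
    _ = _ := by rw [sum_const, nsmul_eq_mul]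

theorem log_div_pos (X a : ℕ) (ha : 1 ≤ a) (hX : 2 ≤ X) (hla : Real.log a ≤ Real.log X / 2) :
    0 < Real.log ((X : ℝ) / a) ∧ Real.log ((X : ℝ) / a) ≤ Real.log X := by
  have hX2 : (2 : ℝ) ≤ X := by exact_mod_cast hX
  have ha0 : (0 : ℝ) < a := by exact_mod_cast ha
  rw [Real.log_div (by linarith) ha0.ne']
  have h1 : 0 < Real.log X := Real.log_pos (by linarith)
  have h2 : 0 ≤ Real.log a := Real.log_natCast_nonneg _
  constructor <;> linarith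

theorem Wf_le2 (h1 h2 X a b : ℕ) (ha : 1 ≤ a) (hb : 1 ≤ b) (hh : h2 ≤ X) (h : h1 < h2)
    (hX : 2 ≤ X) (hla : Real.log a ≤ Real.log X / 2) (hlb : Real.log b ≤ Real.log X / 2) (hL : 2 ≤ Real.log X) :
    Wf h1 h2 X a b ≤ (Np h1 h2 X a b).card * (4 * Real.log X ^ 2) := by
  have h3 := Wf_le h1 h2 X a b 1 one_pos ha hb hh h (by omega) hla hlb (by linarith)
  obtain ⟨a1, a2⟩ := log_div_pos X a ha hX hla
  obtain ⟨b1, b2⟩ := log_div_pos X b hb hX hlb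
  refine h3.trans (mul_le_mul_of_nonneg_left ?_ (Nat.cast_nonneg _))
  have : Real.log ((X : ℝ) / a) * Real.log ((X : ℝ) / b) ≤ Real.log X * Real.log X := mul_le_mul a2 b2 b1.le (by linarith)
  nlinarith

theorem sum_union_le' {ι : Type*} [DecidableEq ι] {s t : Finset ι} (f : ι → ℝ) (hf : ∀ x, 0 ≤ f x) :
    ∑ x ∈ s ∪ t, f x ≤ ∑ x ∈ s, f x + ∑ x ∈ t, f x := by
  have h1 := sum_union_inter (s₁ := s) (s₂ := t) (f := f)
  have h2 : 0 ≤ ∑ x ∈ s ∩ t, f x := sum_nonneg fun x _ => hf x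
  linarith

theorem rho_sum1 : ∃ C : ℝ, 0 < C ∧ (∀ A : ℕ, ∑ a ∈ Icc 1 A, rho a / a ≤ C * (1 + Real.log A)) ∧
    ∀ A : ℕ, ∑ a ∈ Icc 1 A, rho a ^ 2 / a ≤ C * (1 + Real.log A) := by
  obtain ⟨C, hC, h⟩ := rho_sum
  refine ⟨C, hC, fun A => ?_, h⟩
  refine le_trans ?_ (h A)
  apply sum_le_sum
  intro a _
  apply div_le_div_of_nonneg_right _ (Nat.cast_nonneg _)
  have := rho_ge a
  nlinarith

/-- sum over a rectangle of `ρ(a) ρ(b) / (a b)` -/
theorem rho_rect (C : ℝ) (hC : 0 < C) (h : ∀ A : ℕ, ∑ a ∈ Icc 1 A, rho a / a ≤ C * (1 + Real.log A)) (A B : ℕ) :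
    ∑ x ∈ (Icc 1 A) ×ˢ (Icc 1 B), rho x.1 * rho x.2 / ((x.1 : ℝ) * x.2) ≤
      C ^ 2 * ((1 + Real.log A) * (1 + Real.log B)) := by
  have e : ∑ x ∈ (Icc 1 A) ×ˢ (Icc 1 B), rho x.1 * rho x.2 / ((x.1 : ℝ) * x.2) =
      (∑ a ∈ Icc 1 A, rho a / a) * ∑ b ∈ Icc 1 B, rho b / b := by
    rw [sum_mul_sum, sum_product]
    apply sum_congr rfl
    intro a _
    apply sum_congr rfl
    intro b _
    rw [div_mul_div_comm]
  rw [e]
  have hn : ∀ c : ℕ, 0 ≤ rho c / c := fun c => div_nonneg (by have := rho_ge c; linarith) (Nat.cast_nonneg _)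
  calc _ ≤ (C * (1 + Real.log A)) * (C * (1 + Real.log B)) := by
        apply mul_le_mul (h A) (h B) (sum_nonneg fun b _ => hn b)
        exact (sum_nonneg fun b _ => hn b).trans (h A)
    _ = _ := by ring

theorem rho_rect2 (C : ℝ) (hC : 0 < C) (h : ∀ A : ℕ, ∑ a ∈ Icc 1 A, rho a ^ 2 / a ≤ C * (1 + Real.log A)) (A B : ℕ) :
    ∑ x ∈ (Icc 1 A) ×ˢ (Icc 1 B), (rho x.1 * rho x.2) ^ 2 / ((x.1 : ℝ) * x.2) ≤
      C ^ 2 * ((1 + Real.log A) * (1 + Real.log B)) := by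
  have e : ∑ x ∈ (Icc 1 A) ×ˢ (Icc 1 B), (rho x.1 * rho x.2) ^ 2 / ((x.1 : ℝ) * x.2) =
      (∑ a ∈ Icc 1 A, rho a ^ 2 / a) * ∑ b ∈ Icc 1 B, rho b ^ 2 / b := by
    rw [sum_mul_sum, sum_product]
    apply sum_congr rfl
    intro a _
    apply sum_congr rfl
    intro b _
    rw [div_mul_div_comm, mul_pow]
  rw [e]
  have hn : ∀ c : ℕ, 0 ≤ rho c ^ 2 / c := fun c => div_nonneg (by positivity) (Nat.cast_nonneg _)
  calc _ ≤ (C * (1 + Real.log A)) * (C * (1 + Real.log B)) := by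
        apply mul_le_mul (h A) (h B) (sum_nonneg fun b _ => hn b)
        exact (sum_nonneg fun b _ => hn b).trans (h A)
    _ = _ := by ring

/-- the predicted number of the primes -/
noncomputable def Pr (h1 h2 X a b : ℕ) : ℝ :=
  Sg h1 h2 a b * X / (a * b * Real.log X * Real.log ((X : ℝ) / a) * Real.log ((X : ℝ) / b))

/-- pairs with few primes -/
theorem poor_sum (h1 h2 : ℕ) (h0 : 0 < h1) (h : h1 < h2) (hr : ∀ l : ℕ, l.Prime → l ∣ h2 - h1 → l ∣ h1)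
    (ε : ℝ) (hε : 0 < ε) (hε2 : ε < 1 / 2) : ∃ C : ℝ, 0 ≤ C ∧ ∀ᶠ X : ℕ in atTop, ∀ N : ℕ,
    Real.log N ≤ Real.log X / 2 → 1 ≤ N →
    ∀ s : Finset (ℕ × ℕ), s ⊆ (Icc 1 N) ×ˢ (Icc 1 N) →
    (∀ x ∈ s, ((Np h1 h2 X x.1 x.2).card : ℝ) ≤ (1 / 2 - ε) * Pr h1 h2 X x.1 x.2) →
    ∑ x ∈ s, Wf h1 h2 X x.1 x.2 ≤ (1 / 8 - ε / 8) * (X * Real.log X) + C * X := by
  obtain ⟨C, hC, hS⟩ := Sg_sum h1 h2 h0 h hr (ε / 8) (by positivity)
  refine ⟨4 * C, by positivity, ?_⟩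
  filter_upwards [log_inf (2 / (ε / 8)), eventually_ge_atTop h2, eventually_ge_atTop 3] with X e1 e2 e3
  intro N hlN hN s hs hpoor
  have hX3 : (3 : ℝ) ≤ X := by exact_mod_cast e3
  have hX0 : (0 : ℝ) < X := by linarith
  obtain ⟨L, hL⟩ : ∃ L, L = Real.log (X : ℝ) := ⟨_, rfl⟩
  have e1' := e1
  rw [← hL] at e1' ⊢
  have hL2 : 2 ≤ L := by
    refine le_trans ?_ e1'
    rw [le_div_iff₀ (by positivity)]
    linarith
  have hL0 : 0 < L := by linarith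
  obtain ⟨η, hη⟩ : ∃ η : ℝ, η = ε / 8 := ⟨_, rfl⟩
  have hη0 : 0 < η := by rw [hη]; positivity
  rw [← hη] at e1 hS
  have hmem : ∀ x ∈ s, 1 ≤ x.1 ∧ 1 ≤ x.2 ∧ Real.log x.1 ≤ Real.log X / 2 ∧ Real.log x.2 ≤ Real.log X / 2 := by
    intro x hx
    have := hs hx
    rw [mem_product, mem_Icc, mem_Icc] at this
    refine ⟨this.1.1, this.2.1, le_trans ?_ hlN, le_trans ?_ hlN⟩
    · exact Real.log_le_log (by exact_mod_cast this.1.1) (by exact_mod_cast this.1.2)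
    · exact Real.log_le_log (by exact_mod_cast this.2.1) (by exact_mod_cast this.2.2)
  have hpt : ∀ x ∈ s, Wf h1 h2 X x.1 x.2 ≤ ((1 + η) ^ 2 * (1 / 2 - ε) * (X / L)) * (Sg h1 h2 x.1 x.2 / ((x.1 : ℝ) * x.2)) := by
    intro x hx
    obtain ⟨a1, a2, a3, a4⟩ := hmem x hx
    have b := Wf_le h1 h2 X x.1 x.2 η hη0 a1 a2 e2 h (by omega) a3 a4 e1
    obtain ⟨c1, _⟩ := log_div_pos X x.1 a1 (by omega) a3
    obtain ⟨c2, _⟩ := log_div_pos X x.2 a2 (by omega) a4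
    have d1 : (0 : ℝ) < x.1 := by exact_mod_cast a1
    have d2 : (0 : ℝ) < x.2 := by exact_mod_cast a2
    calc Wf h1 h2 X x.1 x.2 ≤ _ := b
      _ ≤ ((1 / 2 - ε) * Pr h1 h2 X x.1 x.2) *
          ((1 + η) ^ 2 * (Real.log ((X : ℝ) / x.1) * Real.log ((X : ℝ) / x.2))) := by
            apply mul_le_mul_of_nonneg_right (hpoor x hx) (by positivity)
      _ = _ := by
            unfold Pr
            rw [← hL]
            field_simp
  refine (sum_le_sum hpt).trans ?_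
  rw [← mul_sum]
  have hSum : ∑ x ∈ s, Sg h1 h2 x.1 x.2 / ((x.1 : ℝ) * x.2) ≤ (1 + η) * (L / 2 * (L / 2)) + C * (1 + L / 2 + L / 2) := by
    calc _ ≤ ∑ x ∈ (Icc 1 N) ×ˢ (Icc 1 N), Sg h1 h2 x.1 x.2 / ((x.1 : ℝ) * x.2) := by
          apply sum_le_sum_of_subset_of_nonneg hs
          intro x hx _
          rw [mem_product, mem_Icc, mem_Icc] at hx
          exact div_nonneg (Sg_nonneg h1 h2 x.1 x.2 h0 h hr hx.1.1 hx.2.1) (by positivity)
      _ = S2 (Sg h1 h2) N N := by unfold S2; rw [sum_product]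
      _ ≤ _ := hS N N
      _ ≤ _ := by
          have l1 : 0 ≤ Real.log N := Real.log_natCast_nonneg _
          have l2 : Real.log N ≤ L / 2 := by rw [hL]; exact hlN
          have l3 : Real.log N * Real.log N ≤ L / 2 * (L / 2) := mul_le_mul l2 l2 l1 (by positivity)
          have l4 : (1 + η) * (Real.log N * Real.log N) ≤ (1 + η) * (L / 2 * (L / 2)) :=
            mul_le_mul_of_nonneg_left l3 (by positivity)
          have l5 : C * (1 + Real.log N + Real.log N) ≤ C * (1 + L / 2 + L / 2) :=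
            mul_le_mul_of_nonneg_left (by linarith) hC
          linarith
  have hc : 0 ≤ (1 + η) ^ 2 * (1 / 2 - ε) * (X / L) := by
    have : 0 < 1 / 2 - ε := by linarith
    positivity
  refine (mul_le_mul_of_nonneg_left hSum hc).trans ?_
  have e : (1 + η) ^ 2 * (1 / 2 - ε) * (X / L) * ((1 + η) * (L / 2 * (L / 2)) + C * (1 + L / 2 + L / 2)) =
      (1 + η) ^ 3 * (1 / 2 - ε) / 4 * (X * L) + (1 + η) ^ 2 * (1 / 2 - ε) * C * X * ((1 + L) / L) := by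
    field_simp
    ring
  rw [e]
  have g1 : (1 + η) ^ 3 * (1 / 2 - ε) / 4 ≤ 1 / 8 - ε / 8 := by
    have hη1 : η ≤ 1 := by rw [hη]; linarith
    have : (1 + η) ^ 3 ≤ 1 + 7 * η := by nlinarith [mul_nonneg hη0.le (sub_nonneg.2 hη1), mul_nonneg (mul_nonneg hη0.le hη0.le) (sub_nonneg.2 hη1)]
    have h5 : (1 + η) ^ 3 * (1 / 2 - ε) ≤ (1 + 7 * η) * (1 / 2 - ε) := mul_le_mul_of_nonneg_right this (by linarith)
    rw [hη] at h5 ⊢
    nlinarith
  have g2 : (1 + η) ^ 2 * (1 / 2 - ε) ≤ 2 := by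
    have hη1 : η ≤ 1 := by rw [hη]; linarith
    have : (1 + η) ^ 2 ≤ 4 := by nlinarith
    have h6 : 0 ≤ 1 / 2 - ε := by linarith
    nlinarith
  have g3 : (1 + L) / L ≤ 2 := by rw [div_le_iff₀ hL0]; linarith
  have g4 : 0 ≤ (1 + L) / L := by positivity
  have g5 : (1 + η) ^ 2 * (1 / 2 - ε) * C * X * ((1 + L) / L) ≤ 2 * C * X * 2 := by
    apply mul_le_mul _ g3 g4 (by positivity)
    apply mul_le_mul_of_nonneg_right _ hX0.le
    exact mul_le_mul_of_nonneg_right g2 hC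
  have g6 : (1 + η) ^ 3 * (1 / 2 - ε) / 4 * (X * L) ≤ (1 / 8 - ε / 8) * (X * L) :=
    mul_le_mul_of_nonneg_right g1 (by positivity)
  linarith

end Pool.Agent.K4H50.TM
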