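import Pool.Agent.K4H50.TM.D1

/-!
# A positive proportion of the pairs of multipliers, conclusion
-/

set_option autoImplicit false

namespace Pool.Agent.K4H50.TM

open Finset Filter Topology

/-- the pairs with many primes -/
noncomputable def Ri (h1 h2 : ℕ) (ε δ : ℝ) (X : ℕ) : Finset (ℕ × ℕ) := by
  classical
  exact ((Icc 1 X) ×ˢ (Icc 1 X)).filter (fun x => (X : ℝ) ^ δ ≤ x.1 ∧ (x.1 : ℝ) ≤ (X : ℝ) ^ (1 / 2 - δ) ∧
    (X : ℝ) ^ δ ≤ x.2 ∧ (x.2 : ℝ) ≤ (X : ℝ) ^ (1 / 2 - δ) ∧ 0 < Sg h1 h2 x.1 x.2 ∧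
    (1 / 2 - ε) * Pr h1 h2 X x.1 x.2 ≤ ((Np h1 h2 X x.1 x.2).card : ℝ))

theorem mem_Ri {h1 h2 : ℕ} {ε δ : ℝ} {X : ℕ} {x : ℕ × ℕ} : x ∈ Ri h1 h2 ε δ X ↔
    ((1 ≤ x.1 ∧ x.1 ≤ X) ∧ (1 ≤ x.2 ∧ x.2 ≤ X)) ∧ (X : ℝ) ^ δ ≤ x.1 ∧ (x.1 : ℝ) ≤ (X : ℝ) ^ (1 / 2 - δ) ∧
    (X : ℝ) ^ δ ≤ x.2 ∧ (x.2 : ℝ) ≤ (X : ℝ) ^ (1 / 2 - δ) ∧ 0 < Sg h1 h2 x.1 x.2 ∧
    (1 / 2 - ε) * Pr h1 h2 X x.1 x.2 ≤ ((Np h1 h2 X x.1 x.2).card : ℝ) := by
  classical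
  unfold Ri
  rw [mem_filter, mem_product, mem_Icc, mem_Icc]

/-- the total over the pairs with many primes -/
theorem rich_total (h1 h2 : ℕ) (h0 : 0 < h1) (h : h1 < h2) (hr : ∀ l : ℕ, l.Prime → l ∣ h2 - h1 → l ∣ h1)
    (ε : ℝ) (hε : 0 < ε) (hε2 : ε < 1 / 2) : ∃ δ : ℝ, 0 < δ ∧ δ ≤ 1 / 16 ∧ ∀ᶠ X : ℕ in atTop,
    ε / 16 * (X * Real.log X) ≤ ∑ x ∈ Ri h1 h2 ε δ X, Wf h1 h2 X x.1 x.2 := by
  classical
  obtain ⟨C1, hC1, hN1⟩ := Np_upper h1 h2 h0 h hr (1 / 2) (by norm_num) (by norm_num)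
  obtain ⟨Cr, hCr, hr1, hr2⟩ := rho_sum1
  obtain ⟨Cp, hCp, hpoor⟩ := poor_sum h1 h2 h0 h hr ε hε hε2
  obtain ⟨K, hK⟩ : ∃ K : ℝ, K = 1410 + 16 * C1 * Cr ^ 2 := ⟨_, rfl⟩
  have hK0 : 0 < K := by rw [hK]; positivity
  obtain ⟨δ, hδ⟩ : ∃ δ : ℝ, δ = min (1 / 16) (ε / (32 * K)) := ⟨_, rfl⟩
  have hδ0 : 0 < δ := by rw [hδ]; positivity
  have hδ16 : δ ≤ 1 / 16 := by rw [hδ]; exact min_le_left _ _
  have hδK : K * δ ≤ ε / 32 := by
    have : δ ≤ ε / (32 * K) := by rw [hδ]; exact min_le_right _ _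
    calc K * δ ≤ K * (ε / (32 * K)) := mul_le_mul_of_nonneg_left this hK0.le
      _ = ε / 32 := by field_simp
  refine ⟨δ, hδ0, hδ16, ?_⟩
  filter_upwards [hN1, hpoor, XX_lower h1 h2 h0 h δ hδ0 (by linarith), log_inf (32 * Cp / ε), log_inf (1 / δ), log_inf 2,
    log_rpow_small (δ / 12) (by positivity), rpow_inf δ hδ0 1, rpow_inf (1 / 2 - δ) (by linarith) 1,
    eventually_ge_atTop h2, eventually_ge_atTop 3] with X e1 e2 e3 e4 e5 e6 e7 e8 e8' e9 e10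
  have hX3 : (3 : ℝ) ≤ X := by exact_mod_cast e10
  have hX0 : (0 : ℝ) < X := by linarith
  have hX1 : (1 : ℝ) ≤ X := by linarith
  have e6' := e6
  obtain ⟨L, hL⟩ : ∃ L, L = Real.log (X : ℝ) := ⟨_, rfl⟩
  rw [← hL] at e1 e3 e4 e5 e6 e7 ⊢
  have hL0 : 0 < L := by linarith
  obtain ⟨N, hN⟩ : ∃ N, N = ⌊(X : ℝ) ^ (1 / 2 - δ)⌋₊ := ⟨_, rfl⟩
  obtain ⟨M, hM⟩ : ∃ M, M = ⌊(X : ℝ) ^ δ⌋₊ := ⟨_, rfl⟩
  obtain ⟨B, hB⟩ : ∃ B, B = ⌊2 * (X : ℝ) ^ (1 / 2 + δ)⌋₊ := ⟨_, rfl⟩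
  rw [← hB] at e3
  have hNle : (N : ℝ) ≤ (X : ℝ) ^ (1 / 2 - δ) := by rw [hN]; exact Nat.floor_le (by positivity)
  have hMle : (M : ℝ) ≤ (X : ℝ) ^ δ := by rw [hM]; exact Nat.floor_le (by positivity)
  have hN1' : 1 ≤ N := by rw [hN]; exact Nat.le_floor (by exact_mod_cast e8')
  have hM1 : 1 ≤ M := by rw [hM]; exact Nat.le_floor (by exact_mod_cast e8)
  have hN1r : (1 : ℝ) ≤ N := by exact_mod_cast hN1'
  have hM1r : (1 : ℝ) ≤ M := by exact_mod_cast hM1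
  have hBge : 2 * (X : ℝ) ^ (1 / 2 + δ) < B + 1 := by rw [hB]; exact Nat.lt_floor_add_one _
  have hNX : N ≤ X := by
    have : (N : ℝ) ≤ X := by
      calc (N : ℝ) ≤ (X : ℝ) ^ (1 / 2 - δ) := hNle
        _ ≤ (X : ℝ) ^ (1 : ℝ) := Real.rpow_le_rpow_of_exponent_le hX1 (by linarith)
        _ = X := Real.rpow_one _
    exact_mod_cast this
  have hlogN : Real.log N ≤ L / 2 := by
    calc Real.log N ≤ Real.log ((X : ℝ) ^ (1 / 2 : ℝ)) := by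
          apply Real.log_le_log (by linarith) (hNle.trans _)
          exact Real.rpow_le_rpow_of_exponent_le hX1 (by linarith)
      _ = L / 2 := by rw [Real.log_rpow hX0, hL]; ring
  have hlogM : Real.log M ≤ δ * L := by
    calc Real.log M ≤ Real.log ((X : ℝ) ^ δ) := Real.log_le_log (by linarith) hMle
      _ = δ * L := by rw [Real.log_rpow hX0, hL]
  have hdiv : ∀ k : ℕ, k ≤ X → (X + k) / (B + 1) ≤ N := by
    intro k hk
    rw [hN]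
    apply Nat.le_floor
    have h3 : (((X + k) / (B + 1) : ℕ) : ℝ) ≤ ((X + k : ℕ) : ℝ) / ((B + 1 : ℕ) : ℝ) := Nat.cast_div_le
    refine h3.trans ?_
    push_cast
    have hkr : (k : ℝ) ≤ X := by exact_mod_cast hk
    have hBp : (0 : ℝ) < (B : ℝ) + 1 := by positivity
    rw [div_le_iff₀ hBp]
    have h5 : (X : ℝ) ^ (1 / 2 - δ) * (X : ℝ) ^ (1 / 2 + δ) = X := by
      rw [← Real.rpow_add hX0]
      have : (1 : ℝ) / 2 - δ + (1 / 2 + δ) = 1 := by ring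
      rw [this, Real.rpow_one]
    have h6 : (X : ℝ) ^ (1 / 2 - δ) * (2 * (X : ℝ) ^ (1 / 2 + δ)) ≤ (X : ℝ) ^ (1 / 2 - δ) * ((B : ℝ) + 1) :=
      mul_le_mul_of_nonneg_left hBge.le (by positivity)
    have h7 : (X : ℝ) ^ (1 / 2 - δ) * (2 * (X : ℝ) ^ (1 / 2 + δ)) = 2 * X := by rw [← mul_assoc, mul_comm _ (2 : ℝ), mul_assoc, h5]
    linarith
  have htot := e3.trans (XX_le_W h1 h2 X B N (hdiv h1 (by omega)) (hdiv h2 (by omega)))
  obtain ⟨W, hW⟩ : ∃ W : ℕ × ℕ → ℝ, W = fun x => Wf h1 h2 X x.1 x.2 := ⟨_, rfl⟩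
  have hWn : ∀ x, 0 ≤ W x := fun x => by rw [hW]; exact Wf_nonneg _ _ _ _ _
  obtain ⟨bx, hbx⟩ : ∃ bx : Finset (ℕ × ℕ), bx = (Icc 1 N) ×ˢ (Icc 1 N) := ⟨_, rfl⟩
  have htot2 : (1 / 8 - 1409 * δ) * (X * L) ≤ ∑ x ∈ bx, W x := by
    rw [hbx, hW, sum_product]
    exact htot
  have hbm : ∀ x ∈ bx, 1 ≤ x.1 ∧ 1 ≤ x.2 ∧ x.1 ≤ N ∧ x.2 ≤ N ∧ Real.log x.1 ≤ Real.log X / 2 ∧
      Real.log x.2 ≤ Real.log X / 2 := by
    intro x hx
    rw [hbx, mem_product, mem_Icc, mem_Icc] at hx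
    rw [← hL]
    refine ⟨hx.1.1, hx.2.1, hx.1.2, hx.2.2, le_trans ?_ hlogN, le_trans ?_ hlogN⟩
    · exact Real.log_le_log (by exact_mod_cast hx.1.1) (by exact_mod_cast hx.1.2)
    · exact Real.log_le_log (by exact_mod_cast hx.2.1) (by exact_mod_cast hx.2.2)
  have hW2 : ∀ x ∈ bx, W x ≤ ((Np h1 h2 X x.1 x.2).card : ℝ) * (4 * L ^ 2) := by
    intro x hx
    obtain ⟨a1, a2, a3, a4, a5, a6⟩ := hbm x hx
    rw [hW, hL]
    exact Wf_le2 h1 h2 X x.1 x.2 a1 a2 e9 h (by omega) a5 a6 e6'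
  -- the pieces
  obtain ⟨s1, hs1⟩ : ∃ s1, s1 = (Icc 1 M) ×ˢ (Icc 1 N) := ⟨_, rfl⟩
  obtain ⟨s2, hs2⟩ : ∃ s2, s2 = (Icc 1 N) ×ˢ (Icc 1 M) := ⟨_, rfl⟩
  obtain ⟨s3, hs3⟩ : ∃ s3, s3 = bx.filter (fun x => Sg h1 h2 x.1 x.2 = 0) := ⟨_, rfl⟩
  obtain ⟨s4, hs4⟩ : ∃ s4, s4 = bx.filter (fun x => ((Np h1 h2 X x.1 x.2).card : ℝ) ≤ (1 / 2 - ε) * Pr h1 h2 X x.1 x.2) := ⟨_, rfl⟩
  have hMN : M ≤ N := by
    rw [hM, hN]
    apply Nat.floor_le_floor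
    exact Real.rpow_le_rpow_of_exponent_le hX1 (by linarith)
  have hcover : bx ⊆ s1 ∪ (s2 ∪ (s3 ∪ (s4 ∪ Ri h1 h2 ε δ X))) := by
    intro x hx
    obtain ⟨a1, a2, a3, a4, a5, a6⟩ := hbm x hx
    rw [mem_union, mem_union, mem_union, mem_union, hs1, hs2, hs3, hs4, mem_product, mem_product, mem_filter, mem_filter,
      mem_Icc, mem_Icc, mem_Icc, mem_Icc, mem_Ri]
    by_cases c1 : x.1 ≤ M
    · left; exact ⟨⟨a1, c1⟩, a2, a4⟩
    by_cases c2 : x.2 ≤ M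
    · right; left; exact ⟨⟨a1, a3⟩, a2, c2⟩
    by_cases c3 : Sg h1 h2 x.1 x.2 = 0
    · right; right; left; exact ⟨hx, c3⟩
    by_cases c4 : ((Np h1 h2 X x.1 x.2).card : ℝ) ≤ (1 / 2 - ε) * Pr h1 h2 X x.1 x.2
    · right; right; right; left; exact ⟨hx, c4⟩
    right; right; right; right
    have b1 : (X : ℝ) ^ δ ≤ x.1 := by
      have h5 : (X : ℝ) ^ δ < M + 1 := by rw [hM]; exact Nat.lt_floor_add_one _
      have h6 : ((M + 1 : ℕ) : ℝ) ≤ x.1 := by exact_mod_cast (by omega : M + 1 ≤ x.1)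
      push_cast at h6
      linarith
    have b2 : (X : ℝ) ^ δ ≤ x.2 := by
      have h5 : (X : ℝ) ^ δ < M + 1 := by rw [hM]; exact Nat.lt_floor_add_one _
      have h6 : ((M + 1 : ℕ) : ℝ) ≤ x.2 := by exact_mod_cast (by omega : M + 1 ≤ x.2)
      push_cast at h6
      linarith
    have b3 : (x.1 : ℝ) ≤ (X : ℝ) ^ (1 / 2 - δ) := le_trans (by exact_mod_cast a3) hNle
    have b4 : (x.2 : ℝ) ≤ (X : ℝ) ^ (1 / 2 - δ) := le_trans (by exact_mod_cast a4) hNle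
    refine ⟨⟨⟨a1, by omega⟩, a2, by omega⟩, b1, b3, b2, b4, ?_, (not_le.1 c4).le⟩
    exact lt_of_le_of_ne (Sg_nonneg h1 h2 x.1 x.2 h0 h hr a1 a2) (Ne.symm c3)
  have hsum : ∑ x ∈ bx, W x ≤ ∑ x ∈ s1, W x + (∑ x ∈ s2, W x + (∑ x ∈ s3, W x + (∑ x ∈ s4, W x +
      ∑ x ∈ Ri h1 h2 ε δ X, W x))) := by
    refine (sum_le_sum_of_subset_of_nonneg hcover fun x _ _ => hWn x).trans ?_
    refine (sum_union_le' W hWn).trans (add_le_add le_rfl ?_)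
    refine (sum_union_le' W hWn).trans (add_le_add le_rfl ?_)
    refine (sum_union_le' W hWn).trans (add_le_add le_rfl ?_)
    exact sum_union_le' W hWn
  -- small multipliers
  have hsmallpt : ∀ x ∈ bx, x.1 ≤ M ∨ x.2 ≤ M → W x ≤ 4 * C1 * (X / L) * (rho x.1 * rho x.2 / ((x.1 : ℝ) * x.2)) := by
    intro x hx hxM
    obtain ⟨a1, a2, a3, a4, a5, a6⟩ := hbm x hx
    have hab : ((x.1 * x.2 : ℕ) : ℝ) ≤ (X : ℝ) ^ ((1 : ℝ) - 1 / 2) := by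
      have h5 : x.1 * x.2 ≤ M * N := by
        rcases hxM with h6 | h6
        · exact Nat.mul_le_mul h6 a4
        · rw [mul_comm]; exact Nat.mul_le_mul h6 a3
      calc ((x.1 * x.2 : ℕ) : ℝ) ≤ ((M * N : ℕ) : ℝ) := by exact_mod_cast h5
        _ = M * N := by push_cast; ring
        _ ≤ (X : ℝ) ^ δ * (X : ℝ) ^ (1 / 2 - δ) := mul_le_mul hMle hNle (by positivity) (by positivity)
        _ = (X : ℝ) ^ ((1 : ℝ) - 1 / 2) := by rw [← Real.rpow_add hX0]; congr 1; ring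
    have h7 := e1 x.1 x.2 a1 a2 hab
    have d1 : (0 : ℝ) < x.1 := by exact_mod_cast a1
    have d2 : (0 : ℝ) < x.2 := by exact_mod_cast a2
    calc W x ≤ ((Np h1 h2 X x.1 x.2).card : ℝ) * (4 * L ^ 2) := hW2 x hx
      _ ≤ (C1 * (rho x.1 * rho x.2) * (X / ((x.1 * x.2 : ℕ) * L ^ 3))) * (4 * L ^ 2) :=
          mul_le_mul_of_nonneg_right h7 (by positivity)
      _ = _ := by push_cast; field_simp
  have hrn : ∀ x : ℕ × ℕ, 0 ≤ rho x.1 * rho x.2 / ((x.1 : ℝ) * x.2) := by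
    intro x
    have := rho_ge x.1
    have := rho_ge x.2
    positivity
  have hrect : C1 * (X / L) * 4 * (Cr ^ 2 * ((1 + Real.log M) * (1 + Real.log N))) ≤ 8 * C1 * Cr ^ 2 * δ * (X * L) := by
    have l1 : 1 + Real.log M ≤ 2 * (δ * L) := by
      rw [div_le_iff₀ hδ0] at e5
      linarith
    have l2 : 1 + Real.log N ≤ L := by linarith
    have l3 : 0 ≤ Real.log N := Real.log_natCast_nonneg _
    calc C1 * (X / L) * 4 * (Cr ^ 2 * ((1 + Real.log M) * (1 + Real.log N))) ≤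
          C1 * (X / L) * 4 * (Cr ^ 2 * ((2 * (δ * L)) * L)) := by
            apply mul_le_mul_of_nonneg_left _ (by positivity)
            apply mul_le_mul_of_nonneg_left _ (by positivity)
            exact mul_le_mul l1 l2 (by linarith) (by positivity)
      _ = _ := by field_simp; ring
  have hS1 : ∑ x ∈ s1, W x ≤ 8 * C1 * Cr ^ 2 * δ * (X * L) := by
    refine le_trans ?_ hrect
    calc ∑ x ∈ s1, W x ≤ ∑ x ∈ s1, 4 * C1 * (X / L) * (rho x.1 * rho x.2 / ((x.1 : ℝ) * x.2)) := by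
          apply sum_le_sum
          intro x hx
          rw [hs1, mem_product, mem_Icc, mem_Icc] at hx
          apply hsmallpt x _ (Or.inl hx.1.2)
          rw [hbx, mem_product, mem_Icc, mem_Icc]
          exact ⟨⟨hx.1.1, hx.1.2.trans hMN⟩, hx.2⟩
      _ = 4 * C1 * (X / L) * ∑ x ∈ s1, rho x.1 * rho x.2 / ((x.1 : ℝ) * x.2) := by rw [mul_sum]
      _ ≤ 4 * C1 * (X / L) * (Cr ^ 2 * ((1 + Real.log M) * (1 + Real.log N))) := by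
          rw [hs1]
          exact mul_le_mul_of_nonneg_left (rho_rect Cr hCr hr1 M N) (by positivity)
      _ = _ := by ring
  have hS2 : ∑ x ∈ s2, W x ≤ 8 * C1 * Cr ^ 2 * δ * (X * L) := by
    refine le_trans ?_ hrect
    calc ∑ x ∈ s2, W x ≤ ∑ x ∈ s2, 4 * C1 * (X / L) * (rho x.1 * rho x.2 / ((x.1 : ℝ) * x.2)) := by
          apply sum_le_sum
          intro x hx
          rw [hs2, mem_product, mem_Icc, mem_Icc] at hx
          apply hsmallpt x _ (Or.inr hx.2.2)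
          rw [hbx, mem_product, mem_Icc, mem_Icc]
          exact ⟨hx.1, ⟨hx.2.1, hx.2.2.trans hMN⟩⟩
      _ = 4 * C1 * (X / L) * ∑ x ∈ s2, rho x.1 * rho x.2 / ((x.1 : ℝ) * x.2) := by rw [mul_sum]
      _ ≤ 4 * C1 * (X / L) * (Cr ^ 2 * ((1 + Real.log N) * (1 + Real.log M))) := by
          rw [hs2]
          exact mul_le_mul_of_nonneg_left (rho_rect Cr hCr hr1 N M) (by positivity)
      _ = _ := by ring
  -- vanishing singular series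
  have hS3 : ∑ x ∈ s3, W x ≤ δ * (X * L) := by
    have hp : ∀ x ∈ s3, W x ≤ 12 * L ^ 2 := by
      intro x hx
      rw [hs3, mem_filter] at hx
      obtain ⟨a1, a2, a3, a4, a5, a6⟩ := hbm x hx.1
      have h5 := Np_Sg_zero h1 h2 X x.1 x.2 h0 h hr a1 a2 hx.2
      have h6 : ((Np h1 h2 X x.1 x.2).card : ℝ) ≤ 3 := by exact_mod_cast h5
      calc W x ≤ ((Np h1 h2 X x.1 x.2).card : ℝ) * (4 * L ^ 2) := hW2 x hx.1
        _ ≤ 3 * (4 * L ^ 2) := mul_le_mul_of_nonneg_right h6 (by positivity)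
        _ = _ := by ring
    have hc : (s3.card : ℝ) ≤ N * N := by
      have : s3.card ≤ N * N := by
        calc s3.card ≤ bx.card := by rw [hs3]; exact card_filter_le _ _
          _ = N * N := by rw [hbx, card_product, Nat.card_Icc, Nat.add_sub_cancel]
      exact_mod_cast this
    have hXX : (N : ℝ) * N ≤ (X : ℝ) ^ (1 - 2 * δ) := by
      calc (N : ℝ) * N ≤ (X : ℝ) ^ (1 / 2 - δ) * (X : ℝ) ^ (1 / 2 - δ) := mul_le_mul hNle hNle (by positivity) (by positivity)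
        _ = _ := by rw [← Real.rpow_add hX0]; congr 1; ring
    have hL12 : 12 * L ≤ δ * (X : ℝ) ^ (2 * δ) := by
      have h5 : (X : ℝ) ^ (δ / 12) ≤ (X : ℝ) ^ (2 * δ) := Real.rpow_le_rpow_of_exponent_le hX1 (by linarith)
      have h6 : δ / 12 * (X : ℝ) ^ (δ / 12) ≤ δ / 12 * (X : ℝ) ^ (2 * δ) := mul_le_mul_of_nonneg_left h5 (by positivity)
      linarith
    calc ∑ x ∈ s3, W x ≤ ∑ x ∈ s3, 12 * L ^ 2 := sum_le_sum hp
      _ = s3.card * (12 * L ^ 2) := by rw [sum_const, nsmul_eq_mul]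
      _ ≤ (X : ℝ) ^ (1 - 2 * δ) * (12 * L ^ 2) := mul_le_mul_of_nonneg_right (hc.trans hXX) (by positivity)
      _ = (X : ℝ) ^ (1 - 2 * δ) * (12 * L) * L := by ring
      _ ≤ (X : ℝ) ^ (1 - 2 * δ) * (δ * (X : ℝ) ^ (2 * δ)) * L := by
          apply mul_le_mul_of_nonneg_right _ hL0.le
          exact mul_le_mul_of_nonneg_left hL12 (by positivity)
      _ = δ * (((X : ℝ) ^ (1 - 2 * δ) * (X : ℝ) ^ (2 * δ)) * L) := by ring
      _ = δ * (X * L) := by rw [← Real.rpow_add hX0, sub_add_cancel, Real.rpow_one]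
  -- pairs with few primes
  have hS4 : ∑ x ∈ s4, W x ≤ (1 / 8 - ε / 8) * (X * L) + Cp * X := by
    rw [hL, hW]
    apply e2 N (by rw [← hL]; exact hlogN) hN1' s4
    · rw [← hbx, hs4]; exact filter_subset _ _
    · intro x hx
      rw [hs4, mem_filter] at hx
      exact hx.2
  have h13 : Cp * X ≤ ε / 32 * (X * L) := by
    rw [div_le_iff₀ hε] at e4
    nlinarith
  have h14 : (1410 + 16 * C1 * Cr ^ 2) * δ * (X * L) ≤ ε / 32 * (X * L) := by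
    apply mul_le_mul_of_nonneg_right _ (by positivity)
    rw [← hK]; exact hδK
  have h15 : ∑ x ∈ Ri h1 h2 ε δ X, Wf h1 h2 X x.1 x.2 = ∑ x ∈ Ri h1 h2 ε δ X, W x := by rw [hW]
  rw [h15]
  nlinarith

/-- the pairs with many primes have positive logarithmic proportion -/
theorem rich_density (h1 h2 : ℕ) (h0 : 0 < h1) (h : h1 < h2) (hr : ∀ l : ℕ, l.Prime → l ∣ h2 - h1 → l ∣ h1)
    (ε : ℝ) (hε : 0 < ε) (hε2 : ε < 1 / 2) : ∃ δ κ : ℝ, 0 < δ ∧ δ ≤ 1 / 16 ∧ 0 < κ ∧ ∀ᶠ X : ℕ in atTop,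
    κ * Real.log X ^ 2 ≤ ∑ x ∈ Ri h1 h2 ε δ X, 1 / ((x.1 : ℝ) * x.2) := by
  obtain ⟨δ, hδ0, hδ16, htot⟩ := rich_total h1 h2 h0 h hr ε hε hε2
  obtain ⟨C2, hC2, hN2⟩ := Np_upper h1 h2 h0 h hr (2 * δ) (by positivity) (by linarith)
  obtain ⟨Cr, hCr, hr1, hr2⟩ := rho_sum1
  refine ⟨δ, (ε / (64 * C2 * Cr)) ^ 2, hδ0, hδ16, by positivity, ?_⟩
  filter_upwards [htot, hN2, log_inf 2, eventually_ge_atTop h2, eventually_ge_atTop 3] with X e1 e2 e3 e4 e5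
  have hX3 : (3 : ℝ) ≤ X := by exact_mod_cast e5
  have hX0 : (0 : ℝ) < X := by linarith
  have hX1 : (1 : ℝ) ≤ X := by linarith
  have e3' := e3
  obtain ⟨L, hL⟩ : ∃ L, L = Real.log (X : ℝ) := ⟨_, rfl⟩
  rw [← hL] at e1 e2 e3 ⊢
  have hL0 : 0 < L := by linarith
  obtain ⟨N, hN⟩ : ∃ N, N = ⌊(X : ℝ) ^ (1 / 2 - δ)⌋₊ := ⟨_, rfl⟩
  have hNle : (N : ℝ) ≤ (X : ℝ) ^ (1 / 2 - δ) := by rw [hN]; exact Nat.floor_le (by positivity)
  have hN1r : (1 : ℝ) ≤ (X : ℝ) ^ (1 / 2 - δ) := Real.one_le_rpow hX1 (by linarith)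
  have hN1 : 1 ≤ N := by rw [hN]; exact Nat.le_floor (by exact_mod_cast hN1r)
  have hlogN : Real.log N ≤ L / 2 := by
    calc Real.log N ≤ Real.log ((X : ℝ) ^ (1 / 2 : ℝ)) := by
          apply Real.log_le_log (by exact_mod_cast hN1) (hNle.trans _)
          exact Real.rpow_le_rpow_of_exponent_le hX1 (by linarith)
      _ = L / 2 := by rw [Real.log_rpow hX0, hL]; ring
  obtain ⟨R, hR⟩ : ∃ R, R = Ri h1 h2 ε δ X := ⟨_, rfl⟩
  rw [← hR] at e1 ⊢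
  have hRm : ∀ x ∈ R, 1 ≤ x.1 ∧ 1 ≤ x.2 ∧ x.1 ≤ N ∧ x.2 ≤ N := by
    intro x hx
    rw [hR, mem_Ri] at hx
    refine ⟨hx.1.1.1, hx.1.2.1, ?_, ?_⟩
    · rw [hN]; exact Nat.le_floor hx.2.2.1
    · rw [hN]; exact Nat.le_floor hx.2.2.2.2.1
  have hpt : ∀ x ∈ R, Wf h1 h2 X x.1 x.2 ≤ 4 * C2 * (X / L) * (rho x.1 * rho x.2 / ((x.1 : ℝ) * x.2)) := by
    intro x hx
    obtain ⟨a1, a2, a3, a4⟩ := hRm x hx
    have hab : ((x.1 * x.2 : ℕ) : ℝ) ≤ (X : ℝ) ^ (1 - 2 * δ) := by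
      calc ((x.1 * x.2 : ℕ) : ℝ) ≤ ((N * N : ℕ) : ℝ) := by exact_mod_cast Nat.mul_le_mul a3 a4
        _ = N * N := by push_cast; ring
        _ ≤ (X : ℝ) ^ (1 / 2 - δ) * (X : ℝ) ^ (1 / 2 - δ) := mul_le_mul hNle hNle (by positivity) (by positivity)
        _ = _ := by rw [← Real.rpow_add hX0]; congr 1; ring
    have h7 := e2 x.1 x.2 a1 a2 hab
    have l1 : Real.log x.1 ≤ Real.log X / 2 := by
      rw [← hL]
      refine le_trans ?_ hlogN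
      exact Real.log_le_log (by exact_mod_cast a1) (by exact_mod_cast a3)
    have l2 : Real.log x.2 ≤ Real.log X / 2 := by
      rw [← hL]
      refine le_trans ?_ hlogN
      exact Real.log_le_log (by exact_mod_cast a2) (by exact_mod_cast a4)
    have h8 := Wf_le2 h1 h2 X x.1 x.2 a1 a2 e4 h (by omega) l1 l2 e3'
    rw [← hL] at h8
    have d1 : (0 : ℝ) < x.1 := by exact_mod_cast a1
    have d2 : (0 : ℝ) < x.2 := by exact_mod_cast a2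
    calc Wf h1 h2 X x.1 x.2 ≤ ((Np h1 h2 X x.1 x.2).card : ℝ) * (4 * L ^ 2) := h8
      _ ≤ (C2 * (rho x.1 * rho x.2) * (X / ((x.1 * x.2 : ℕ) * L ^ 3))) * (4 * L ^ 2) :=
          mul_le_mul_of_nonneg_right h7 (by positivity)
      _ = _ := by push_cast; field_simp
  obtain ⟨T, hT⟩ : ∃ T, T = ∑ x ∈ R, rho x.1 * rho x.2 / ((x.1 : ℝ) * x.2) := ⟨_, rfl⟩
  have hTlow : ε / (64 * C2) * L ^ 2 ≤ T := by
    have h9 : ε / 16 * (X * L) ≤ 4 * C2 * (X / L) * T := by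
      rw [hT, mul_sum]
      exact e1.trans (sum_le_sum hpt)
    have h10 : ε / (64 * C2) * L ^ 2 = ε / 16 * (X * L) / (4 * C2 * (X / L)) := by field_simp; ring
    rw [h10, div_le_iff₀ (by positivity)]
    linarith
  have hcs : T ^ 2 ≤ (∑ x ∈ R, 1 / ((x.1 : ℝ) * x.2)) * ∑ x ∈ R, (rho x.1 * rho x.2) ^ 2 / ((x.1 : ℝ) * x.2) := by
    rw [hT]
    apply sum_sq_le_sum_mul_sum_of_sq_eq_mul
    · intro x _; positivity
    · intro x _; positivity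
    · intro x _
      ring
  have hT2 : ∑ x ∈ R, (rho x.1 * rho x.2) ^ 2 / ((x.1 : ℝ) * x.2) ≤ Cr ^ 2 * L ^ 2 := by
    calc _ ≤ ∑ x ∈ (Icc 1 N) ×ˢ (Icc 1 N), (rho x.1 * rho x.2) ^ 2 / ((x.1 : ℝ) * x.2) := by
          apply sum_le_sum_of_subset_of_nonneg
          · intro x hx
            obtain ⟨a1, a2, a3, a4⟩ := hRm x hx
            rw [mem_product, mem_Icc, mem_Icc]
            exact ⟨⟨a1, a3⟩, a2, a4⟩
          · intro x _ _; positivity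
      _ ≤ Cr ^ 2 * ((1 + Real.log N) * (1 + Real.log N)) := rho_rect2 Cr hCr hr2 N N
      _ ≤ Cr ^ 2 * L ^ 2 := by
          apply mul_le_mul_of_nonneg_left _ (by positivity)
          rw [pow_two]
          have := Real.log_natCast_nonneg N
          exact mul_le_mul (by linarith) (by linarith) (by linarith) hL0.le
  have hS0 : 0 ≤ ∑ x ∈ R, 1 / ((x.1 : ℝ) * x.2) := sum_nonneg fun x _ => by positivity
  have h11 : (ε / (64 * C2) * L ^ 2) ^ 2 ≤ (∑ x ∈ R, 1 / ((x.1 : ℝ) * x.2)) * (Cr ^ 2 * L ^ 2) := by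
    calc (ε / (64 * C2) * L ^ 2) ^ 2 ≤ T ^ 2 := pow_le_pow_left₀ (by positivity) hTlow 2
      _ ≤ _ := hcs
      _ ≤ _ := mul_le_mul_of_nonneg_left hT2 hS0
  have h12 : (ε / (64 * C2 * Cr)) ^ 2 * L ^ 2 = (ε / (64 * C2) * L ^ 2) ^ 2 / (Cr ^ 2 * L ^ 2) := by field_simp
  rw [h12, div_le_iff₀ (by positivity)]
  exact h11

end Pool.Agent.K4H50.TM
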